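import Pool.Agent.H2.NC.Defs
import Pool.Agent.H16.GPS.Rel.Absorb

/-!
JOB NC-ABSORB (MP_c183ae_nt). Absorbing the shift in a test function.

Same statement and proof as `absorb` in `Pool/Agent/H16/GPS/Rel/Absorb.lean` (copy it; `ab_hybrid` may be used as it is), without the
parameter space `Θ`, with `∑ i, cf i • h i` in place of `LL j h` (`cf j = 0`, `cf i ≠ 0`, `cf i ∣ D` for `i ≠ j`) and `D` in place of
`κ!`: the exact quotients are `c i` with `cf i * c i = D`, `|c i| ≤ D`.
-/

set_option autoImplicit false

open Finset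

namespace Pool.Agent.H2.NC

open Pool.Agent.H16 Pool.Agent.H16.GPS

theorem absorb1 (κ D : ℕ) (hκ : 2 ≤ κ) (hD : 0 < D) {Γ : Type} [Fintype Γ] [AddCommGroup Γ]
    (lam lam' : Γ → ℝ) (hl : IsPW lam) (τ : ℝ) (hτ : 0 ≤ τ) (hN : NearD D lam lam' τ)
    (φ : Γ → ℝ) (hφ : φ ∈ TestT κ D lam) :
    ∃ v : Fin κ → Γ → (Fin κ → Γ) → (Fin κ → Γ) → ℝ,
      (∀ i p h, Indep i (v i p h)) ∧ (∀ i p h y, 0 ≤ v i p h y ∧ v i p h y ≤ 1) ∧
      ∀ (p : Γ) (y : Fin κ → Γ), (∀ c, lam' (y c) ≠ 0) →
        |φ (p + D • ∑ c, y c) -
          ∑ h : Fin κ → Γ, (∏ i, lam (h i)) * ∏ i, v i p h y| ≤ (κ + 1) * τ := by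
  classical
  rcases hφ with hφ | ⟨j, cf, u, hcfj, hcf, hu1, hu2, hφ⟩
  · refine ⟨fun _ _ _ _ => 1, fun _ _ _ _ _ => rfl, fun _ _ _ _ => ⟨zero_le_one, le_rfl⟩,
      fun p y _ => ?_⟩
    have h1 : ∑ h : Fin κ → Γ, (∏ i, lam (h i)) * ∏ i : Fin κ, (1 : ℝ) = 1 := by
      simp only [Finset.prod_const_one, mul_one]
      exact sum_pi_weight lam hl
    rw [h1, hφ]
    simp only [sub_self, abs_zero]
    positivity
  -- the index i₀
  obtain ⟨i₀, hi₀⟩ : ∃ i₀ : Fin κ, i₀ ≠ j := by
    by_cases hj : (j : ℕ) = 0
    · exact ⟨⟨1, by omega⟩, fun h => by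
        have := congrArg Fin.val h
        simp only at this
        omega⟩
    · exact ⟨⟨0, by omega⟩, fun h => hj (by
        have := congrArg Fin.val h
        simp only at this
        omega)⟩
  -- the exact quotients
  have hex : ∀ i : Fin κ, ∃ c : ℤ, i ≠ j → cf i * c = (D : ℤ) ∧ |c| ≤ (D : ℤ) := by
    intro i
    by_cases hij : i = j
    · exact ⟨0, fun h => absurd hij h⟩
    obtain ⟨hne, hdvd⟩ := hcf i hij
    obtain ⟨c, hc⟩ := hdvd
    refine ⟨c, fun _ => ⟨hc.symm, ?_⟩⟩
    have h1 : |cf i| * |c| = (D : ℤ) := by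
      rw [← abs_mul, ← hc]
      exact abs_of_nonneg (by positivity)
    have h2 : 1 ≤ |cf i| := Int.one_le_abs hne
    nlinarith [abs_nonneg c]
  choose c hc using hex
  let sh : (Fin κ → Γ) → Fin κ → Γ := fun y i =>
    if i = j then 0 else if i = i₀ then c i • (y i + y j) else c i • y i
  have hsh : ∀ y : Fin κ → Γ, ∑ i, cf i • sh y i = D • ∑ c, y c := by
    intro y
    have h1 : ∀ i : Fin κ, cf i • sh y i =
        (if i = j then 0 else D • y i) + (if i = i₀ then D • y j else 0) := by
      intro i
      by_cases hij : i = j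
      · have hji : i ≠ i₀ := fun h => hi₀ (h ▸ hij)
        simp only [sh, if_pos hij, if_neg hji, smul_zero, add_zero]
      · have h2 := (hc i hij).1
        by_cases hi : i = i₀
        · simp only [sh, if_neg hij, if_pos hi]
          rw [← mul_smul, h2, natCast_zsmul, nsmul_add]
        · simp only [sh, if_neg hij, if_neg hi, add_zero]
          rw [← mul_smul, h2, natCast_zsmul]
    rw [Finset.sum_congr rfl fun i _ => h1 i, Finset.sum_add_distrib]
    rw [Finset.sum_ite_eq' univ i₀, if_pos (mem_univ _)]
    rw [← Finset.add_sum_erase univ (fun c => y c) (mem_univ j),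
      ← Finset.add_sum_erase univ
        (fun i => if i = j then (0 : Γ) else D • y i) (mem_univ j)]
    rw [if_pos rfl, zero_add, nsmul_add, Finset.sum_congr rfl
      (g := fun i => D • y i) (fun i hi => if_neg (Finset.ne_of_mem_erase hi)),
      Finset.smul_sum, add_comm]
  have hLLadd : ∀ g h : Fin κ → Γ, ∑ i, cf i • (g + h) i =
      ∑ i, cf i • g i + ∑ i, cf i • h i := by
    intro g h
    simp only [Pi.add_apply, smul_add, Finset.sum_add_distrib]
  -- the functions v
  refine ⟨fun i p g y => if i = j then 1 else u i (p - ∑ l, cf l • g l) (g + sh y), ?_, ?_, ?_⟩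
  · intro i p g y x
    dsimp only
    by_cases hij : i = j
    · rw [if_pos hij, if_pos hij]
    · rw [if_neg hij, if_neg hij]
      have h1 : g + sh (Function.update y i x) =
          Function.update (g + sh y) i ((g + sh (Function.update y i x)) i) := by
        funext l
        by_cases hl' : l = i
        · subst hl'
          rw [Function.update_self]
        · rw [Function.update_of_ne hl']
          simp only [Pi.add_apply]
          congr 1
          simp only [sh]
          by_cases hlj : l = j
          · rw [if_pos hlj, if_pos hlj]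
          · rw [if_neg hlj, if_neg hlj]
            have e1 : Function.update y i x l = y l := Function.update_of_ne hl' _ _
            have e2 : Function.update y i x j = y j := Function.update_of_ne (Ne.symm hij) _ _
            rw [e1, e2]
      rw [h1]
      exact hu1 i _ _ _
  · intro i p g y
    dsimp only
    by_cases hij : i = j
    · rw [if_pos hij]
      exact ⟨zero_le_one, le_rfl⟩
    · rw [if_neg hij]
      exact hu2 i _ _
  · intro p y hy
    dsimp only
    -- rewrite the product
    have hprod : ∀ g : Fin κ → Γ,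
        (∏ i, if i = j then (1 : ℝ) else u i (p - ∑ l, cf l • g l) (g + sh y)) =
          ∏ i ∈ univ.erase j, u i (p - ∑ l, cf l • g l) (g + sh y) := by
      intro g
      rw [← Finset.mul_prod_erase univ _ (mem_univ j), if_pos rfl, one_mul]
      exact Finset.prod_congr rfl fun i hi => if_neg (Finset.ne_of_mem_erase hi)
    have h1 : φ (p + D • ∑ c, y c) =
        ∑ g : Fin κ → Γ, (∏ i, lam (g i + sh y i)) *
          ∏ i ∈ univ.erase j, u i (p - ∑ l, cf l • g l) (g + sh y) := by
      rw [hφ, ← Equiv.sum_comp (Equiv.addRight (sh y))]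
      refine Finset.sum_congr rfl fun g _ => ?_
      simp only [Equiv.coe_addRight]
      rw [hLLadd, hsh]
      congr 1
      refine Finset.prod_congr rfl fun i _ => ?_
      congr 1
      abel
    have h1' : ∑ g : Fin κ → Γ, (∏ i, lam (g i)) *
        (∏ i, if i = j then (1 : ℝ) else u i (p - ∑ l, cf l • g l) (g + sh y)) =
        ∑ g : Fin κ → Γ, (∏ i, lam (g i)) *
          ∏ i ∈ univ.erase j, u i (p - ∑ l, cf l • g l) (g + sh y) :=
      Finset.sum_congr rfl fun g _ => by rw [hprod g]
    rw [h1, h1', ← Finset.sum_sub_distrib]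
    have h2 : |∑ g : Fin κ → Γ, ((∏ i, lam (g i + sh y i)) *
          ∏ i ∈ univ.erase j, u i (p - ∑ l, cf l • g l) (g + sh y) -
        (∏ i, lam (g i)) * ∏ i ∈ univ.erase j, u i (p - ∑ l, cf l • g l) (g + sh y))| ≤
        ∑ g : Fin κ → Γ, |∏ i, lam (g i + sh y i) - ∏ i, lam (g i)| := by
      refine (Finset.abs_sum_le_sum_abs _ _).trans (Finset.sum_le_sum fun g _ => ?_)
      rw [← sub_mul, abs_mul]
      have h3 : |∏ i ∈ univ.erase j, u i (p - ∑ l, cf l • g l) (g + sh y)| ≤ 1 := by
        rw [abs_of_nonneg (Finset.prod_nonneg fun i _ => (hu2 i _ _).1)]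
        exact Finset.prod_le_one (fun i _ => (hu2 i _ _).1) (fun i _ => (hu2 i _ _).2)
      exact mul_le_of_le_one_right (abs_nonneg _) h3
    refine h2.trans ?_
    have hshift : ∀ t : Γ, ∑ g, lam (g + t) = 1 := by
      intro t
      rw [← hl.2]
      exact Equiv.sum_comp (Equiv.addRight t) lam
    have h4 := ab_hybrid (fun i g => lam (g + sh y i)) (fun _ g => lam g)
      (fun i g => hl.1 _) (fun i => hshift _) (fun i g => hl.1 _) (fun i => hl.2)
    refine h4.trans ?_
    -- bound each shift
    have hone : ∀ (i l : Fin κ), i ≠ j → ∑ g, |lam (g + c i • y l) - lam g| ≤ τ := by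
      intro i l hij
      have h5 := hN (y l) (hy l) (-(c i)) (by rw [abs_neg]; exact (hc i hij).2)
      refine le_trans (le_of_eq ?_) h5
      refine Finset.sum_congr rfl fun g _ => ?_
      rw [neg_smul, sub_neg_eq_add, abs_sub_comm]
    have hb : ∀ i : Fin κ, ∑ g, |lam (g + sh y i) - lam g| ≤ τ + if i = i₀ then τ else 0 := by
      intro i
      by_cases hij : i = j
      · have h0 : sh y i = 0 := by simp only [sh, if_pos hij]
        rw [h0]
        simp only [add_zero, sub_self, abs_zero, Finset.sum_const_zero]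
        split_ifs <;> linarith
      · by_cases hi : i = i₀
        · have h0 : sh y i = c i • y i + c i • y j := by
            simp only [sh, if_neg hij, if_pos hi, smul_add]
          rw [h0, if_pos hi]
          calc ∑ g, |lam (g + (c i • y i + c i • y j)) - lam g|
              ≤ ∑ g, (|lam (g + (c i • y i + c i • y j)) - lam (g + c i • y j)| +
                  |lam (g + c i • y j) - lam g|) :=
                Finset.sum_le_sum fun g _ => abs_sub_le _ _ _
            _ = ∑ g, |lam (g + (c i • y i + c i • y j)) - lam (g + c i • y j)| +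
                  ∑ g, |lam (g + c i • y j) - lam g| := Finset.sum_add_distrib
            _ ≤ τ + τ := by
                refine add_le_add ?_ (hone i j hij)
                refine le_trans (le_of_eq ?_) (hone i i hij)
                rw [← Equiv.sum_comp (Equiv.addRight (c i • y j))
                  (fun g => |lam (g + c i • y i) - lam g|)]
                refine Finset.sum_congr rfl fun g _ => ?_
                simp only [Equiv.coe_addRight]
                congr 3
                abel
        · have h0 : sh y i = c i • y i := by simp only [sh, if_neg hij, if_neg hi]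
          rw [h0, if_neg hi, add_zero]
          exact hone i i hij
    calc ∑ i, ∑ g, |lam (g + sh y i) - lam g|
        ≤ ∑ i : Fin κ, (τ + if i = i₀ then τ else 0) := Finset.sum_le_sum fun i _ => hb i
      _ = (κ + 1) * τ := by
          rw [Finset.sum_add_distrib, Finset.sum_ite_eq' univ i₀, if_pos (mem_univ _)]
          simp
          ring

end Pool.Agent.H2.NC
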