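import Pool.Agent.H2.NC.Defs
import Pool.Agent.H16.GPS.Num.Prod

/-!
JOB NC-PROD (MP_c183ae_nt). Comparison of the local factors, forms `α m * A + β m`, `w = log ℓ`.

Adapt `Pool/Agent/H16/GPS/Num/Prod.lean` (`prodc_pow_le`, `prodc_factor`, `prodc_sum_sq` can be used as they are).
`ρ p = #(ℳ.image (fun m => rt (α m) (β m) p)) ≤ #ℳ`, and `ρ p < #ℳ` means `rt (α m) (β m) p = rt (α m') (β m') p` for some
`m ≠ m'` in `ℳ`, hence `p ∣ α m β m' - α m' β m ≠ 0` (`p > w`, so `p ∤ α m, α m'`), an integer of absolute value `≤ ℓ^(2A)`. As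
`p > w`, the number of such `p` for one pair is at most `2 A log ℓ / log w`. So (as in the proof of `prod_compare`)
`∑_{p ∈ P} |a p - 1| ≤ C_t ∑_{p > w} 1/p² + C_t t² (2 A log ℓ / log w) / w ≤ C (1/w + 1 / log w) → 0`, `w = ⌊log ℓ⌋`:
here the number of exceptional primes has to be bounded with the factor `1 / log w` (every exceptional prime is `> w`, so
`w ^ (number) ≤ ℓ^(2A)`), which replaces `prodc_card_pf`.
-/

set_option autoImplicit false

open Finset Filter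

namespace Pool.Agent.H2.NC

open Pool.Agent.H16 Pool.Agent.H16.GPS

theorem prod1_card_pf (n w : ℕ) (hn : n ≠ 0) (hw : 1 ≤ w) (S : Finset ℕ)
    (hS : ∀ p ∈ S, p.Prime ∧ w < p ∧ p ∣ n) (B : ℝ) (hB : (n : ℝ) ≤ Real.exp B) :
    (#S : ℝ) * Real.log w ≤ B := by
  have h1 : w ^ #S ≤ n := by
    refine (Finset.pow_card_le_prod S (fun p => p) w fun p hp => (hS p hp).2.1.le).trans ?_
    refine Nat.le_of_dvd (Nat.pos_of_ne_zero hn) ?_
    exact Finset.prod_primes_dvd n (fun p hp => (hS p hp).1.prime) (fun p hp => (hS p hp).2.2)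
  have h2 : (w : ℝ) ^ #S ≤ Real.exp B := by
    refine le_trans ?_ hB
    exact_mod_cast h1
  have hw0 : (0 : ℝ) < w := by exact_mod_cast hw
  have h3 := Real.log_le_log (by positivity) h2
  rw [Real.log_exp, Real.log_pow] at h3
  exact h3

theorem prod1_bad (t w : ℕ) (hw : 1 ≤ w) (α β : ℕ → ℕ) (ℳ P : Finset ℕ) (B : ℝ) (hB : 0 ≤ B)
    (ht : #ℳ ≤ t)
    (hm : ∀ m ∈ ℳ, ∀ m' ∈ ℳ, ((α m * β m' : ℕ) : ℝ) ≤ Real.exp B)
    (hα : ∀ m ∈ ℳ, 0 < α m ∧ ∀ p, p.Prime → p ∣ α m → p ≤ w)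
    (hne : ∀ m ∈ ℳ, ∀ m' ∈ ℳ, m ≠ m' → α m * β m' ≠ α m' * β m)
    (hP : ∀ p ∈ P, p.Prime ∧ w < p) :
    (#(P.filter fun p => #(ℳ.image fun m => rt (α m) (β m) p) < #ℳ) : ℝ) * Real.log w ≤
      (t : ℝ) ^ 2 * B := by
  classical
  set nn : ℕ × ℕ → ℕ := fun q => ((α q.1 : ℤ) * β q.2 - α q.2 * β q.1).natAbs with hnn
  have hsub : (P.filter fun p => #(ℳ.image fun m => rt (α m) (β m) p) < #ℳ) ⊆
      ℳ.offDiag.biUnion fun q => P.filter (fun p => p ∣ nn q) := by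
    intro p hp
    rw [Finset.mem_filter] at hp
    have hni : ¬ Set.InjOn (fun m => rt (α m) (β m) p) (ℳ : Set ℕ) := fun h => by
      have := Finset.card_image_of_injOn h
      omega
    unfold Set.InjOn at hni
    push Not at hni
    obtain ⟨m, hm1, m', hm2, he, hne'⟩ := hni
    have he : rt (α m) (β m) p = rt (α m') (β m') p := he
    rw [Finset.mem_biUnion]
    refine ⟨(m, m'), Finset.mem_offDiag.2 ⟨hm1, hm2, hne'⟩, ?_⟩
    rw [Finset.mem_filter]
    refine ⟨hp.1, ?_⟩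
    have : Fact p.Prime := ⟨(hP p hp.1).1⟩
    have hu : ∀ k ∈ ℳ, (α k : ZMod p) ≠ 0 := by
      intro k hk h
      rw [ZMod.natCast_eq_zero_iff] at h
      have h1 := (hα k hk).2 p (hP p hp.1).1 h
      have h2 := (hP p hp.1).2
      omega
    have h1 : -(β m : ZMod p) * (α m : ZMod p)⁻¹ = -(β m' : ZMod p) * (α m' : ZMod p)⁻¹ :=
      ZMod.val_injective p he
    have h2 : (α m : ZMod p) * β m' - α m' * β m = 0 := by
      have u1 := hu m hm1
      have u2 := hu m' hm2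
      field_simp at h1
      linear_combination h1
    have h3 : (p : ℤ) ∣ (α m : ℤ) * β m' - α m' * β m := by
      rw [← ZMod.intCast_zmod_eq_zero_iff_dvd]
      push_cast
      exact h2
    exact Int.natCast_dvd.1 h3
  have hlw : 0 ≤ Real.log w := Real.log_nonneg (by exact_mod_cast hw)
  have h1 : (#(P.filter fun p => #(ℳ.image fun m => rt (α m) (β m) p) < #ℳ) : ℝ) ≤
      ∑ q ∈ ℳ.offDiag, (#(P.filter (fun p => p ∣ nn q)) : ℝ) := by
    refine le_trans (Nat.cast_le.2 ((Finset.card_le_card hsub).trans Finset.card_biUnion_le)) ?_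
    push_cast
    exact le_rfl
  have h2 : ∀ q ∈ ℳ.offDiag, (#(P.filter (fun p => p ∣ nn q)) : ℝ) * Real.log w ≤ B := by
    intro q hq
    rw [Finset.mem_offDiag] at hq
    refine prod1_card_pf (nn q) w ?_ hw _ ?_ B ?_
    · intro h
      rw [hnn] at h
      simp only [Int.natAbs_eq_zero] at h
      apply hne q.1 hq.1 q.2 hq.2.1 hq.2.2
      have h' : (α q.1 : ℤ) * β q.2 = α q.2 * β q.1 := by linarith
      exact_mod_cast h'
    · intro p hp
      rw [Finset.mem_filter] at hp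
      exact ⟨(hP p hp.1).1, (hP p hp.1).2, hp.2⟩
    · have h3 : nn q ≤ max (α q.1 * β q.2) (α q.2 * β q.1) := by
        rw [hnn]
        simp only
        rw [← Int.ofNat_le]
        push_cast
        have z1 : (0 : ℤ) ≤ (α q.1 : ℤ) * β q.2 := by positivity
        have z2 : (0 : ℤ) ≤ (α q.2 : ℤ) * β q.1 := by positivity
        rcases le_total ((α q.1 : ℤ) * β q.2) (α q.2 * β q.1) with h | h
        · rw [max_eq_right h, abs_of_nonpos (by linarith)]
          linarith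
        · rw [max_eq_left h, abs_of_nonneg (by linarith)]
          linarith
      refine (Nat.cast_le.2 h3).trans ?_
      rw [Nat.cast_max]
      exact max_le (hm _ hq.1 _ hq.2.1) (hm _ hq.2.1 _ hq.1)
  calc (#(P.filter fun p => #(ℳ.image fun m => rt (α m) (β m) p) < #ℳ) : ℝ) * Real.log w
      ≤ (∑ q ∈ ℳ.offDiag, (#(P.filter (fun p => p ∣ nn q)) : ℝ)) * Real.log w :=
        mul_le_mul_of_nonneg_right h1 hlw
    _ = ∑ q ∈ ℳ.offDiag, (#(P.filter (fun p => p ∣ nn q)) : ℝ) * Real.log w :=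
        Finset.sum_mul _ _ _
    _ ≤ #ℳ.offDiag • B := Finset.sum_le_card_nsmul _ _ _ h2
    _ ≤ (t : ℝ) ^ 2 * B := by
        rw [nsmul_eq_mul]
        refine mul_le_mul_of_nonneg_right ?_ hB
        have h4 : #ℳ.offDiag ≤ t ^ 2 := by
          rw [Finset.offDiag_card]
          calc #ℳ * #ℳ - #ℳ ≤ #ℳ * #ℳ := Nat.sub_le _ _
            _ ≤ t * t := Nat.mul_le_mul ht ht
            _ = t ^ 2 := by ring
        exact_mod_cast h4

theorem prod_compare1 (t A : ℕ) (ε : ℝ) (hε : 0 < ε) : ∀ᶠ ℓ : ℝ in atTop,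
    ∀ (α β : ℕ → ℕ) (ℳ : Finset ℕ), #ℳ ≤ t →
    (∀ m ∈ ℳ, 0 < α m ∧ (α m : ℝ) ≤ ℓ ^ A ∧ (β m : ℝ) ≤ ℓ ^ A ∧ ∀ p, p.Prime → p ∣ α m → p ≤ w1 ℓ) →
    (∀ m ∈ ℳ, ∀ m' ∈ ℳ, m ≠ m' → α m * β m' ≠ α m' * β m) →
    ∀ P : Finset ℕ, (∀ p ∈ P, p.Prime ∧ w1 ℓ < p) →
    |(∏ p ∈ P, (1 - (#(ℳ.image (fun m => rt (α m) (β m) p)) : ℝ) / p)) / VP P ^ #ℳ - 1| ≤ ε := by
  set T : ℝ := 2 * (t : ℝ) ^ 2 + 8 * A * (t : ℝ) ^ 3 with hT
  have hT0 : 0 ≤ T := by positivity
  have hL := Real.tendsto_log_atTop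
  have hW : Tendsto (fun ℓ : ℝ => Real.log (w1 ℓ : ℝ)) atTop atTop := by
    refine hL.comp ?_
    refine tendsto_natCast_atTop_atTop.comp ?_
    exact tendsto_nat_floor_atTop.comp hL
  have hlim : Tendsto (fun ℓ : ℝ => Real.exp (T / Real.log (w1 ℓ : ℝ)) - 1) atTop (nhds 0) := by
    have h1 : Tendsto (fun ℓ : ℝ => T / Real.log (w1 ℓ : ℝ)) atTop (nhds 0) :=
      Filter.Tendsto.div_atTop tendsto_const_nhds hW
    have h2 := (Real.continuous_exp.tendsto 0).comp h1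
    rw [Real.exp_zero] at h2
    have h3 := h2.sub_const 1
    rw [sub_self] at h3
    exact h3
  filter_upwards [hlim.eventually_le_const hε, hL.eventually_ge_atTop (2 + 4 * (t : ℝ)),
    hW.eventually_ge_atTop 1, eventually_gt_atTop 0]
    with ℓ h1 h2 hW1 hℓ0 α β ℳ ht hm hne P hP
  set L := Real.log ℓ with hLdef
  have ht0 : (0 : ℝ) ≤ t := Nat.cast_nonneg t
  have hL2 : 2 ≤ L := by linarith
  have hL1 : 1 ≤ L := by linarith
  set w := w1 ℓ with hw
  have hw1 : L / 2 ≤ (w : ℝ) := by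
    have h3 : L < (w : ℝ) + 1 := Nat.lt_floor_add_one _
    linarith
  have hw0 : (0 : ℝ) < w := by linarith
  have hw0' : 1 ≤ w := by exact_mod_cast hw0
  have hwt : 2 * (t : ℝ) ≤ w := by linarith
  set lw := Real.log (w : ℝ) with hlw
  have hlw0 : 0 < lw := by linarith
  have hlw2 : lw ≤ w := by
    have := Real.log_le_sub_one_of_pos hw0
    linarith
  set s := #ℳ with hs
  have hst : (s : ℝ) ≤ t := by exact_mod_cast ht
  have hs0 : (0 : ℝ) ≤ s := Nat.cast_nonneg s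
  let a : ℕ → ℝ := fun p =>
    (1 - (#(ℳ.image (fun m => rt (α m) (β m) p)) : ℝ) / p) / (1 - 1 / (p : ℝ)) ^ s - 1
  have hratio : (∏ p ∈ P, (1 - (#(ℳ.image (fun m => rt (α m) (β m) p)) : ℝ) / p)) / VP P ^ s =
      ∏ p ∈ P, (1 + a p) := by
    unfold VP
    rw [← Finset.prod_pow, ← Finset.prod_div_distrib]
    refine Finset.prod_congr rfl fun p _ => ?_
    simp only [a]
    ring
  rw [hratio]
  have hmain := Finset.norm_prod_one_add_sub_one_le P a
  rw [Real.norm_eq_abs] at hmain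
  refine hmain.trans (le_trans ?_ h1)
  refine sub_le_sub_right (Real.exp_le_exp.2 ?_) 1
  have hpt : ∀ p ∈ P, ‖a p‖ ≤ 2 * (s : ℝ) ^ 2 * (1 / (p : ℝ) ^ 2) +
      (if #(ℳ.image fun m => rt (α m) (β m) p) < s then 2 * s * (1 / (w : ℝ)) else 0) := by
    intro p hp
    obtain ⟨hpp, hwp⟩ := hP p hp
    have hp0 : (0 : ℝ) < p := by exact_mod_cast hpp.pos
    have hwp' : (w : ℝ) < p := by exact_mod_cast hwp
    have hx1 : 1 / (p : ℝ) ≤ 1 / (w : ℝ) := one_div_le_one_div_of_le hw0 hwp'.le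
    have h3 := prodc_factor s (#(ℳ.image fun m => rt (α m) (β m) p)) (1 / (p : ℝ)) (by positivity)
      (by
        rw [mul_one_div, div_le_div_iff₀ hp0 (by norm_num)]
        linarith)
      (by
        rw [div_le_one hp0]
        exact_mod_cast hpp.one_lt.le)
      Finset.card_image_le
    rw [Real.norm_eq_abs]
    have e1 : a p = (1 - (#(ℳ.image fun m => rt (α m) (β m) p) : ℝ) * (1 / (p : ℝ))) /
        (1 - 1 / (p : ℝ)) ^ s - 1 := by
      simp only [a, mul_one_div]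
    rw [e1]
    refine h3.trans ?_
    refine add_le_add (le_of_eq (by rw [one_div_pow])) ?_
    split_ifs
    · exact mul_le_mul_of_nonneg_left hx1 (by linarith)
    · exact le_rfl
  refine (Finset.sum_le_sum hpt).trans ?_
  rw [Finset.sum_add_distrib, ← Finset.mul_sum, ← Finset.sum_filter, Finset.sum_const,
    nsmul_eq_mul]
  have hS1 := prodc_sum_sq P w hw0' fun p hp => (hP p hp).2
  have hαβ : ∀ m ∈ ℳ, ∀ m' ∈ ℳ, ((α m * β m' : ℕ) : ℝ) ≤ Real.exp (2 * A * L) := by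
    intro m hm1 m' hm2
    have e1 : Real.exp (2 * A * L) = ℓ ^ A * ℓ ^ A := by
      rw [← pow_add, ← Real.exp_log hℓ0, ← Real.exp_nat_mul]
      congr 1
      push_cast
      ring
    rw [e1]
    push_cast
    exact mul_le_mul (hm m hm1).2.1 (hm m' hm2).2.2.1 (Nat.cast_nonneg _) (by positivity)
  have hS2 := prod1_bad t w hw0' α β ℳ P (2 * A * L) (by positivity) ht hαβ
    (fun m hmm => ⟨(hm m hmm).1, (hm m hmm).2.2.2⟩) hne hP
  rw [← hlw, ← le_div_iff₀ hlw0] at hS2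
  have hA : 2 * (s : ℝ) ^ 2 * ∑ p ∈ P, 1 / (p : ℝ) ^ 2 ≤ 2 * (t : ℝ) ^ 2 * (1 / lw) := by
    refine mul_le_mul ?_ (hS1.trans ?_) (Finset.sum_nonneg fun _ _ => by positivity) (by positivity)
    · have : (s : ℝ) ^ 2 ≤ (t : ℝ) ^ 2 := pow_le_pow_left₀ hs0 hst 2
      linarith
    · exact one_div_le_one_div_of_le hlw0 hlw2
  have hw2 : 1 / (w : ℝ) ≤ 2 / L := by
    rw [div_le_div_iff₀ hw0 (by linarith)]
    linarith
  have hB : (#(P.filter fun p => #(ℳ.image fun m => rt (α m) (β m) p) < s) : ℝ) *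
      (2 * s * (1 / (w : ℝ))) ≤ ((t : ℝ) ^ 2 * (2 * A * L) / lw) * (2 * t * (2 / L)) := by
    refine mul_le_mul hS2 ?_ (by positivity) (by positivity)
    refine mul_le_mul (by linarith) hw2 (by positivity) (by positivity)
  refine (add_le_add hA hB).trans ?_
  have hLpos : 0 < L := by linarith
  have e2 : ((t : ℝ) ^ 2 * (2 * A * L) / lw) * (2 * t * (2 / L)) = 8 * A * (t : ℝ) ^ 3 / lw := by
    field_simp
    ring
  have e3 : 2 * (t : ℝ) ^ 2 * (1 / lw) = 2 * (t : ℝ) ^ 2 / lw := by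
    rw [mul_one_div]
  rw [e2, e3, hT, add_div]

end Pool.Agent.H2.NC
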