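import Pool.Agent.H2.NC.Expand
import Pool.Agent.H2.NC.Prod
import Pool.Agent.H16.GPS.Num.Corr

/-!
JOB NC-CORR (MP_c183ae_nt). Correlations of the majorant at distinct linear forms `α m * A + β m`.

Adapt the proof of `corr` in `Pool/Agent/H16/GPS/Num/Corr.lean` (its lemmas `corr_logpow`, `kk_lower`, `kk_upper`, `zz_lower`,
`zz_upper`, `RR_upper`, `zz_pow`, `log_zz`, `log_RR`, `corr_err` may be used as they are; `VP_lower` must be redone for `P1`).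
`w = w1 ℓ = ⌊log ℓ⌋`, so `100 ≤ log w`, `2 t ≤ w ≤ z` for large `ℓ`; `α m β m' ≤ ℓ^(2A) ≤ exp ((log ℓ)^4) ≤ z`;
`1 / VP (P1 ..) ≤ 1 / Vp z ≤ C log z`; main term by `prod_compare1`, expansion by `corr_expand1`.
-/

set_option autoImplicit false

open Finset Filter

namespace Pool.Agent.H2.NC

open Pool.Agent.H16 Pool.Agent.H16.GPS

/-- `1/VP P ≤ 1/Vp z` -/
lemma VP_lower1 : ∃ C : ℝ, 1 ≤ C ∧ ∀ (K : ℕ) (η ℓ : ℝ) (e : ℕ), 2 ≤ zz K η ℓ →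
    0 < VP (P1 K η ℓ e) ∧ 1 / VP (P1 K η ℓ e) ≤ C * Real.log (zz K η ℓ) := by
  obtain ⟨c, hc, h⟩ := Vp_ge
  refine ⟨max 1 (1 / c), le_max_left _ _, fun K η ℓ e hz => ?_⟩
  have hprime : ∀ p ∈ P1 K η ℓ e, p.Prime := by
    intro p hp
    unfold P1 at hp
    rw [Finset.mem_erase, mem_primesIoc] at hp
    exact hp.2.2.2
  have hpos : 0 < VP (P1 K η ℓ e) := by
    unfold VP
    refine Finset.prod_pos (fun p hp => ?_)
    exact one_sub_inv_pos (hprime p hp)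
  refine ⟨hpos, ?_⟩
  have h1 : Vp (zz K η ℓ) ≤ VP (P1 K η ℓ e) := by
    have hsub : P1 K η ℓ e ⊆ Nat.primesLE (zz K η ℓ) := by
      intro p hp
      unfold P1 at hp
      rw [Finset.mem_erase, mem_primesIoc] at hp
      exact Nat.mem_primesLE.mpr ⟨hp.2.2.1, hp.2.2.2⟩
    unfold Vp VP
    rw [← Finset.prod_sdiff hsub]
    refine mul_le_of_le_one_left ?_ ?_
    · exact Finset.prod_nonneg (fun p hp => (one_sub_inv_pos (hprime p hp)).le)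
    · refine Finset.prod_le_one (fun p hp => ?_) (fun p hp => ?_)
      · rw [Finset.mem_sdiff, Nat.mem_primesLE] at hp
        exact (one_sub_inv_pos hp.1.2).le
      · have : (0:ℝ) ≤ 1 / (p:ℝ) := by positivity
        linarith
  have hz1 : (1 : ℝ) < zz K η ℓ := by exact_mod_cast hz
  have hlog : 0 < Real.log (zz K η ℓ) := Real.log_pos hz1
  have h2 := h (zz K η ℓ) hz
  have h3 : c / Real.log (zz K η ℓ) ≤ VP (P1 K η ℓ e) := h2.trans h1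
  calc 1 / VP (P1 K η ℓ e) ≤ 1 / (c / Real.log (zz K η ℓ)) :=
        one_div_le_one_div_of_le (by positivity) h3
    _ = 1 / c * Real.log (zz K η ℓ) := by field_simp
    _ ≤ _ := mul_le_mul_of_nonneg_right (le_max_right _ _) hlog.le

lemma corr1_E1 (t K n : ℕ) (η ℓ : ℝ) (hK : 16 * t + 1 ≤ K) (hℳ : n ≤ t) (hℓ : 1 ≤ ℓ) (hL1 : 1 ≤ Real.log ℓ)
    (C₁ C₂ G S v : ℝ) (hC₁ : 0 < C₁) (hG0 : 0 < G) (hGle : G ≤ C₁ * ℓ) (hS0 : 0 ≤ S)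
    (hSle : S ≤ C₂ * ℓ ^ 3) (_hVr0 : 0 ≤ v) (hVr : v ≤ 2) (hz : Real.exp ((Real.log ℓ) ^ 4) ≤ zz K η ℓ) :
    v * (G * S) ^ n * ((1 / 2) ^ kk K ℓ + 9 * (t : ℝ) ^ 2 / zz K η ℓ) ≤
      2 * (max 1 (C₁ * C₂)) ^ t * (Real.exp (-(Real.log ℓ) / 2) + 9 * (t : ℝ) ^ 2 *
        Real.exp (4 * t * (Real.log ℓ) - (Real.log ℓ) ^ 4)) := by
  have hℓ0 : 0 < ℓ := by linarith
  set L := Real.log ℓ with hLdef
  set C₀ : ℝ := max 1 (C₁ * C₂) with hC₀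
  have hC01 : 1 ≤ C₀ := le_max_left _ _
  have hℓ4 : 1 ≤ ℓ ^ 4 := one_le_pow₀ hℓ
  have a1 : G * S ≤ C₀ * ℓ ^ 4 := by
    calc G * S ≤ (C₁ * ℓ) * (C₂ * ℓ ^ 3) := mul_le_mul hGle hSle hS0 (by positivity)
      _ = (C₁ * C₂) * ℓ ^ 4 := by ring
      _ ≤ C₀ * ℓ ^ 4 := mul_le_mul_of_nonneg_right (le_max_right _ _) (by positivity)
  have a2 : 1 ≤ C₀ * ℓ ^ 4 := one_le_mul_of_one_le_of_one_le hC01 hℓ4
  have a3 : (G * S) ^ n ≤ C₀ ^ t * Real.exp (4 * t * L) := by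
    calc (G * S) ^ n ≤ (C₀ * ℓ ^ 4) ^ n := pow_le_pow_left₀ (by positivity) a1 n
      _ ≤ (C₀ * ℓ ^ 4) ^ t := pow_le_pow_right₀ a2 hℳ
      _ = C₀ ^ t * Real.exp (4 * t * L) := by
        rw [mul_pow, ← pow_mul]
        congr 1
        have : ℓ = Real.exp L := (Real.exp_log hℓ0).symm
        conv_lhs => rw [this]
        rw [← Real.exp_nat_mul]
        push_cast
        ring_nf
  have a4 : (1 / 2 : ℝ) ^ kk K ℓ ≤ Real.exp (-(4 * t * L) - L / 2) := by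
    have b1 : (1 / 2 : ℝ) = Real.exp (-Real.log 2) := by
      rw [Real.exp_neg, Real.exp_log (by norm_num)]; norm_num
    rw [b1, ← Real.exp_nat_mul]
    apply Real.exp_le_exp.mpr
    have b2 := kk_lower K ℓ
    have b3 : ((16 * t + 1 : ℕ) : ℝ) ≤ K := by exact_mod_cast hK
    push_cast at b3
    have b4 : (16 * t + 1 : ℝ) * L ≤ kk K ℓ :=
      (mul_le_mul_of_nonneg_right b3 (by linarith)).trans b2
    have b5 := Real.log_two_gt_d9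
    have b6 : 0 ≤ (t : ℝ) * L := by positivity
    have b7 : (kk K ℓ : ℝ) * (1 / 2) ≤ kk K ℓ * Real.log 2 :=
      mul_le_mul_of_nonneg_left (by linarith) (by positivity)
    linarith
  have a5 : 1 / (zz K η ℓ : ℝ) ≤ Real.exp (-(L ^ 4)) := by
    rw [Real.exp_neg, ← one_div]
    exact one_div_le_one_div_of_le (Real.exp_pos _) hz
  calc v * (G * S) ^ n * ((1 / 2) ^ kk K ℓ + 9 * (t : ℝ) ^ 2 / zz K η ℓ)
      ≤ 2 * (C₀ ^ t * Real.exp (4 * t * L)) *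
        (Real.exp (-(4 * t * L) - L / 2) + 9 * (t : ℝ) ^ 2 * Real.exp (-(L ^ 4))) := by
        apply mul_le_mul
        · exact mul_le_mul hVr a3 (by positivity) (by norm_num)
        · apply add_le_add a4
          rw [← mul_one_div]
          exact mul_le_mul_of_nonneg_left a5 (by positivity)
        · positivity
        · positivity
    _ = 2 * C₀ ^ t * (Real.exp (4 * t * L) * Real.exp (-(4 * t * L) - L / 2) + 9 * (t : ℝ) ^ 2 *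
          (Real.exp (4 * t * L) * Real.exp (-(L ^ 4)))) := by ring
    _ = _ := by
        rw [← Real.exp_add, ← Real.exp_add]
        congr 4
        · ring

lemma corr1_E2 (t K n : ℕ) (η ℓ : ℝ) (_hη0 : 0 < η) (hη : η * (8 * t + 8) ≤ 1) (hℳ : n ≤ t) (hℓ : 1 ≤ ℓ)
    (C₁ C₃ G q Y : ℝ) (hC₁ : 0 < C₁) (hG0 : 0 < G) (hGle : G ≤ C₁ * ℓ) (hq0 : 0 < q)
    (hVPle : 1 / q ≤ C₃ * ℓ) (hR1 : 1 ≤ RR η ℓ) (_hlogz0 : 0 ≤ Real.log (zz K η ℓ))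
    (hlogz : Real.log (zz K η ℓ) ≤ ℓ) (hY : Real.exp (ℓ / 2) ≤ Y) :
    (G / q) ^ n * ((RR η ℓ : ℝ) ^ (2 * n) *
        (3 * Real.log (zz K η ℓ) * (zz K η ℓ : ℝ) ^ (2 * (4 * kk K ℓ + 5)))) / Y ≤
      3 * (max 1 (C₁ * C₃)) ^ t * (ℓ ^ (2 * t + 1) * Real.exp (-(ℓ / 4))) := by
  have hℓ0 : 0 < ℓ := by linarith
  have ht0 : (0:ℝ) ≤ t := by positivity
  have hYpos : (0:ℝ) < Y := lt_of_lt_of_le (Real.exp_pos _) hY
  set C₅ : ℝ := max 1 (C₁ * C₃) with hC₅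
  have hC51 : 1 ≤ C₅ := le_max_left _ _
  have hℓ2 : 1 ≤ ℓ ^ 2 := one_le_pow₀ hℓ
  have a1 : G / q ≤ C₅ * ℓ ^ 2 := by
    calc G / q = G * (1 / q) := by ring
      _ ≤ (C₁ * ℓ) * (C₃ * ℓ) := mul_le_mul hGle hVPle (by positivity) (by positivity)
      _ = (C₁ * C₃) * ℓ ^ 2 := by ring
      _ ≤ C₅ * ℓ ^ 2 := mul_le_mul_of_nonneg_right (le_max_right _ _) (by positivity)
  have a2 : 1 ≤ C₅ * ℓ ^ 2 := one_le_mul_of_one_le_of_one_le hC51 hℓ2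
  have a3 : (G / q) ^ n ≤ C₅ ^ t * ℓ ^ (2 * t) := by
    calc (G / q) ^ n ≤ (C₅ * ℓ ^ 2) ^ n := pow_le_pow_left₀ (by positivity) a1 n
      _ ≤ (C₅ * ℓ ^ 2) ^ t := pow_le_pow_right₀ a2 hℳ
      _ = C₅ ^ t * ℓ ^ (2 * t) := by rw [mul_pow, ← pow_mul]
  have a4 : (RR η ℓ : ℝ) ^ (2 * n) ≤ Real.exp (2 * t * (η * ℓ)) := by
    calc (RR η ℓ : ℝ) ^ (2 * n) ≤ (RR η ℓ : ℝ) ^ (2 * t) :=
          pow_le_pow_right₀ (by exact_mod_cast hR1) (by omega)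
      _ ≤ (Real.exp (η * ℓ)) ^ (2 * t) := pow_le_pow_left₀ (by positivity) (RR_upper η ℓ) _
      _ = _ := by rw [← Real.exp_nat_mul]; push_cast; ring_nf
  have a5 := zz_pow K η ℓ
  have a6 : 1 / Y ≤ Real.exp (-(ℓ / 2)) := by
    rw [Real.exp_neg, ← one_div]
    exact one_div_le_one_div_of_le (Real.exp_pos _) hY
  have a7 : 2 * t * (η * ℓ) + 2 * (η * ℓ) + -(ℓ / 2) ≤ -(ℓ / 4) := by
    have h1 := mul_le_mul_of_nonneg_right hη hℓ0.le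
    nlinarith [h1, mul_nonneg ht0 (mul_nonneg _hη0.le hℓ0.le), mul_nonneg _hη0.le hℓ0.le]
  calc (G / q) ^ n * ((RR η ℓ : ℝ) ^ (2 * n) *
        (3 * Real.log (zz K η ℓ) * (zz K η ℓ : ℝ) ^ (2 * (4 * kk K ℓ + 5)))) / Y
      = (G / q) ^ n * ((RR η ℓ : ℝ) ^ (2 * n) *
        (3 * Real.log (zz K η ℓ) * (zz K η ℓ : ℝ) ^ (2 * (4 * kk K ℓ + 5)))) * (1 / Y) := by ring
    _ ≤ (C₅ ^ t * ℓ ^ (2 * t)) * (Real.exp (2 * t * (η * ℓ)) *
        (3 * ℓ * Real.exp (2 * (η * ℓ)))) * Real.exp (-(ℓ / 2)) := by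
        gcongr
    _ = 3 * C₅ ^ t * (ℓ ^ (2 * t + 1) *
        (Real.exp (2 * t * (η * ℓ)) * Real.exp (2 * (η * ℓ)) * Real.exp (-(ℓ / 2)))) := by ring
    _ = 3 * C₅ ^ t * (ℓ ^ (2 * t + 1) *
        Real.exp (2 * t * (η * ℓ) + 2 * (η * ℓ) + -(ℓ / 2))) := by
        rw [← Real.exp_add, ← Real.exp_add]
    _ ≤ _ := by
        gcongr

theorem corr1 (t A : ℕ) (η : ℝ) (hη0 : 0 < η) (hη : η * (8 * t + 8) ≤ 1) (K : ℕ)
    (hK : 16 * t + 1 ≤ K) (ε : ℝ) (hε : 0 < ε) : ∀ᶠ ℓ : ℝ in atTop, ∀ (e Y : ℕ),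
    Real.exp (ℓ / 2) ≤ Y → ∀ (α β : ℕ → ℕ) (ℳ : Finset ℕ), #ℳ ≤ t →
    (∀ m ∈ ℳ, 0 < α m ∧ (α m : ℝ) ≤ ℓ ^ A ∧ (β m : ℝ) ≤ ℓ ^ A ∧ ∀ p, p.Prime → p ∣ α m → p ≤ w1 ℓ) →
    (∀ m ∈ ℳ, ∀ m' ∈ ℳ, m ≠ m' → α m * β m' ≠ α m' * β m) →
    |(∑ y ∈ Icc 1 Y, ∏ m ∈ ℳ, nu1 K η ℓ e (α m * y + β m)) / (Y : ℝ) - 1| ≤ ε := by
  classical
  obtain ⟨C₁, hC₁, hG⟩ := GG_upper
  obtain ⟨C₂, hC₂, hS⟩ := sum_lcm
  obtain ⟨C₃, hC₃, hV⟩ := VP_lower1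
  set δ : ℝ := min (ε / 2) 1 with hδ
  have hδ0 : 0 < δ := by positivity
  set C₀ : ℝ := max 1 (C₁ * C₂) with hC₀
  set C₅ : ℝ := max 1 (C₁ * C₃) with hC₅
  have herr := (corr_err t (2 * C₀ ^ t) (3 * C₅ ^ t)).eventually (ge_mem_nhds (show (0:ℝ) < ε / 2 by positivity))
  have hη1 : η ≤ 1 := by nlinarith [(by positivity : (0:ℝ) ≤ t)]
  have hw1 : ∀ᶠ ℓ : ℝ in atTop, Real.exp 100 + 2 * t + 2 ≤ Real.log ℓ :=
    Real.tendsto_log_atTop.eventually_ge_atTop _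
  have hA1 : ∀ᶠ ℓ : ℝ in atTop, 2 * (A : ℝ) ≤ Real.log ℓ :=
    Real.tendsto_log_atTop.eventually_ge_atTop _
  filter_upwards [herr, prod_compare1 t A δ hδ0, zz_lower K η hη0, hw1, corr_logpow 5 (2 / η),
    eventually_ge_atTop 1, hA1] with ℓ hE hPC hz hL hR hℓ hAL
  intro e Y hY α β ℳ hℳ hm hne
  set L := Real.log ℓ with hLdef
  have h100 : (101:ℝ) ≤ Real.exp 100 := by
    have := Real.add_one_le_exp (100:ℝ)
    linarith
  have ht0 : (0:ℝ) ≤ t := by positivity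
  have hL2 : 2 ≤ L := by linarith
  have hL1 : 1 ≤ L := by linarith
  have hL45 : L ^ 4 ≤ L ^ 5 := pow_le_pow_right₀ hL1 (by norm_num)
  have hLL5 : L ≤ L ^ 5 := le_self_pow₀ hL1 (by norm_num)
  have hℓ0 : 0 < ℓ := by linarith
  -- sizes
  have hww : L - 1 < (w1 ℓ : ℝ) := Nat.sub_one_lt_floor _
  have hww' : (w1 ℓ : ℝ) ≤ L := Nat.floor_le (by linarith)
  have hlogw : 100 ≤ Real.log (w1 ℓ) := by
    rw [Real.le_log_iff_exp_le (by linarith)]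
    linarith
  have hwt : 2 * t ≤ w1 ℓ := by
    have : (2 * t : ℝ) ≤ w1 ℓ := by linarith
    exact_mod_cast this
  have hL5e : L ^ 5 ≤ Real.exp (L ^ 4) := by
    have h1 := Real.quadratic_le_exp_of_nonneg (x := L ^ 4) (by positivity)
    have h2 : 2 ≤ L ^ 3 := by
      have := pow_le_pow_left₀ (by norm_num : (0:ℝ) ≤ 2) hL2 3
      linarith
    have h3 : L ^ 5 * 2 ≤ L ^ 5 * L ^ 3 := mul_le_mul_of_nonneg_left h2 (by positivity)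
    have h4 : L ^ 5 * L ^ 3 = (L ^ 4) ^ 2 := by ring
    have h5 : 0 ≤ L ^ 4 := by positivity
    linarith
  have hwz : w1 ℓ ≤ zz K η ℓ := by
    have : (w1 ℓ : ℝ) ≤ zz K η ℓ := by linarith
    exact_mod_cast this
  have hz3 : (3:ℝ) ≤ zz K η ℓ := by
    have h1 : (3:ℝ) ≤ w1 ℓ := by linarith
    have h2 : (w1 ℓ : ℝ) ≤ zz K η ℓ := by exact_mod_cast hwz
    linarith
  have hz2 : 2 ≤ zz K η ℓ := by
    have : (2:ℝ) ≤ zz K η ℓ := by linarith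
    exact_mod_cast this
  have hkt : 16 * t ≤ kk K ℓ := by
    have h1 := kk_lower K ℓ
    have h2 : ((16 * t + 1 : ℕ) : ℝ) ≤ K := by exact_mod_cast hK
    push_cast at h2
    have h3 : (16 * t : ℝ) ≤ kk K ℓ := by nlinarith
    exact_mod_cast h3
  have hRR : 2 ≤ RR η ℓ := by
    unfold RR
    apply Nat.le_floor
    have h1 : 2 * L ^ 5 ≤ η * ℓ := by
      have h2 := mul_le_mul_of_nonneg_left hR hη0.le
      have h3 : η * (2 / η * L ^ 5) = 2 * L ^ 5 := by field_simp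
      linarith
    have h4 := Real.add_one_le_exp (η * ℓ)
    push_cast
    linarith
  have hR1 : 1 ≤ RR η ℓ := by omega
  have hlogR := log_RR η ℓ hη1 hℓ0.le hR1
  have hlogz := log_zz K η ℓ hη1 hℓ0.le (by omega)
  have hlogR0 : 0 ≤ Real.log (RR η ℓ) := Real.log_nonneg (by exact_mod_cast hR1)
  have hlogz0 : 0 ≤ Real.log (zz K η ℓ) := Real.log_nonneg (by linarith)
  have hYpos : (0:ℝ) < Y := lt_of_lt_of_le (Real.exp_pos _) hY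
  -- abbreviations
  set G := GG (zz K η ℓ) (RR η ℓ) with hGdef
  set S := ∑ d ∈ Dr (zz K η ℓ) (RR η ℓ), ∑ d' ∈ Dr (zz K η ℓ) (RR η ℓ), 1 / (Nat.lcm d d' : ℝ) with hSdef
  set P := P1 K η ℓ e with hPdef
  set V := ∏ p ∈ P, (1 - (#(ℳ.image (fun m => rt (α m) (β m) p)) : ℝ) / p) with hVdef
  have hG0 : 0 < G := GG_pos _ _ hR1
  have hGle : G ≤ C₁ * ℓ := (hG _ _ hRR).trans (mul_le_mul_of_nonneg_left hlogR hC₁.le)
  have hS0 : 0 ≤ S := by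
    refine Finset.sum_nonneg (fun d _ => Finset.sum_nonneg (fun d' _ => by positivity))
  have hSle : S ≤ C₂ * ℓ ^ 3 := (hS _ _ hRR).trans
    (mul_le_mul_of_nonneg_left (pow_le_pow_left₀ hlogR0 hlogR 3) hC₂.le)
  obtain ⟨hVP0, hVP⟩ := hV K η ℓ e hz2
  rw [← hPdef] at hVP0 hVP
  have hVPle : 1 / VP P ≤ C₃ * ℓ := hVP.trans (mul_le_mul_of_nonneg_left hlogz (by linarith))
  have hPprime : ∀ p ∈ P, p.Prime ∧ w1 ℓ < p ∧ p ≤ zz K η ℓ := by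
    intro p hp
    rw [hPdef] at hp
    unfold P1 at hp
    rw [Finset.mem_erase, mem_primesIoc] at hp
    exact ⟨hp.2.2.2, hp.2.1, hp.2.2.1⟩
  have hne' : ∀ m ∈ ℳ, ∀ m' ∈ ℳ, m ≠ m' → α m * β m' ≠ α m' * β m ∧ α m * β m' ≤ zz K η ℓ := by
    intro m hmm m' hmm' hmn
    refine ⟨hne m hmm m' hmm' hmn, ?_⟩
    have h1 := (hm m hmm).2.1
    have h2 := (hm m' hmm').2.2.1
    have h3 : (α m : ℝ) * β m' ≤ ℓ ^ A * ℓ ^ A := mul_le_mul h1 h2 (by positivity) (by positivity)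
    have h4 : ℓ ^ A * ℓ ^ A = Real.exp (2 * A * L) := by
      have h5 : ℓ = Real.exp L := (Real.exp_log hℓ0).symm
      rw [← pow_add]
      conv_lhs => rw [h5]
      rw [← Real.exp_nat_mul]
      push_cast
      ring_nf
    have h6 : 2 * (A : ℝ) * L ≤ L ^ 4 := by
      have h7 : 2 * (A : ℝ) * L ≤ L * L := mul_le_mul_of_nonneg_right hAL (by linarith)
      have h8 : L ^ 2 ≤ L ^ 4 := pow_le_pow_right₀ hL1 (by norm_num)
      nlinarith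
    have h9 := Real.exp_le_exp.mpr h6
    have h10 : ((α m * β m' : ℕ) : ℝ) ≤ zz K η ℓ := by
      push_cast
      linarith
    exact_mod_cast h10
  have hm' : ∀ m ∈ ℳ, 0 < α m ∧ ∀ p, p.Prime → p ∣ α m → p ≤ w1 ℓ :=
    fun m hmm => ⟨(hm m hmm).1, (hm m hmm).2.2.2⟩
  have hexp := corr_expand1 t (kk K ℓ) (w1 ℓ) (zz K η ℓ) (RR η ℓ) Y hkt hlogw hwt hwz P
    hPprime α β ℳ hℳ hm' hne' (lamS (zz K η ℓ) (RR η ℓ)) (lamS_abs _ _)
  rw [lamS_quad _ _ hR1, ← hGdef, ← hSdef, ← hVdef] at hexp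
  have hcmp := hPC α β ℳ hℳ hm hne P (fun p hp => ⟨(hPprime p hp).1, (hPprime p hp).2.1⟩)
  rw [← hVdef] at hcmp
  set T := ∑ y ∈ Icc 1 Y, ∏ m ∈ ℳ, (open Classical in
        (if ∀ p ∈ P, ¬ p ∣ (α m * y + β m) then (1 : ℝ) else 0) *
        (∑ d ∈ (Dr (zz K η ℓ) (RR η ℓ)).filter (fun d => d ∣ (α m * y + β m)),
          lamS (zz K η ℓ) (RR η ℓ) d) ^ 2) with hTdef
  have hsum : ∑ y ∈ Icc 1 Y, ∏ m ∈ ℳ, nu1 K η ℓ e ((α m * y + β m)) = (G / VP P) ^ #ℳ * T := by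
    rw [hTdef, Finset.mul_sum]
    refine Finset.sum_congr rfl (fun y _ => ?_)
    rw [← Finset.prod_const, ← Finset.prod_mul_distrib]
    refine Finset.prod_congr rfl (fun m _ => ?_)
    unfold nu1
    rw [← mul_assoc]
  rw [hsum]
  set n := #ℳ with hn
  -- the comparison
  have hδ1 : δ ≤ 1 := min_le_right _ _
  have hδ2 : δ ≤ ε / 2 := min_le_left _ _
  have hVr : V / VP P ^ n ≤ 2 := by
    have := (abs_le.mp hcmp).2
    linarith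
  have hVr0 : 0 ≤ V / VP P ^ n := by
    have := (abs_le.mp hcmp).1
    linarith
  have hmain : |(G / VP P) ^ n * T / Y - V / VP P ^ n| ≤
      V / VP P ^ n * (G * S) ^ n * ((1 / 2) ^ kk K ℓ + 9 * (t : ℝ) ^ 2 / zz K η ℓ) +
      (G / VP P) ^ n * ((RR η ℓ : ℝ) ^ (2 * n) *
        (3 * Real.log (zz K η ℓ) * (zz K η ℓ : ℝ) ^ (2 * (4 * kk K ℓ + 5)))) / Y := by
    have e1 : (G / VP P) ^ n * T / Y - V / VP P ^ n =
        (G / VP P) ^ n / Y * (T - Y * V * (1 / G) ^ n) := by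
      have hG' := hG0.ne'
      have hVP' := hVP0.ne'
      have hY' := hYpos.ne'
      rw [div_pow, div_pow, one_pow]
      field_simp
    rw [e1, abs_mul, abs_of_nonneg (by positivity : 0 ≤ (G / VP P) ^ n / Y)]
    refine (mul_le_mul_of_nonneg_left hexp (by positivity)).trans (le_of_eq ?_)
    have hVP' := hVP0.ne'
    have hY' := hYpos.ne'
    rw [div_pow, mul_pow]
    field_simp
  have hE1 := corr1_E1 t K n η ℓ hK hℳ hℓ hL1 C₁ C₂ G S (V / VP P ^ n) hC₁ hG0 hGle hS0 hSle hVr0 hVr hz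
  have hE2 := corr1_E2 t K n η ℓ hη0 hη hℳ hℓ C₁ C₃ G (VP P) Y hC₁ hG0 hGle hVP0 hVPle hR1 hlogz0 hlogz hY
  calc |(G / VP P) ^ n * T / Y - 1|
      = |((G / VP P) ^ n * T / Y - V / VP P ^ n) + (V / VP P ^ n - 1)| := by ring_nf
    _ ≤ |(G / VP P) ^ n * T / Y - V / VP P ^ n| + |V / VP P ^ n - 1| := abs_add_le _ _
    _ ≤ ε := by linarith

end Pool.Agent.H2.NC
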