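import Pool.Agent.H2.NC.Defs
import Pool.Agent.H16.GPS.Num.Mean

/-!
JOB NC-W (MP_c183ae_nt). Facts about `W1 ℓ e`.

As `WW_pos`, `prime_dvd_WW`, `WW_le_four_pow` in `Pool/Agent/H16/GPS/Num/Mean.lean`; `4 ^ (log ℓ) = ℓ ^ (log 4) ≤ ℓ^2`.
-/

set_option autoImplicit false

open Finset Filter

namespace Pool.Agent.H2.NC

open Pool.Agent.H16 Pool.Agent.H16.GPS

theorem W1_pos (ℓ : ℝ) (e : ℕ) : 0 < W1 ℓ e := by
  unfold W1
  apply Finset.prod_pos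
  intro p hp
  exact (mem_primesIoc.mp (Finset.mem_of_mem_erase hp)).2.2.pos

theorem prime_dvd_W1 {ℓ : ℝ} {e p : ℕ} (hp : p.Prime) : p ∣ W1 ℓ e ↔ p ≤ w1 ℓ ∧ p ≠ e := by
  unfold W1
  constructor
  · intro h
    obtain ⟨q, hq, hpq⟩ := (Prime.dvd_finsetProd_iff hp.prime _).mp h
    have hq2 := mem_primesIoc.mp (Finset.mem_of_mem_erase hq)
    have : p = q := (Nat.prime_dvd_prime_iff_eq hp hq2.2.2).mp hpq
    subst this
    exact ⟨hq2.2.1, Finset.ne_of_mem_erase hq⟩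
  · intro h
    exact Finset.dvd_prod_of_mem _
      (Finset.mem_erase.mpr ⟨h.2, mem_primesIoc.mpr ⟨hp.one_lt, h.1, hp⟩⟩)

theorem W1_squarefree (ℓ : ℝ) (e : ℕ) : Squarefree (W1 ℓ e) := by
  unfold W1
  apply Finset.squarefree_prod_of_pairwise_isCoprime
  · intro p hp q hq hpq
    have hp2 := (mem_primesIoc.mp (Finset.mem_of_mem_erase (Finset.mem_coe.1 hp))).2.2
    have hq2 := (mem_primesIoc.mp (Finset.mem_of_mem_erase (Finset.mem_coe.1 hq))).2.2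
    have h1 : Nat.Coprime p q := (Nat.coprime_primes hp2 hq2).2 hpq
    exact Nat.coprime_iff_isRelPrime.1 h1
  · intro p hp
    exact (mem_primesIoc.mp (Finset.mem_of_mem_erase hp)).2.2.prime.squarefree

theorem wf_le_four_pow (ℓ : ℝ) (e : ℕ) : W1 ℓ e ≤ 4 ^ (w1 ℓ) := by
  refine le_trans ?_ (primorial_le_four_pow (w1 ℓ))
  unfold W1 primorial
  apply Finset.prod_le_prod_of_subset_of_one_le'
  · intro p hp
    have hp2 := mem_primesIoc.mp (Finset.mem_of_mem_erase hp)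
    rw [Finset.mem_filter, Finset.mem_range]
    exact ⟨by omega, hp2.2.2⟩
  · intro p hp _
    exact (Finset.mem_filter.mp hp).2.one_le

theorem W1_le : ∀ᶠ ℓ : ℝ in atTop, ∀ e : ℕ, (W1 ℓ e : ℝ) ≤ ℓ ^ 2 := by
  filter_upwards [eventually_ge_atTop (1 : ℝ)] with ℓ hℓ e
  have h0 : 0 < ℓ := by linarith
  have hl : 0 ≤ Real.log ℓ := Real.log_nonneg hℓ
  have h1 : (W1 ℓ e : ℝ) ≤ (4 : ℝ) ^ (w1 ℓ) := by exact_mod_cast wf_le_four_pow ℓ e
  have h2 : Real.log 4 ≤ 2 := by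
    have : (4 : ℝ) = 2 ^ 2 := by norm_num
    rw [this, Real.log_pow]
    have := Real.log_two_lt_d9
    push_cast
    linarith
  have h3 : (w1 ℓ : ℝ) ≤ Real.log ℓ := Nat.floor_le hl
  have h4 : (0 : ℝ) ≤ w1 ℓ := Nat.cast_nonneg _
  have h5 : (0 : ℝ) < (4 : ℝ) ^ (w1 ℓ) := by positivity
  refine h1.trans ?_
  rw [← Real.log_le_log_iff h5 (by positivity), Real.log_pow, Real.log_pow]
  push_cast
  have h6 : (0 : ℝ) ≤ Real.log 4 := Real.log_nonneg (by norm_num)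
  nlinarith

/-- a fixed number whose prime factors are different from `e` divides a power of `W1 ℓ e` -/
theorem primes_le_w1 (P : ℕ) (hP : 0 < P) : ∀ᶠ ℓ : ℝ in atTop, ∀ e : ℕ, ¬ e ∣ P → e.Prime →
    ∀ p, p.Prime → p ∣ P → p ≤ w1 ℓ ∧ p ≠ e := by
  filter_upwards [Real.tendsto_log_atTop.eventually_ge_atTop (P : ℝ)] with ℓ hℓ e he _ p _ hpP
  refine ⟨?_, fun h => he (h ▸ hpP)⟩
  unfold w1
  apply Nat.le_floor
  have h1 : p ≤ P := Nat.le_of_dvd hP hpP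
  have h2 : (p : ℝ) ≤ P := by exact_mod_cast h1
  linarith

end Pool.Agent.H2.NC
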