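import Pool.Agent.H2.NC.Corr
import Pool.Agent.H2.NC.NuB
import Pool.Agent.H2.NC.WFacts

/-!
JOB NC-CORRZ (MP_c183ae_nt). Correlations of the majorant on `ZMod Y`.

PROOF. Let `W = W1 ℓ e`, `S ⊆ Θ × Γ`, `#S ≤ t`, every `s.2` the class of an integer `z s`, `|z s| ≤ T`. For `T ≤ p.val < Y - T` one has
`(p + s.2).val = p.val + z s`. Write `p.val = y + T`: `a W (p.val + z) + β = (a W) y + (a W (T + z) + β)`, `y ≥ 0`; use `corr1` for
`y ∈ Icc 1 Y'`, `Y' = Y - 2 T - 1`, with `α s = a s.1 * W`, `β s = a s.1 * W * (T + z s) + β s.1`. The `≤ 2 T + 1` other `p` contribute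
at most `(2T+1) ℓ^(B t)` (`nu1_bound`). Non-proportional: `a s * B' = a s' * B` with `B'` coprime to `a s'` and `B` coprime to `a s`
gives `a s = a s'`.
-/

set_option autoImplicit false

open Finset Filter

namespace Pool.Agent.H2.NC

open Pool.Agent.H16 Pool.Agent.H16.GPS

/-- non-proportionality of the forms -/
private lemma corrZ_noprop {a a' W u u' b b' : ℕ} (hW : 0 < W)
    (hb : Nat.Coprime b (a * W)) (hb' : Nat.Coprime b' (a' * W))
    (h : (a * W) * (a' * W * u' + b') = (a' * W) * (a * W * u + b)) : a = a' := by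
  have h1 : a * (a' * W * u' + b') = a' * (a * W * u + b) := by
    apply Nat.eq_of_mul_eq_mul_left hW
    calc W * (a * (a' * W * u' + b')) = (a * W) * (a' * W * u' + b') := by ring
      _ = (a' * W) * (a * W * u + b) := h
      _ = W * (a' * (a * W * u + b)) := by ring
  have c1 : Nat.Coprime a' (a' * W * u' + b') := by
    have h2 : Nat.Coprime b' a' := Nat.Coprime.coprime_mul_right_right hb'
    have h3 : a' * W * u' + b' = b' + a' * (W * u') := by ring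
    rw [h3]
    exact (Nat.coprime_add_mul_left_right _ _ _).mpr h2.symm
  have c2 : Nat.Coprime a (a * W * u + b) := by
    have h2 : Nat.Coprime b a := Nat.Coprime.coprime_mul_right_right hb
    have h3 : a * W * u + b = b + a * (W * u) := by ring
    rw [h3]
    exact (Nat.coprime_add_mul_left_right _ _ _).mpr h2.symm
  have d1 : a' ∣ a := c1.dvd_of_dvd_mul_right (h1 ▸ Dvd.intro _ rfl)
  have d2 : a ∣ a' := c2.dvd_of_dvd_mul_right (h1.symm ▸ Dvd.intro _ rfl)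
  exact Nat.dvd_antisymm d2 d1

/-- values in `ZMod Y` -/
private lemma corrZ_val {Y T y : ℕ} [NeZero Y] (hy : y ∈ Icc 1 (Y - (2 * T + 1))) (z : ℤ)
    (hz : |z| ≤ T) : (((y + T : ℕ) : ZMod Y) + (z : ZMod Y)).val = y + (T + z).toNat := by
  obtain ⟨h1, h2⟩ := Finset.mem_Icc.mp hy
  have hz' := abs_le.mp hz
  have h3 : ((y + T : ℕ) : ZMod Y) + (z : ZMod Y) = ((y + (T + z).toNat : ℕ) : ZMod Y) := by
    have h4 : (((T + z).toNat : ℕ) : ZMod Y) = ((T + z : ℤ) : ZMod Y) := by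
      have h5 : (((T + z).toNat : ℕ) : ℤ) = T + z := Int.toNat_of_nonneg (by omega)
      rw [← h5]
      simp
    push_cast
    rw [h4]
    push_cast
    ring
  rw [h3, ZMod.val_natCast_of_lt]
  omega

/-- comparison of the two averages -/
private lemma corrZ_split {Y T : ℕ} [NeZero Y] (hY : 2 * T + 1 < Y) (F : ZMod Y → ℝ) (D : ℝ)
    (h0 : ∀ p, 0 ≤ F p) (hD : ∀ p, F p ≤ D) :
    |(∑ p, F p) / (Y : ℝ) - 1| ≤
      |(∑ y ∈ Icc 1 (Y - (2 * T + 1)), F ((y + T : ℕ) : ZMod Y)) / ((Y - (2 * T + 1) : ℕ) : ℝ) - 1|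
        + (2 * T + 1) / Y + (2 * T + 1) * D / Y := by
  classical
  set Y' : ℕ := Y - (2 * T + 1) with hY'
  set f : ℕ → ZMod Y := fun y => ((y + T : ℕ) : ZMod Y) with hf
  have hinj : Set.InjOn f (Icc 1 Y' : Finset ℕ) := by
    intro y hy y' hy' h
    have e1 := Finset.mem_Icc.mp (Finset.mem_coe.mp hy)
    have e2 := Finset.mem_Icc.mp (Finset.mem_coe.mp hy')
    have h2 : (f y).val = (f y').val := by rw [h]
    simp only [hf] at h2
    rw [ZMod.val_natCast_of_lt (by omega), ZMod.val_natCast_of_lt (by omega)] at h2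
    omega
  set I : Finset (ZMod Y) := (Icc 1 Y').image f with hI
  have hcardI : #I = Y' := by
    rw [hI, Finset.card_image_of_injOn hinj]
    simp
  have hsum : ∑ p, F p = ∑ y ∈ Icc 1 Y', F (f y) + ∑ p ∈ univ \ I, F p := by
    rw [← Finset.sum_sdiff (Finset.subset_univ I), add_comm, hI, Finset.sum_image hinj]
  have hcard : #(univ \ I) = 2 * T + 1 := by
    rw [Finset.card_sdiff_of_subset (Finset.subset_univ I), hcardI, Finset.card_univ, ZMod.card]
    omega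
  have hr0 : 0 ≤ ∑ p ∈ univ \ I, F p := Finset.sum_nonneg fun p _ => h0 p
  have hr1 : ∑ p ∈ univ \ I, F p ≤ (2 * T + 1) * D := by
    calc ∑ p ∈ univ \ I, F p ≤ ∑ _p ∈ univ \ I, D := Finset.sum_le_sum fun p _ => hD p
      _ = (2 * T + 1) * D := by
        rw [Finset.sum_const, hcard, nsmul_eq_mul]
        push_cast
        ring
  have hYpos : (0 : ℝ) < Y := by
    have : 0 < Y := by omega
    exact_mod_cast this
  have hY'pos : (0 : ℝ) < Y' := by
    have : 0 < Y' := by omega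
    exact_mod_cast this
  have hYY : (Y' : ℝ) = Y - (2 * T + 1) := by
    have h : Y' + (2 * T + 1) = Y := by omega
    have h2 : ((Y' + (2 * T + 1) : ℕ) : ℝ) = Y := by rw [h]
    push_cast at h2
    linarith
  set S : ℝ := ∑ y ∈ Icc 1 Y', F (f y) with hS
  set R : ℝ := ∑ p ∈ univ \ I, F p with hR
  rw [hsum]
  have key : (S + R) / (Y : ℝ) - 1 = (Y' / Y) * (S / Y' - 1) + (-((2 * T + 1) / Y)) + R / Y := by
    rw [hYY]
    have h1 : (Y : ℝ) - (2 * T + 1) ≠ 0 := by rw [← hYY]; exact hY'pos.ne'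
    field_simp
    ring
  rw [key]
  have b1 : |((Y' : ℝ) / Y) * (S / Y' - 1)| ≤ |S / Y' - 1| := by
    rw [abs_mul, abs_of_nonneg (by positivity)]
    refine mul_le_of_le_one_left (abs_nonneg _) ?_
    rw [div_le_one hYpos, hYY]
    have : (0 : ℝ) ≤ T := by positivity
    linarith
  have b2 : |-((2 * (T : ℝ) + 1) / Y)| ≤ (2 * T + 1) / Y := by
    rw [abs_neg, abs_of_nonneg (by positivity)]
  have b3 : |R / Y| ≤ (2 * T + 1) * D / Y := by
    rw [abs_of_nonneg (by positivity)]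
    exact div_le_div_of_nonneg_right hr1 hYpos.le
  calc _ ≤ |((Y' : ℝ) / Y) * (S / Y' - 1)| + |-((2 * (T : ℝ) + 1) / Y)| + |R / Y| :=
        abs_add_three _ _ _
    _ ≤ _ := by
      have := add_le_add (add_le_add b1 b2) b3
      exact this

theorem corrZ (t A : ℕ) (η : ℝ) (hη0 : 0 < η) (hη : η * (8 * t + 8) ≤ 1) (K : ℕ)
    (hK : 16 * t + 1 ≤ K) (ε : ℝ) (hε : 0 < ε) {Θ : Type} [Fintype Θ] (a : Θ → ℕ)
    (ha : ∀ θ, 0 < a θ) (el : Θ → ℤ) : ∀ᶠ ℓ : ℝ in atTop, ∀ (e Y T : ℕ) [NeZero Y],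
    2 * Real.exp (ℓ / 2) ≤ Y → (Y : ℝ) ≤ Real.exp ℓ → (T : ℝ) ≤ ℓ ^ A →
    (∀ θ p, p.Prime → p ∣ a θ → p ≤ w1 ℓ ∧ p ≠ e) →
    ∀ β : Θ → ℕ, (∀ θ, Nat.Coprime (β θ) (a θ * W1 ℓ e)) → (∀ θ, β θ ≤ 2 * (a θ * W1 ℓ e)) →
    (∀ θ θ', a θ = a θ' → el θ = el θ' ∧ β θ = β θ') →
    CorrH el {g : ZMod Y | ∃ z : ℤ, |z| ≤ T ∧ (z : ZMod Y) = g}
      (fun s : Θ × ZMod Y => nu1 K η ℓ e (a s.1 * W1 ℓ e * s.2.val + β s.1)) t ε := by
  classical
  have hη1 : η ≤ 1 := by nlinarith [(by positivity : (0:ℝ) ≤ t)]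
  obtain ⟨B, hB⟩ := nu1_bound K η hη0 hη1
  set M : ℕ := ∑ θ, a θ with hM
  have haM : ∀ θ, a θ ≤ M := fun θ =>
    Finset.single_le_sum (f := a) (fun _ _ => Nat.zero_le _) (Finset.mem_univ θ)
  set c : ℝ := min (ε / 16) (1 / 16) with hc
  have hc0 : 0 < c := by positivity
  have herr := (isLittleO_pow_exp_pos_mul_atTop (k := A + B * t) (b := 1 / 2)
    (by norm_num)).bound hc0
  have hsq := (isLittleO_pow_exp_pos_mul_atTop (k := 3) (b := 1)
    (by norm_num)).bound (show (0 : ℝ) < 1 / 4 by norm_num)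
  have hlog3 : ∀ᶠ ℓ : ℝ in atTop, (3 : ℝ) ≤ Real.log ℓ :=
    Real.tendsto_log_atTop.eventually_ge_atTop _
  filter_upwards [hB, corr1 t (A + 3) η hη0 hη K hK (ε / 4) (by positivity), W1_le, herr, hsq, hlog3,
    eventually_ge_atTop 1, eventually_ge_atTop (4 * (M : ℝ) + 1)] with ℓ hB' hcorr hW hE hsq' hL hℓ hℓM
  intro e Y T _ hY1 hY2 hT hpr β hco hβ hel S hSt hSs hSne
  set W : ℕ := W1 ℓ e with hWdef
  have hW0 : 0 < W := W1_pos ℓ e
  have hℓ0 : (0 : ℝ) < ℓ := by linarith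
  have hM0 : (0 : ℝ) ≤ M := by positivity
  have hWle : (W : ℝ) ≤ ℓ ^ 2 := hW e
  have hw3 : 3 ≤ w1 ℓ := by
    unfold w1
    apply Nat.le_floor
    exact_mod_cast hL
  have hW2 : 2 ≤ W := by
    by_cases he : e = 2
    · have h3 : 3 ∣ W := (prime_dvd_W1 Nat.prime_three).mpr ⟨hw3, by omega⟩
      have := Nat.le_of_dvd hW0 h3
      omega
    · have h3 : 2 ∣ W := (prime_dvd_W1 Nat.prime_two).mpr ⟨by omega, by omega⟩
      exact Nat.le_of_dvd hW0 h3
  have hβ1 : ∀ θ, 1 ≤ β θ := by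
    intro θ
    rcases Nat.eq_zero_or_pos (β θ) with h | h
    · exfalso
      have h1 := hco θ
      rw [h, Nat.coprime_zero_left] at h1
      have h2 : W ∣ 1 := h1 ▸ Dvd.intro_left _ rfl
      have := Nat.le_of_dvd one_pos h2
      omega
    · exact h
  have haW : ∀ θ, ((a θ * W : ℕ) : ℝ) ≤ ℓ ^ 3 / 4 := by
    intro θ
    have h1 : (a θ : ℝ) ≤ M := by exact_mod_cast haM θ
    push_cast
    calc (a θ : ℝ) * W ≤ M * ℓ ^ 2 := mul_le_mul h1 hWle (by positivity) hM0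
      _ ≤ (ℓ / 4) * ℓ ^ 2 := mul_le_mul_of_nonneg_right (by linarith) (by positivity)
      _ = ℓ ^ 3 / 4 := by ring
  -- the error terms
  have hexp : Real.exp (1 / 2 * ℓ) = Real.exp (ℓ / 2) := by congr 1; ring
  have hE' : ℓ ^ (A + B * t) ≤ c * Real.exp (ℓ / 2) := by
    have h := hE
    rw [Real.norm_of_nonneg (by positivity), Real.norm_of_nonneg (by positivity), hexp] at h
    exact h
  have hsq2 : ℓ ^ 3 ≤ 1 / 4 * Real.exp ℓ := by
    have h := hsq'
    rw [Real.norm_of_nonneg (by positivity), Real.norm_of_nonneg (by positivity), one_mul] at h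
    exact h
  have hEA : ℓ ^ A ≤ ℓ ^ (A + B * t) := pow_le_pow_right₀ hℓ (by omega)
  have hA1 : (1 : ℝ) ≤ ℓ ^ A := one_le_pow₀ hℓ
  have hT3 : (2 * T + 1 : ℝ) ≤ 3 * ℓ ^ A := by linarith
  have hYpos : (0 : ℝ) < Y := lt_of_lt_of_le (by positivity) hY1
  have hcε : c ≤ ε / 16 := min_le_left _ _
  have hc16 : c ≤ 1 / 16 := min_le_right _ _
  have hx0 : 0 < Real.exp (ℓ / 2) := Real.exp_pos _
  have hTY : (2 * T + 1 : ℝ) ≤ Y / 2 := by
    calc (2 * T + 1 : ℝ) ≤ 3 * ℓ ^ A := hT3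
      _ ≤ 3 * (c * Real.exp (ℓ / 2)) := by linarith [hEA.trans hE']
      _ ≤ 3 * (1 / 16 * Real.exp (ℓ / 2)) := by nlinarith
      _ ≤ Y / 2 := by nlinarith
  have hTY' : 2 * T + 1 < Y := by
    have h : ((2 * T + 1 : ℕ) : ℝ) < Y := by
      push_cast
      linarith
    exact_mod_cast h
  set Y' : ℕ := Y - (2 * T + 1) with hY'
  have hYY : (Y' : ℝ) = Y - (2 * T + 1) := by
    have h : Y' + (2 * T + 1) = Y := by omega
    have h2 : ((Y' + (2 * T + 1) : ℕ) : ℝ) = Y := by rw [h]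
    push_cast at h2
    linarith
  have hY'ge : Real.exp (ℓ / 2) ≤ Y' := by rw [hYY]; linarith
  -- representatives
  have hz : ∀ s : Θ × ZMod Y, ∃ z : ℤ, s ∈ S → |z| ≤ T ∧ (z : ZMod Y) = s.2 := by
    intro s
    by_cases hs : s ∈ S
    · obtain ⟨z, h1, h2⟩ := hSs s hs
      exact ⟨z, fun _ => ⟨h1, h2⟩⟩
    · exact ⟨0, fun h => absurd h hs⟩
  choose z hz using hz
  obtain ⟨g, hg⟩ := Countable.exists_injective_nat (Θ × ZMod Y)
  set al : Θ × ZMod Y → ℕ := fun s => a s.1 * W with hal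
  set be : Θ × ZMod Y → ℕ := fun s => a s.1 * W * (T + z s).toNat + β s.1 with hbe
  have hmain := hcorr e Y' hY'ge (Function.extend g al 1) (Function.extend g be 1)
    (S.map ⟨g, hg⟩) (by rw [Finset.card_map]; exact hSt)
    (by
      intro m hm
      obtain ⟨s, hs, rfl⟩ := Finset.mem_map.mp hm
      simp only [Function.Embedding.coeFn_mk, hg.extend_apply]
      have hz1 := abs_le.mp (hz s hs).1
      refine ⟨Nat.mul_pos (ha _) hW0, ?_, ?_, ?_⟩
      · calc ((al s : ℕ) : ℝ) ≤ ℓ ^ 3 / 4 := haW s.1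
          _ ≤ ℓ ^ 3 := by
            have : (0 : ℝ) ≤ ℓ ^ 3 := by positivity
            linarith
          _ ≤ ℓ ^ (A + 3) := pow_le_pow_right₀ hℓ (by omega)
      · have h1 : be s ≤ (a s.1 * W) * (2 * T + 2) := by
          simp only [hbe]
          have h2 : (T + z s).toNat ≤ 2 * T := by omega
          calc a s.1 * W * (T + z s).toNat + β s.1 ≤ a s.1 * W * (2 * T) + 2 * (a s.1 * W) :=
                Nat.add_le_add (Nat.mul_le_mul_left _ h2) (hβ s.1)
            _ = (a s.1 * W) * (2 * T + 2) := by ring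
        have h3 : ((be s : ℕ) : ℝ) ≤ ((a s.1 * W : ℕ) : ℝ) * (2 * T + 2) := by
          calc ((be s : ℕ) : ℝ) ≤ (((a s.1 * W) * (2 * T + 2) : ℕ) : ℝ) := by exact_mod_cast h1
            _ = ((a s.1 * W : ℕ) : ℝ) * (2 * T + 2) := by push_cast; ring
        calc ((be s : ℕ) : ℝ) ≤ ((a s.1 * W : ℕ) : ℝ) * (2 * T + 2) := h3
          _ ≤ (ℓ ^ 3 / 4) * (4 * ℓ ^ A) :=
            mul_le_mul (haW s.1) (by linarith) (by positivity) (by positivity)
          _ = ℓ ^ (A + 3) := by ring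
      · intro p hp hpd
        rcases (Nat.Prime.dvd_mul hp).mp hpd with h | h
        · exact (hpr _ p hp h).1
        · exact ((prime_dvd_W1 hp).mp h).1)
    (by
      intro m hm m' hm' hne
      obtain ⟨s, hs, rfl⟩ := Finset.mem_map.mp hm
      obtain ⟨s', hs', rfl⟩ := Finset.mem_map.mp hm'
      simp only [Function.Embedding.coeFn_mk, hg.extend_apply]
      intro h
      have h1 : a s.1 = a s'.1 := corrZ_noprop hW0 (hco s.1) (hco s'.1) h
      obtain ⟨h2, h3⟩ := hel s.1 s'.1 h1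
      have h4 : (T + z s').toNat = (T + z s).toNat := by
        simp only [hal, hbe] at h
        rw [← h1, ← h3] at h
        have h5 : 0 < a s.1 * W := Nat.mul_pos (ha _) hW0
        have h6 := Nat.eq_of_mul_eq_mul_left h5 h
        have h7 := Nat.add_right_cancel h6
        exact Nat.eq_of_mul_eq_mul_left h5 h7
      have hz1 := abs_le.mp (hz s hs).1
      have hz2 := abs_le.mp (hz s' hs').1
      have h5 : z s = z s' := by omega
      have h6 : s.2 = s'.2 := by rw [← (hz s hs).2, ← (hz s' hs').2, h5]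
      exact hne (by rw [hSne s hs s' hs' h2 h6]))
  -- the two averages
  have hbd : ∀ s : Θ × ZMod Y, nu1 K η ℓ e (a s.1 * W * s.2.val + β s.1) ≤ ℓ ^ B := by
    intro s
    refine hB' e _ ((hβ1 s.1).trans (Nat.le_add_left _ _)) ?_
    have h1 : a s.1 * W * s.2.val + β s.1 ≤ (a s.1 * W) * (Y + 2) := by
      have h2 : s.2.val < Y := ZMod.val_lt _
      calc a s.1 * W * s.2.val + β s.1 ≤ a s.1 * W * Y + 2 * (a s.1 * W) :=
            Nat.add_le_add (Nat.mul_le_mul_left _ h2.le) (hβ s.1)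
        _ = (a s.1 * W) * (Y + 2) := by ring
    have hx1 : 1 ≤ Real.exp ℓ := Real.one_le_exp hℓ0.le
    calc ((a s.1 * W * s.2.val + β s.1 : ℕ) : ℝ) ≤ (((a s.1 * W) * (Y + 2) : ℕ) : ℝ) := by
          exact_mod_cast h1
      _ = ((a s.1 * W : ℕ) : ℝ) * (Y + 2) := by push_cast; ring
      _ ≤ (ℓ ^ 3 / 4) * (3 * Real.exp ℓ) :=
        mul_le_mul (haW s.1) (by linarith) (by positivity) (by positivity)
      _ ≤ Real.exp ℓ * Real.exp ℓ := by nlinarith [Real.exp_pos ℓ]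
      _ = Real.exp (2 * ℓ) := by rw [← Real.exp_add]; congr 1; ring
  set F : ZMod Y → ℝ := fun p => ∏ s ∈ S, nu1 K η ℓ e (a s.1 * W * (p + s.2).val + β s.1) with hF
  have hF0 : ∀ p, 0 ≤ F p := fun p => Finset.prod_nonneg fun s _ => nu1_nonneg _ _ _ _ _
  have hB1 : (1 : ℝ) ≤ ℓ ^ B := one_le_pow₀ hℓ
  have hFD : ∀ p, F p ≤ ℓ ^ (B * t) := by
    intro p
    calc F p ≤ ∏ _s ∈ S, ℓ ^ B :=
          Finset.prod_le_prod (fun s _ => nu1_nonneg _ _ _ _ _) (fun s _ => hbd (s.1, p + s.2))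
      _ = (ℓ ^ B) ^ #S := by rw [Finset.prod_const]
      _ ≤ (ℓ ^ B) ^ t := pow_le_pow_right₀ hB1 hSt
      _ = ℓ ^ (B * t) := by rw [← pow_mul]
  have hsplit := corrZ_split hTY' F _ hF0 hFD
  have hsum : (∑ y ∈ Icc 1 Y', F ((y + T : ℕ) : ZMod Y)) =
      ∑ y ∈ Icc 1 Y', ∏ m ∈ S.map ⟨g, hg⟩,
        nu1 K η ℓ e (Function.extend g al 1 m * y + Function.extend g be 1 m) := by
    refine Finset.sum_congr rfl (fun y hy => ?_)
    rw [Finset.prod_map]
    refine Finset.prod_congr rfl (fun s hs => ?_)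
    simp only [Function.Embedding.coeFn_mk, hg.extend_apply]
    congr 1
    have h1 := corrZ_val hy (z s) (hz s hs).1
    rw [(hz s hs).2] at h1
    rw [h1]
    simp only [hal, hbe]
    ring
  rw [← hsum] at hmain
  have hcardY : (Fintype.card (ZMod Y) : ℝ) = Y := by rw [ZMod.card]
  show |(∑ p, F p) / (Fintype.card (ZMod Y) : ℝ) - 1| ≤ ε
  rw [hcardY]
  have hc1 : (2 * T + 1 : ℝ) / Y ≤ ε / 4 := by
    rw [div_le_iff₀ hYpos]
    calc (2 * T + 1 : ℝ) ≤ 3 * ℓ ^ A := hT3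
      _ ≤ 3 * (c * Real.exp (ℓ / 2)) := by linarith [hEA.trans hE']
      _ ≤ 3 * (ε / 16 * Real.exp (ℓ / 2)) := by nlinarith
      _ ≤ ε / 4 * Y := by nlinarith
  have hc2 : (2 * T + 1 : ℝ) * ℓ ^ (B * t) / Y ≤ ε / 4 := by
    rw [div_le_iff₀ hYpos]
    calc (2 * T + 1 : ℝ) * ℓ ^ (B * t) ≤ 3 * ℓ ^ A * ℓ ^ (B * t) :=
          mul_le_mul_of_nonneg_right hT3 (by positivity)
      _ = 3 * ℓ ^ (A + B * t) := by rw [pow_add]; ring
      _ ≤ 3 * (c * Real.exp (ℓ / 2)) := by linarith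
      _ ≤ 3 * (ε / 16 * Real.exp (ℓ / 2)) := by nlinarith
      _ ≤ ε / 4 * Y := by nlinarith
  linarith

end Pool.Agent.H2.NC
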