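import Pool.Agent.H2.NC.Defs

/-!
JOB NC-CRT (MP_c183ae_nt). Chinese remainder count for the forms `α m * A + β m`.

Same statements and same proofs as `Pool/Agent/H16/GPS/Num/Crt.lean` (copy it), where the forms are `sh σ (W * m * A)` (`W m A ± 1`)
and the class of the zeros modulo `p` is given by `m % p`; here it is `rt (α m) (β m) p` (see `Defs`):
`p ∣ α A + β ↔ A ≡ rt α β p [MOD p]` for `p` prime, `p ∤ α`.
`vanish1`: `p` divides `α' (α A + β) - α (α' A + β') = α' β - α β' ≠ 0`, of absolute value `≤ z < p`.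
`crt_count1`: write `ρ p = #(ℳ.image (fun m => rt (α m) (β m) p))`. `D m` is coprime to `α m` (its primes are `> z ≥ w`), so
`D m ∣ α m A + β m` fixes `A` mod `D m`; for `p ∈ Q` (`p ∤ α m`) the condition `∃ m ∈ ℳ, p ∣ α m A + β m` says that `A` mod `p` is
one of `ρ p` classes. The moduli `D m` (primes `> z`) and `p ∈ Q` (`≤ z`) are pairwise coprime.
-/

set_option autoImplicit false

open Finset

namespace Pool.Agent.H2.NC

open Pool.Agent.H16 Pool.Agent.H16.GPS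

theorem vanish1 (z α β α' β' A p : ℕ) (hp : p.Prime) (hpz : z < p) (hne : α * β' ≠ α' * β)
    (hz : α * β' ≤ z) (hz' : α' * β ≤ z) (h1 : p ∣ α * A + β) (h2 : p ∣ α' * A + β') : False := by
  have e1 : (p : ℤ) ∣ (α : ℤ) * A + β := by exact_mod_cast h1
  have e2 : (p : ℤ) ∣ (α' : ℤ) * A + β' := by exact_mod_cast h2
  have e3 : (p : ℤ) ∣ (α' : ℤ) * β - α * β' := by
    have e4 := dvd_sub (e1.mul_left (α' : ℤ)) (e2.mul_left (α : ℤ))
    have e5 : (α' : ℤ) * (α * A + β) - α * (α' * A + β') = α' * β - α * β' := by ring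
    rwa [e5] at e4
  have e6 : (α' : ℤ) * β - α * β' = 0 := by
    refine Int.eq_zero_of_abs_lt_dvd e3 ?_
    have z1 : (α : ℤ) * β' ≤ z := by exact_mod_cast hz
    have z2 : (α' : ℤ) * β ≤ z := by exact_mod_cast hz'
    have z3 : (0 : ℤ) ≤ (α : ℤ) * β' := by positivity
    have z4 : (0 : ℤ) ≤ (α' : ℤ) * β := by positivity
    have z5 : (z : ℤ) < p := by exact_mod_cast hpz
    rw [abs_lt]
    constructor <;> linarith
  apply hne
  have e7 : (α : ℤ) * β' = α' * β := by linarith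
  exact_mod_cast e7

/-- `P` (for `A ≥ 1`) is a union of `r` classes mod `N` -/
private def Cl (N r : ℕ) (P : ℕ → Prop) : Prop :=
  0 < N ∧ ∃ S : Finset ℕ, #S = r ∧ (∀ s ∈ S, s < N) ∧ ∀ A, 1 ≤ A → (P A ↔ A % N ∈ S)

private theorem cl_mul {N M r r' : ℕ} {P P' : ℕ → Prop} (h : Cl N r P) (h' : Cl M r' P')
    (hco : Nat.Coprime N M) : Cl (N * M) (r * r') (fun A => P A ∧ P' A) := by
  obtain ⟨hN, S, hS, hSN, hP⟩ := h
  obtain ⟨hM, T, hT, hTM, hP'⟩ := h'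
  refine ⟨Nat.mul_pos hN hM, (range (N * M)).filter (fun x => x % N ∈ S ∧ x % M ∈ T), ?_, ?_, ?_⟩
  · rw [← hS, ← hT, ← Finset.card_product]
    refine Finset.card_nbij' (fun x => (x % N, x % M))
      (fun q => (Nat.chineseRemainder hco q.1 q.2 : ℕ)) ?_ ?_ ?_ ?_
    · intro x hx
      rw [Finset.mem_coe, Finset.mem_filter] at hx
      rw [Finset.mem_coe, Finset.mem_product]
      exact hx.2
    · intro q hq
      rw [Finset.mem_coe, Finset.mem_product] at hq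
      have h1 := (Nat.chineseRemainder hco q.1 q.2).2
      rw [Finset.mem_coe, Finset.mem_filter, Finset.mem_range]
      refine ⟨Nat.chineseRemainder_lt_mul hco _ _ hN.ne' hM.ne', ?_, ?_⟩
      · have h2 : _ % N = q.1 % N := h1.1
        rw [h2, Nat.mod_eq_of_lt (hSN _ hq.1)]
        exact hq.1
      · have h2 : _ % M = q.2 % M := h1.2
        rw [h2, Nat.mod_eq_of_lt (hTM _ hq.2)]
        exact hq.2
    · intro x hx
      rw [Finset.mem_coe, Finset.mem_filter, Finset.mem_range] at hx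
      have h1 := (Nat.chineseRemainder hco (x % N) (x % M)).2
      have h2 : (Nat.chineseRemainder hco (x % N) (x % M) : ℕ) ≡ x [MOD N * M] := by
        rw [← Nat.modEq_and_modEq_iff_modEq_mul hco]
        exact ⟨h1.1.trans (Nat.mod_modEq _ _), h1.2.trans (Nat.mod_modEq _ _)⟩
      exact h2.eq_of_lt_of_lt (Nat.chineseRemainder_lt_mul hco _ _ hN.ne' hM.ne') hx.1
    · intro q hq
      rw [Finset.mem_coe, Finset.mem_product] at hq
      have h1 := (Nat.chineseRemainder hco q.1 q.2).2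
      refine Prod.ext ?_ ?_
      · have h2 : _ % N = q.1 % N := h1.1
        exact h2.trans (Nat.mod_eq_of_lt (hSN _ hq.1))
      · have h2 : _ % M = q.2 % M := h1.2
        exact h2.trans (Nat.mod_eq_of_lt (hTM _ hq.2))
  · intro s hs
    exact Finset.mem_range.1 (Finset.mem_filter.1 hs).1
  · intro A hA
    rw [Finset.mem_filter, Finset.mem_range, Nat.mod_mul_right_mod, Nat.mod_mul_left_mod]
    change (P A ∧ P' A) ↔ _
    rw [hP A hA, hP' A hA]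
    exact ⟨fun h => ⟨Nat.mod_lt _ (Nat.mul_pos hN hM), h⟩, fun h => h.2⟩

private theorem cl_one {P : ℕ → Prop} (h : ∀ A, 1 ≤ A → P A) : Cl 1 1 P :=
  ⟨one_pos, {0}, by simp, by simp, fun A hA => by simp [h A hA, Nat.mod_one]⟩

private theorem cl_prod {ι : Type} [DecidableEq ι] (s : Finset ι) (N r : ι → ℕ) (P : ι → ℕ → Prop)
    (h : ∀ i ∈ s, Cl (N i) (r i) (P i))
    (hco : ∀ i ∈ s, ∀ j ∈ s, i ≠ j → Nat.Coprime (N i) (N j)) :
    Cl (∏ i ∈ s, N i) (∏ i ∈ s, r i) (fun A => ∀ i ∈ s, P i A) := by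
  induction s using Finset.induction_on with
  | empty => exact cl_one (fun A _ => by simp)
  | insert a s ha ih =>
    rw [Finset.prod_insert ha, Finset.prod_insert ha]
    have h1 := cl_mul (h a (Finset.mem_insert_self a s))
      (ih (fun i hi => h i (Finset.mem_insert_of_mem hi))
        (fun i hi j hj => hco i (Finset.mem_insert_of_mem hi) j (Finset.mem_insert_of_mem hj)))
      (Nat.Coprime.prod_right fun i hi => hco a (Finset.mem_insert_self a s) i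
        (Finset.mem_insert_of_mem hi) (fun h => ha (h ▸ hi)))
    have h2 : (fun A => ∀ i ∈ insert a s, P i A) = (fun A => P a A ∧ ∀ i ∈ s, P i A) := by
      funext A
      simp [Finset.mem_insert]
    rw [h2]
    exact h1

/-- a class count -/
private theorem one_class (N s Y : ℕ) (hN : 0 < N) (hs : s < N) :
    |(#((Icc 1 Y).filter (fun A => A % N = s)) : ℝ) - Y / N| ≤ 1 := by
  have e1 : (Icc 1 Y).filter (fun A => A % N = s) = (Ioc 0 Y).filter (fun A => A ≡ s [MOD N]) := by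
    ext A
    simp only [Finset.mem_filter, Finset.mem_Icc, Finset.mem_Ioc, Nat.ModEq,
      Nat.mod_eq_of_lt hs]
    constructor <;> rintro ⟨⟨h1, h2⟩, h3⟩ <;> exact ⟨⟨by omega, h2⟩, h3⟩
  have e2 := Nat.Ioc_filter_modEq_card 0 Y hN s
  rw [e1]
  have hNR : (0 : ℚ) < N := by exact_mod_cast hN
  have e3 : (((#{x ∈ Ioc 0 Y | x ≡ s [MOD N]} : ℕ) : ℤ) : ℚ) =
      ((max (⌊((Y : ℕ) - (s : ℕ) : ℚ) / (N : ℚ)⌋ - ⌊(((0 : ℕ) : ℚ) - (s : ℕ)) / (N : ℚ)⌋) 0 : ℤ) : ℚ) := by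
    exact_mod_cast congrArg (fun t : ℤ => (t : ℚ)) e2
  have h1 := Int.floor_le (((Y : ℕ) - (s : ℕ) : ℚ) / (N : ℚ))
  have h2 := Int.lt_floor_add_one (((Y : ℕ) - (s : ℕ) : ℚ) / (N : ℚ))
  have h3 := Int.floor_le ((((0 : ℕ) : ℚ) - (s : ℕ)) / (N : ℚ))
  have h4 := Int.lt_floor_add_one ((((0 : ℕ) : ℚ) - (s : ℕ)) / (N : ℚ))
  have h5 : ((Y : ℕ) - (s : ℕ) : ℚ) / (N : ℚ) - (((0 : ℕ) : ℚ) - (s : ℕ)) / (N : ℚ) = Y / N := by
    push_cast
    ring
  have h6 : (0 : ℚ) ≤ Y / N := by positivity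
  have h7 : (-1 : ℤ) < ⌊((Y : ℕ) - (s : ℕ) : ℚ) / (N : ℚ)⌋ -
      ⌊(((0 : ℕ) : ℚ) - (s : ℕ)) / (N : ℚ)⌋ := by
    have : (-1 : ℚ) < ((⌊((Y : ℕ) - (s : ℕ) : ℚ) / (N : ℚ)⌋ : ℤ) : ℚ) -
      ((⌊(((0 : ℕ) : ℚ) - (s : ℕ)) / (N : ℚ)⌋ : ℤ) : ℚ) := by linarith
    exact_mod_cast this
  rw [max_eq_left (by omega)] at e3
  push_cast at e3
  have h8 : |(((#{x ∈ Ioc 0 Y | x ≡ s [MOD N]} : ℕ)) : ℚ) - Y / N| ≤ 1 := by
    push_cast at h1 h2 h3 h4 h5
    rw [e3, abs_le]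
    constructor <;> linarith
  have h9 : (((|(((#{x ∈ Ioc 0 Y | x ≡ s [MOD N]} : ℕ)) : ℚ) - Y / N| : ℚ)) : ℝ) ≤ ((1 : ℚ) : ℝ) :=
    Rat.cast_le.2 h8
  push_cast at h9
  exact h9

private theorem cl_count {N r : ℕ} {P : ℕ → Prop} (h : Cl N r P) (Y : ℕ) :
    |(∑ A ∈ Icc 1 Y, (open Classical in if P A then (1 : ℝ) else 0)) - Y / (N : ℝ) * r| ≤ r := by
  classical
  obtain ⟨hN, S, hS, hSN, hP⟩ := h
  have e1 : (∑ A ∈ Icc 1 Y, (if P A then (1 : ℝ) else 0)) =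
      ∑ s ∈ S, (#((Icc 1 Y).filter (fun A => A % N = s)) : ℝ) := by
    have e2 : ∀ s ∈ S, (#((Icc 1 Y).filter (fun A => A % N = s)) : ℝ) =
        ∑ A ∈ Icc 1 Y, if A % N = s then (1 : ℝ) else 0 := by
      intro s _
      rw [Finset.sum_boole]
    rw [Finset.sum_congr rfl e2, Finset.sum_comm]
    refine Finset.sum_congr rfl fun A hA => ?_
    rw [Finset.sum_ite_eq S (A % N)]
    simp only [hP A (Finset.mem_Icc.1 hA).1]
  have e3 : (∑ A ∈ Icc 1 Y, (if P A then (1 : ℝ) else 0)) - Y / (N : ℝ) * r =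
      ∑ s ∈ S, ((#((Icc 1 Y).filter (fun A => A % N = s)) : ℝ) - Y / N) := by
    rw [e1, Finset.sum_sub_distrib, Finset.sum_const, nsmul_eq_mul, hS]
    ring
  have e4 : |(∑ A ∈ Icc 1 Y, (if P A then (1 : ℝ) else 0)) - Y / (N : ℝ) * r| ≤ r := by
    rw [e3]
    calc _ ≤ ∑ s ∈ S, |(#((Icc 1 Y).filter (fun A => A % N = s)) : ℝ) - Y / N| :=
          Finset.abs_sum_le_sum_abs _ _
      _ ≤ ∑ s ∈ S, (1 : ℝ) := Finset.sum_le_sum fun s hs => one_class N s Y hN (hSN s hs)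
      _ = r := by rw [Finset.sum_const, nsmul_eq_mul, mul_one, hS]
  convert e4 using 5

private theorem crt_class1 (α β N : ℕ) (hN : 0 < N) (hc : Nat.Coprime α N) (A : ℕ) :
    N ∣ α * A + β ↔ A % N = rt α β N := by
  have : NeZero N := ⟨hN.ne'⟩
  have hcc : (α : ZMod N) * (α : ZMod N)⁻¹ = 1 := ZMod.coe_mul_inv_eq_one α hc
  have e1 : N ∣ α * A + β ↔ ((α : ZMod N) * A = -(β : ZMod N)) := by
    rw [← ZMod.natCast_eq_zero_iff]
    push_cast
    exact eq_neg_iff_add_eq_zero.symm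
  rw [e1]
  have e2 : (A % N = rt α β N) ↔ ((A : ZMod N) = -(β : ZMod N) * (α : ZMod N)⁻¹) := by
    unfold rt
    rw [← ZMod.val_natCast]
    exact ⟨fun h => ZMod.val_injective N h, fun h => by rw [h]⟩
  rw [e2]
  constructor
  · intro h
    rw [← h, mul_comm (α : ZMod N) (A : ZMod N), mul_assoc, hcc, mul_one]
  · intro h
    rw [h, mul_comm (-(β : ZMod N)), ← mul_assoc, hcc, one_mul]

theorem crt_count1 (w z Y : ℕ) (hwz : w ≤ z) (Q : Finset ℕ)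
    (hQ : ∀ p ∈ Q, p.Prime ∧ w < p ∧ p ≤ z) (α β : ℕ → ℕ) (ℳ : Finset ℕ)
    (hm : ∀ m ∈ ℳ, 0 < α m ∧ ∀ p, p.Prime → p ∣ α m → p ≤ w)
    (D : ℕ → ℕ) (hD : ∀ m ∈ ℳ, Squarefree (D m) ∧ ∀ p, p.Prime → p ∣ D m → z < p)
    (hcop : ∀ m ∈ ℳ, ∀ m' ∈ ℳ, m ≠ m' → Nat.Coprime (D m) (D m')) :
    |(∑ A ∈ Icc 1 Y, (open Classical in
        if (∀ m ∈ ℳ, D m ∣ α m * A + β m) ∧ (∀ p ∈ Q, ∃ m ∈ ℳ, p ∣ α m * A + β m)
          then (1 : ℝ) else 0)) -
      Y / (∏ m ∈ ℳ, (D m : ℝ)) * ∏ p ∈ Q, ((#(ℳ.image (fun m => rt (α m) (β m) p)) : ℝ) / p)| ≤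
      ∏ p ∈ Q, (#(ℳ.image (fun m => rt (α m) (β m) p)) : ℝ) := by
  have hDpos : ∀ m ∈ ℳ, 0 < D m := fun m hmm => Nat.pos_of_ne_zero (hD m hmm).1.ne_zero
  have hDc : ∀ m ∈ ℳ, Nat.Coprime (α m) (D m) := by
    intro m hmm
    rw [Nat.coprime_iff_gcd_eq_one]
    by_contra hne
    obtain ⟨q, hq, hqd⟩ := Nat.exists_prime_and_dvd hne
    have h1 := (hD m hmm).2 q hq (hqd.trans (Nat.gcd_dvd_right _ _))
    have h2 := (hm m hmm).2 q hq (hqd.trans (Nat.gcd_dvd_left _ _))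
    omega
  have hclD : ∀ m ∈ ℳ, Cl (D m) 1 (fun A => D m ∣ α m * A + β m) := by
    intro m hmm
    refine ⟨hDpos m hmm, {rt (α m) (β m) (D m)}, by simp, ?_, ?_⟩
    · intro s hs
      rw [Finset.mem_singleton] at hs
      rw [hs]
      have : NeZero (D m) := ⟨(hDpos m hmm).ne'⟩
      exact ZMod.val_lt _
    · intro A hA
      rw [Finset.mem_singleton]
      exact crt_class1 (α m) (β m) (D m) (hDpos m hmm) (hDc m hmm) A
  have hclQ : ∀ p ∈ Q, Cl p (#(ℳ.image (fun m => rt (α m) (β m) p)))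
      (fun A => ∃ m ∈ ℳ, p ∣ α m * A + β m) := by
    intro p hp
    obtain ⟨hpp, hpw, hpz⟩ := hQ p hp
    have : Fact p.Prime := ⟨hpp⟩
    have hcm : ∀ m ∈ ℳ, Nat.Coprime (α m) p := by
      intro m hmm
      refine Nat.Coprime.symm ((Nat.Prime.coprime_iff_not_dvd hpp).2 fun h => ?_)
      have := (hm m hmm).2 p hpp h
      omega
    refine ⟨hpp.pos, ℳ.image (fun m => rt (α m) (β m) p), rfl, ?_, ?_⟩
    · intro s hs
      obtain ⟨m, hmm, rfl⟩ := Finset.mem_image.1 hs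
      exact ZMod.val_lt _
    · intro A hA
      rw [Finset.mem_image]
      constructor
      · rintro ⟨m, hmm, h⟩
        exact ⟨m, hmm, ((crt_class1 (α m) (β m) p hpp.pos (hcm m hmm) A).1 h).symm⟩
      · rintro ⟨m, hmm, h⟩
        exact ⟨m, hmm, (crt_class1 (α m) (β m) p hpp.pos (hcm m hmm) A).2 h.symm⟩
  have hDp : ∀ m ∈ ℳ, ∀ p ∈ Q, Nat.Coprime (D m) p := by
    intro m hmm p hp
    refine Nat.Coprime.symm ((Nat.Prime.coprime_iff_not_dvd (hQ p hp).1).2 fun h => ?_)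
    have h1 := (hD m hmm).2 p (hQ p hp).1 h
    have h2 := (hQ p hp).2.2
    omega
  have hall := cl_mul (cl_prod ℳ D (fun _ => 1) (fun m A => D m ∣ α m * A + β m) hclD hcop)
    (cl_prod Q (fun p => p) (fun p => #(ℳ.image (fun m => rt (α m) (β m) p)))
      (fun p A => ∃ m ∈ ℳ, p ∣ α m * A + β m) hclQ
      (fun p hp q hq hne => (Nat.coprime_primes (hQ p hp).1 (hQ q hq).1).2 hne))
    (Nat.Coprime.prod_left fun m hmm => Nat.Coprime.prod_right fun p hp => hDp m hmm p hp)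
  have hcnt := cl_count hall Y
  have e5 : ((∏ m ∈ ℳ, 1) * ∏ p ∈ Q, #(ℳ.image (fun m => rt (α m) (β m) p)) : ℕ) =
      ∏ p ∈ Q, #(ℳ.image (fun m => rt (α m) (β m) p)) := by
    rw [Finset.prod_const_one, one_mul]
  rw [e5] at hcnt
  push_cast at hcnt
  have e6 : (Y : ℝ) / (∏ m ∈ ℳ, (D m : ℝ)) *
      ∏ p ∈ Q, ((#(ℳ.image (fun m => rt (α m) (β m) p)) : ℝ) / p) =
      Y / ((∏ m ∈ ℳ, (D m : ℝ)) * ∏ p ∈ Q, (p : ℝ)) *
        ∏ p ∈ Q, (#(ℳ.image (fun m => rt (α m) (β m) p)) : ℝ) := by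
    rw [Finset.prod_div_distrib, div_mul_eq_div_div, div_mul_div_comm, div_div,
      div_mul_eq_mul_div]
  rw [e6]
  convert hcnt using 5

end Pool.Agent.H2.NC
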