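import Pool.Agent.H16.GPS.Num.Defs
import Pool.Agent.H16.GPS.Rel.Defs
import Pool.Agent.H16.SAN

/-!
# Project NC (MP_c183ae_nt): narrow Cunningham chains. Definitions.

`ℓ` is `log` of the size of everything. Same notation as in `Pool/Agent/H16/GPS` (project GPS of helper16), with
`w = log ℓ` instead of `(log ℓ)^5` and with general linear forms `α A + β` instead of `W m A ± 1`.
-/

set_option autoImplicit false

open Finset

namespace Pool.Agent.H2.NC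

open Pool.Agent.H16 Pool.Agent.H16.GPS

/-! ### Number theory -/

/-- `w = log ℓ` -/
noncomputable def w1 (ℓ : ℝ) : ℕ := ⌊Real.log ℓ⌋₊

/-- product of the primes `p ≤ w`, `p ≠ e` -/
noncomputable def W1 (ℓ : ℝ) (e : ℕ) : ℕ := ∏ p ∈ (primesIoc 1 (w1 ℓ)).erase e, p

/-- the sieving primes: `w < p ≤ z₀`, `p ≠ e` -/
noncomputable def P1 (K : ℕ) (η ℓ : ℝ) (e : ℕ) : Finset ℕ :=
  (primesIoc (w1 ℓ) (zz K η ℓ)).erase e

/-- the majorant -/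
noncomputable def nu1 (K : ℕ) (η ℓ : ℝ) (e n : ℕ) : ℝ := by
  classical exact GG (zz K η ℓ) (RR η ℓ) / VP (P1 K η ℓ e) *
    (if ∀ p ∈ P1 K η ℓ e, ¬ p ∣ n then 1 else 0) *
    (∑ d ∈ (Dr (zz K η ℓ) (RR η ℓ)).filter (fun d => d ∣ n), lamS (zz K η ℓ) (RR η ℓ) d) ^ 2

/-- the class of the zeros of `α A + β` modulo the prime `p` (`p` not dividing `α`) -/
noncomputable def rt (α β p : ℕ) : ℕ := (-(β : ZMod p) * (α : ZMod p)⁻¹).val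

/-! ### The relative theorem -/

/-- `LT el th j h = ∑ i, (el (th i) - el (th j)) • h i` -/
def LT {κ : ℕ} {Θ Γ : Type} [AddCommGroup Γ] (el : Θ → ℤ) (th : Fin κ → Θ) (j : Fin κ)
    (h : Fin κ → Γ) : Γ :=
  ∑ i : Fin κ, (el (th i) - el (th j)) • h i

/-- the counting functional of the pattern `th` -/
noncomputable def LamT {Θ Γ : Type} [Fintype Γ] [AddCommGroup Γ] (κ : ℕ) (el : Θ → ℤ)
    (lam : Γ → ℝ) (th : Fin κ → Θ) (g : Θ × Γ → ℝ) : ℝ :=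
  EE (unif Γ) lam (fun (p : Γ) (h : Fin κ → Γ) => ∏ j : Fin κ, g (th j, p + LT el th j h))

/-- linear forms condition for the pattern `th` -/
def LFt {Θ Γ : Type} [Fintype Γ] [AddCommGroup Γ] (κ : ℕ) (el : Θ → ℤ) (lam : Γ → ℝ)
    (th : Fin κ → Θ) (ν : Θ × Γ → ℝ) (η : ℝ) : Prop :=
  LFc (unif Γ) lam (fun (j : Fin κ) (p : Γ) h => ν (th j, p + LT el th j h)) η

/-- linear forms condition for the cubes `p + D ∑ c, y c` -/
def LFq {Γ : Type} [Fintype Γ] [AddCommGroup Γ] (κ D : ℕ) (lam' : Γ → ℝ) (ν : Γ → ℝ)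
    (η : ℝ) : Prop :=
  ∀ S : Finset (Finset (Fin κ)),
    |EE2 (unif Γ) lam' (fun p y y' => ∏ ω ∈ S, ν (p + D • ∑ c : Fin κ, mix y y' ω c)) - 1| ≤ η

/-- `lam` is nearly invariant under the shifts by `c y`, `y` in the support of `lam'`, `|c| ≤ D` -/
def NearD {Γ : Type} [Fintype Γ] [AddCommGroup Γ] (D : ℕ) (lam lam' : Γ → ℝ) (τ : ℝ) : Prop :=
  ∀ y : Γ, lam' y ≠ 0 → ∀ c : ℤ, |c| ≤ D → ∑ g, |lam g - lam (g - c • y)| ≤ τ

/-- test functions -/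
def TestT {Γ : Type} [Fintype Γ] [AddCommGroup Γ] (κ D : ℕ) (lam : Γ → ℝ) : Set (Γ → ℝ) :=
  {φ | (φ = fun _ => 1) ∨ ∃ (j : Fin κ) (cf : Fin κ → ℤ) (u : Fin κ → Γ → (Fin κ → Γ) → ℝ),
    cf j = 0 ∧ (∀ i, i ≠ j → cf i ≠ 0 ∧ cf i ∣ (D : ℤ)) ∧
    (∀ i p, Indep i (u i p)) ∧ (∀ i p h, 0 ≤ u i p h ∧ u i p h ≤ 1) ∧
    ∀ p, φ p = ∑ h : Fin κ → Γ, (∏ i, lam (h i)) *
      ∏ i ∈ univ.erase j, u i (p - ∑ i, cf i • h i) h}

/-- correlation hypothesis for the functions `ν (θ, ·)` at the shifts in `𝒮` -/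
def CorrH {Θ Γ : Type} [Fintype Γ] [AddCommGroup Γ] (el : Θ → ℤ) (𝒮 : Set Γ) (ν : Θ × Γ → ℝ)
    (t : ℕ) (ε : ℝ) : Prop :=
  ∀ S : Finset (Θ × Γ), #S ≤ t → (∀ s ∈ S, s.2 ∈ 𝒮) →
    (∀ s ∈ S, ∀ s' ∈ S, el s.1 = el s'.1 → s.2 = s'.2 → s = s') →
    |(∑ p : Γ, ∏ s ∈ S, ν (s.1, p + s.2)) / (Fintype.card Γ : ℝ) - 1| ≤ ε

/-- the uniform law on `{0, ..., H-1}` in `ZMod Y` -/
noncomputable def lamH (Y H : ℕ) : ZMod Y → ℝ := lawU (fun ξ : Fin H => ((ξ : ℕ) : ZMod Y))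

/-! ### Words and patterns -/

/-- the multiplier of a word -/
def av {κ n : ℕ} (μ : Fin κ → ℕ) (θ : Fin n → Fin κ) : ℕ := ∏ s, μ (θ s)

/-- `(∏ μ)^n / av μ θ` -/
def ev {κ n : ℕ} (μ : Fin κ → ℕ) (θ : Fin n → Fin κ) : ℕ := ∏ s, ((∏ j, μ j) / μ (θ s))

/-- the patterns: combinatorial lines in the set of words -/
noncomputable def pats (κ n : ℕ) : Finset (Fin κ → Fin n → Fin κ) := by
  classical exact univ.filter (fun th => ∃ L : Combinatorics.Line (Fin κ) (Fin n), ∀ j, th j = L j)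

/-- a common multiple of all `ev μ θ` and of all their nonzero differences -/
def DD {κ : ℕ} (n : ℕ) (μ : Fin κ → ℕ) : ℕ :=
  (∏ θ : Fin n → Fin κ, ev μ θ) *
    ∏ θ : Fin n → Fin κ, ∏ θ' : Fin n → Fin κ,
      if ev μ θ = ev μ θ' then 1 else ((ev μ θ : ℤ) - (ev μ θ' : ℤ)).natAbs

end Pool.Agent.H2.NC
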