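import Pool.Agent.H2.NC.Defs
import Pool.Agent.H16.GPS.HJ.Main
import Pool.Agent.H16.GPS.HJ.Avg

/-!
JOB NC-DENSE (MP_c183ae_nt). The dense case, from the density Hales-Jewett theorem.

PROOF. `n` from `dhj_all (Fin κ)` for the density `δ / 4` (`ι = Fin n`). For fixed `h : Fin κ → Γ` put `c = ∑ i, h i` and translate `p` by
`∑ i, el (th i) • h i`: since `LT el th j h = ∑ i, el (th i) • h i - el (th j) • c`,
`LamT κ el lam th g = ∑ h, (∏ lam (h i)) * ∑ m, unif Γ m * ∏ j, g (th j, m - el (th j) • c)` (the translation is a bijection of `Γ`). For fixed `c`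
let `G (θ, m) = g (θ, m - el θ • c)`: its mean over words and `m` is the mean of `g`, `≥ δ`. For each `m` let
`A m = {θ | δ / 4 ≤ G (θ, m)}`; the mean over `m` of `dens (A m) + δ / 4` is `≥ δ`, so `dens (A m) ≥ δ / 4` for a proportion `≥ δ / 2` of
the `m` (`dens ≤ 1`); for these `m` there is a line in `A m`, an element `th` of `pats κ n`, with
`∏ j, G (th j, m) ≥ (δ / 4)^κ`. Summing over `th ∈ pats κ n`: `∑ th ∈ pats κ n, LamT κ el lam th g ≥ (δ / 2) (δ / 4)^κ`. Pigeonhole with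
`c₁ = (δ / 2) (δ / 4)^κ / (#(pats κ n) + 1)`.
-/

set_option autoImplicit false

open Finset

namespace Pool.Agent.H2.NC

open Pool.Agent.H16 Pool.Agent.H16.GPS

/-- translation of the base point -/
private theorem ncd_LamT {Θ Γ : Type} [Fintype Γ] [AddCommGroup Γ] (κ : ℕ) (el : Θ → ℤ)
    (lam : Γ → ℝ) (th : Fin κ → Θ) (g : Θ × Γ → ℝ) :
    LamT κ el lam th g = ∑ h : Fin κ → Γ, (∏ i, lam (h i)) *
      ((∑ m : Γ, ∏ j : Fin κ, g (th j, m - el (th j) • ∑ i, h i)) / (Fintype.card Γ : ℝ)) := by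
  unfold LamT EE
  have h1 : ∀ p : Γ, unif Γ p * ∑ h : Fin κ → Γ, (∏ i, lam (h i)) *
      ∏ j : Fin κ, g (th j, p + LT el th j h) = ∑ h : Fin κ → Γ, (∏ i, lam (h i)) *
      ((∏ j : Fin κ, g (th j, p + LT el th j h)) / (Fintype.card Γ : ℝ)) := by
    intro p
    rw [Finset.mul_sum]
    refine Finset.sum_congr rfl fun h _ => ?_
    unfold unif
    ring
  rw [Finset.sum_congr rfl fun p _ => h1 p, Finset.sum_comm]
  refine Finset.sum_congr rfl fun h _ => ?_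
  rw [← Finset.mul_sum, ← Finset.sum_div]
  congr 2
  rw [← Equiv.sum_comp (Equiv.addRight (∑ i, el (th i) • h i))
    (fun m => ∏ j : Fin κ, g (th j, m - el (th j) • ∑ i, h i))]
  refine Finset.sum_congr rfl fun p _ => Finset.prod_congr rfl fun j _ => ?_
  have e : p + LT el th j h =
      Equiv.addRight (∑ i, el (th i) • h i) p - el (th j) • ∑ i, h i := by
    change p + LT el th j h = (p + ∑ i, el (th i) • h i) - el (th j) • ∑ i, h i
    unfold LT
    rw [add_sub_assoc]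
    congr 1
    rw [Finset.smul_sum, ← Finset.sum_sub_distrib]
    refine Finset.sum_congr rfl fun i _ => ?_
    rw [sub_smul]
  rw [e]

/-- many base points have a line of large values, for a fixed dilate `c` -/
private theorem ncd_fix {κ n : ℕ} (hκ : 1 ≤ κ) {δ : ℝ} (hδ : 0 < δ)
    (hn : ∀ A : Finset (Fin n → Fin κ), δ / 2 / 2 ≤ GPS.dens A →
      ∃ l : Combinatorics.Line (Fin κ) (Fin n), ∀ x : Fin κ, l x ∈ A)
    (el : (Fin n → Fin κ) → ℤ) {Γ : Type} [Fintype Γ] [AddCommGroup Γ]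
    (g : (Fin n → Fin κ) × Γ → ℝ) (hg : ∀ p, 0 ≤ g p ∧ g p ≤ 1)
    (hav : δ ≤ ∑ p, unif ((Fin n → Fin κ) × Γ) p * g p) (c : Γ) :
    δ / 2 * (δ / 2 / 2) ^ κ ≤ ∑ th ∈ pats κ n,
      (∑ m : Γ, ∏ j : Fin κ, g (th j, m - el (th j) • c)) / (Fintype.card Γ : ℝ) := by
  classical
  have : Nonempty (Fin κ) := ⟨⟨0, hκ⟩⟩
  have hΓ : (0 : ℝ) < Fintype.card Γ := by exact_mod_cast Fintype.card_pos
  have hW : (0 : ℝ) < Fintype.card (Fin n → Fin κ) := by exact_mod_cast Fintype.card_pos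
  set G : Γ → (Fin n → Fin κ) → ℝ := fun m θ => g (θ, m - el θ • c) with hG
  set f : Γ → ℝ := fun m => (∑ θ, G m θ) / (Fintype.card (Fin n → Fin κ) : ℝ) with hf
  have hf1 : ∀ m, f m ≤ 1 := by
    intro m
    simp only [hf]
    rw [div_le_one hW]
    calc ∑ θ, G m θ ≤ ∑ _θ : Fin n → Fin κ, (1 : ℝ) :=
          Finset.sum_le_sum fun θ _ => (hg _).2
      _ = _ := by rw [Finset.sum_const, Finset.card_univ, nsmul_eq_mul, mul_one]
  have hsum : ∑ m, ∑ θ, G m θ = ∑ p, g p := by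
    rw [Finset.sum_comm, Fintype.sum_prod_type]
    refine Finset.sum_congr rfl fun θ _ => ?_
    exact Equiv.sum_comp (Equiv.subRight (el θ • c)) (fun m => g (θ, m))
  have hfav : δ ≤ (∑ m, f m) / (Fintype.card Γ : ℝ) := by
    simp only [hf]
    rw [← Finset.sum_div, hsum, div_div]
    have e2 : ∑ p, unif ((Fin n → Fin κ) × Γ) p * g p =
        (∑ p, g p) / (Fintype.card ((Fin n → Fin κ) × Γ) : ℝ) := by
      unfold unif
      rw [← Finset.mul_sum]
      ring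
    rw [e2, Fintype.card_prod, Nat.cast_mul] at hav
    exact hav
  have hY := markov_dens f δ hδ.le hf1 hfav
  set Y := univ.filter (fun m => δ / 2 ≤ f m) with hYd
  have hpt : ∀ m ∈ Y, (δ / 2 / 2) ^ κ ≤ ∑ th ∈ pats κ n, ∏ j : Fin κ, G m (th j) := by
    intro m hm
    have h1 := markov_dens (fun θ => G m θ) (δ / 2) (by linarith) (fun θ => (hg _).2)
      (Finset.mem_filter.1 hm).2
    obtain ⟨l, hl⟩ := hn _ h1
    have hmem : (fun j => l j) ∈ pats κ n := by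
      unfold pats
      rw [Finset.mem_filter]
      exact ⟨Finset.mem_univ _, l, fun j => rfl⟩
    calc (δ / 2 / 2) ^ κ = ∏ _j : Fin κ, (δ / 2 / 2) := by
          rw [Finset.prod_const, Finset.card_univ, Fintype.card_fin]
      _ ≤ ∏ j : Fin κ, G m ((fun j => l j) j) :=
          Finset.prod_le_prod (fun j _ => by positivity)
            (fun j _ => (Finset.mem_filter.1 (hl j)).2)
      _ ≤ ∑ th ∈ pats κ n, ∏ j : Fin κ, G m (th j) :=
          Finset.single_le_sum (f := fun th => ∏ j : Fin κ, G m (th j))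
            (fun th _ => Finset.prod_nonneg fun j _ => (hg _).1) hmem
  rw [← Finset.sum_div, Finset.sum_comm, le_div_iff₀ hΓ]
  have h0 : ∀ m : Γ, 0 ≤ ∑ th ∈ pats κ n, ∏ j : Fin κ, G m (th j) := fun m =>
    Finset.sum_nonneg fun th _ => Finset.prod_nonneg fun j _ => (hg _).1
  have hYc : δ / 2 * (Fintype.card Γ : ℝ) ≤ #Y := by
    unfold GPS.dens at hY
    rwa [le_div_iff₀ hΓ] at hY
  calc δ / 2 * (δ / 2 / 2) ^ κ * (Fintype.card Γ : ℝ)
      = (δ / 2 * (Fintype.card Γ : ℝ)) * (δ / 2 / 2) ^ κ := by ring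
    _ ≤ (#Y : ℝ) * (δ / 2 / 2) ^ κ := mul_le_mul_of_nonneg_right hYc (by positivity)
    _ = ∑ _m ∈ Y, (δ / 2 / 2) ^ κ := by rw [Finset.sum_const, nsmul_eq_mul]
    _ ≤ ∑ m ∈ Y, ∑ th ∈ pats κ n, ∏ j : Fin κ, G m (th j) := Finset.sum_le_sum hpt
    _ ≤ ∑ m, ∑ th ∈ pats κ n, ∏ j : Fin κ, G m (th j) :=
        Finset.sum_le_sum_of_subset_of_nonneg (Finset.subset_univ _) (fun m _ _ => h0 m)

theorem dense_nc (κ : ℕ) (hκ : 1 ≤ κ) (δ : ℝ) (hδ : 0 < δ) : ∃ (n : ℕ) (c₁ : ℝ), 0 < c₁ ∧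
    ∀ (el : (Fin n → Fin κ) → ℤ) (Γ : Type) [Fintype Γ] [AddCommGroup Γ] (lam : Γ → ℝ), IsPW lam →
    ∀ g : (Fin n → Fin κ) × Γ → ℝ, (∀ p, 0 ≤ g p ∧ g p ≤ 1) →
    δ ≤ ∑ p, unif ((Fin n → Fin κ) × Γ) p * g p → ∃ th ∈ pats κ n, c₁ ≤ LamT κ el lam th g := by
  classical
  obtain ⟨n, hn⟩ := dhj κ hκ (δ / 2 / 2) (by linarith)
  have hn' : ∀ A : Finset (Fin n → Fin κ), δ / 2 / 2 ≤ GPS.dens A →
      ∃ l : Combinatorics.Line (Fin κ) (Fin n), ∀ x : Fin κ, l x ∈ A := by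
    intro A hA
    exact hn (Fin n) (by rw [Fintype.card_fin]) A hA
  set B : ℝ := δ / 2 * (δ / 2 / 2) ^ κ with hB
  have hB0 : 0 < B := by positivity
  refine ⟨n, B / ((#(pats κ n) : ℝ) + 1), by positivity, ?_⟩
  intro el Γ _ _ lam hlam g hg hav
  have hsum : B ≤ ∑ th ∈ pats κ n, LamT κ el lam th g := by
    have h1 : ∑ th ∈ pats κ n, LamT κ el lam th g = ∑ h : Fin κ → Γ, (∏ i, lam (h i)) *
        ∑ th ∈ pats κ n, (∑ m : Γ, ∏ j : Fin κ, g (th j, m - el (th j) • ∑ i, h i)) /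
          (Fintype.card Γ : ℝ) := by
      rw [Finset.sum_congr rfl fun th _ => ncd_LamT κ el lam th g, Finset.sum_comm]
      refine Finset.sum_congr rfl fun h _ => ?_
      rw [Finset.mul_sum]
    have h2 : ∑ h : Fin κ → Γ, ∏ i, lam (h i) = 1 := by
      have h3 := Finset.prod_univ_sum (fun _ : Fin κ => (univ : Finset Γ)) (fun _ x => lam x)
      rw [Fintype.piFinset_univ] at h3
      rw [← h3]
      simp only [hlam.2]
      rw [Finset.prod_const_one]
    rw [h1]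
    calc B = ∑ h : Fin κ → Γ, (∏ i, lam (h i)) * B := by rw [← Finset.sum_mul, h2, one_mul]
      _ ≤ _ := Finset.sum_le_sum fun h _ => mul_le_mul_of_nonneg_left
          (ncd_fix hκ hδ hn' el g hg hav (∑ i, h i)) (Finset.prod_nonneg fun i _ => hlam.1 _)
  by_contra hcon
  push Not at hcon
  have h4 : ∑ th ∈ pats κ n, LamT κ el lam th g ≤
      ∑ _th ∈ pats κ n, B / ((#(pats κ n) : ℝ) + 1) :=
    Finset.sum_le_sum fun th hth => (hcon th hth).le
  rw [Finset.sum_const, nsmul_eq_mul] at h4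
  have h5 : (#(pats κ n) : ℝ) * (B / ((#(pats κ n) : ℝ) + 1)) < B := by
    have h6 : (0 : ℝ) ≤ #(pats κ n) := Nat.cast_nonneg _
    rw [← mul_div_assoc, div_lt_iff₀ (by positivity)]
    nlinarith
  linarith

end Pool.Agent.H2.NC
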