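import Pool.Agent.H2.NC.Absorb
import Pool.Agent.H16.GPS.Rel.Dual

/-!
JOB NC-DUAL (MP_c183ae_nt). `ν - 1` is nearly orthogonal to products of test functions.

Same proof as `dual_products` in `Pool/Agent/H16/GPS/Rel/Dual.lean` (copy it; `du_hybrid`, `du_abs`, `du_EE2_sum`, `du_expand` may be
used as they are), without the parameter space `Θ` (parameter space `Γ` only), with `D` in place of `κ!`, `absorb1` in place
of `absorb`, `LFq` in place of `LFd`. The constants `η`, `τ` do not depend on `D`.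
-/

set_option autoImplicit false

open Finset

namespace Pool.Agent.H2.NC

open Pool.Agent.H16 Pool.Agent.H16.GPS

lemma dual1_trans {Γ : Type} [Fintype Γ] [AddCommGroup Γ] (F : Γ → ℝ) (t : Γ) :
    ∑ p : Γ, unif Γ p * F (p + t) = ∑ p, unif Γ p * F p := by
  have := Equiv.sum_comp (Equiv.addRight t) (fun p => unif Γ p * F p)
  rw [← this]
  rfl

lemma dual1_shift {Γ : Type} [Fintype Γ] [AddCommGroup Γ] {κ : ℕ}
    (lam' : Γ → ℝ) (hl' : IsPW lam') (F : Γ → ℝ) (t : (Fin κ → Γ) → Γ) :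
    EE (unif Γ) lam' (fun p (y : Fin κ → Γ) => F (p + t y)) =
      ∑ p, unif Γ p * F p := by
  unfold EE
  have h1 : ∑ p, unif Γ p * ∑ y : Fin κ → Γ, (∏ i, lam' (y i)) * F (p + t y) =
      ∑ y : Fin κ → Γ, (∏ i, lam' (y i)) * ∑ p, unif Γ p * F (p + t y) := by
    simp only [Finset.mul_sum]
    rw [Finset.sum_comm]
    refine Finset.sum_congr rfl fun y _ => Finset.sum_congr rfl fun p _ => by ring
  have h2 : ∑ y : Fin κ → Γ, (∏ i, lam' (y i)) * ∑ p, unif Γ p * F (p + t y) =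
      ∑ y : Fin κ → Γ, (∏ i, lam' (y i)) * ∑ p, unif Γ p * F p :=
    Finset.sum_congr rfl fun y _ => by rw [dual1_trans]
  rw [h1, h2, ← Finset.sum_mul, sum_pi_weight lam' hl', one_mul]

theorem dual1 (κ : ℕ) (hκ : 2 ≤ κ) (K : ℕ) (ε : ℝ) (hε : 0 < ε) :
    ∃ η : ℝ, 0 < η ∧ ∃ τ : ℝ, 0 < τ ∧ ∀ D : ℕ, 0 < D →
    ∀ (Γ : Type) [Fintype Γ] [AddCommGroup Γ] (lam lam' : Γ → ℝ),
    IsPW lam → IsPW lam' → ∀ ν : Γ → ℝ, (∀ p, 0 ≤ ν p) → LFq κ D lam' ν η →
    NearD D lam lam' τ → ∀ K' : ℕ, K' ≤ K → ∀ φ : Fin K' → Γ → ℝ,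
    (∀ a, φ a ∈ TestT κ D lam) →
    |∑ p, unif Γ p * ((ν p - 1) * ∏ a, φ a p)| ≤ ε := by
  refine ⟨min 1 ((ε / 4) ^ (2 ^ κ)), lt_min one_pos (by positivity),
    ε / (6 * (K + 1) * (κ + 1)), by positivity, ?_⟩
  intro D hD Γ _ _ lam lam' hl hl' ν hν hLF hN K' hK' φ hφ
  classical
  generalize hη : min 1 ((ε / 4) ^ (2 ^ κ)) = η at hLF
  generalize hτ : ε / (6 * ((K : ℝ) + 1) * (κ + 1)) = τ at hN
  have hη1 : η ≤ 1 := hη ▸ min_le_left _ _
  have hη2 : η ≤ (ε / 4) ^ (2 ^ κ) := hη ▸ min_le_right _ _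
  have hτ0 : 0 ≤ τ := by rw [← hτ]; positivity
  have hA := fun a => absorb1 κ D hκ hD lam lam' hl τ hτ0 hN (φ a) (hφ a)
  choose v hv1 hv2 hv3 using hA
  have hunif : IsPW (unif Γ) := by
    refine ⟨fun x => by unfold unif; positivity, ?_⟩
    have hne : (Fintype.card Γ : ℝ) ≠ 0 := by
      have : Nonempty Γ := ⟨0⟩
      exact_mod_cast Fintype.card_ne_zero
    simp only [unif, Finset.sum_const, Finset.card_univ, nsmul_eq_mul]
    field_simp
  let sh : (Fin κ → Γ) → Γ := fun y => D • ∑ c, y c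
  let G : Γ → (Fin κ → Γ) → ℝ := fun p y => ν (p + sh y) - 1
  let X : Fin K' → Γ → (Fin κ → Γ) → ℝ := fun a p y => φ a (p + sh y)
  let Y : Fin K' → Γ → (Fin κ → Γ) → ℝ := fun a p y =>
    ∑ h : Fin κ → Γ, (∏ i, lam (h i)) * ∏ i, v a i p h y
  have hsum1 : ∀ f : (Fin κ → Γ) → ℝ, (∀ h, 0 ≤ f h ∧ f h ≤ 1) →
      |∑ h : Fin κ → Γ, (∏ i, lam (h i)) * f h| ≤ 1 := by
    intro f hf
    rw [abs_of_nonneg (Finset.sum_nonneg fun h _ =>
      mul_nonneg (Finset.prod_nonneg fun i _ => hl.1 _) (hf h).1), ← sum_pi_weight lam hl (ι := Fin κ)]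
    exact Finset.sum_le_sum fun h _ =>
      mul_le_of_le_one_right (Finset.prod_nonneg fun i _ => hl.1 _) (hf h).2
  have hφ1 : ∀ a p, |φ a p| ≤ 1 := by
    intro a p
    rcases hφ a with h | ⟨j, cf, u, _, _, hu1, hu2, h⟩
    · rw [h]; simp
    · rw [h]
      exact hsum1 _ fun h => ⟨Finset.prod_nonneg fun i _ => (hu2 i _ _).1,
        Finset.prod_le_one (fun i _ => (hu2 i _ _).1) fun i _ => (hu2 i _ _).2⟩
  have hY1 : ∀ a p y, |Y a p y| ≤ 1 := by
    intro a p y
    exact hsum1 _ fun h => ⟨Finset.prod_nonneg fun i _ => (hv2 a i _ _ _).1,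
        Finset.prod_le_one (fun i _ => (hv2 a i _ _ _).1) fun i _ => (hv2 a i _ _ _).2⟩
  -- step 1
  have s1 : ∑ p, unif Γ p * ((ν p - 1) * ∏ a, φ a p) =
      EE (unif Γ) lam' (fun p y => G p y * ∏ a, X a p y) :=
    (dual1_shift lam' hl' (fun p => (ν p - 1) * ∏ a, φ a p) sh).symm
  -- mean of ν
  have hmean : EE (unif Γ) lam' (fun p (y : Fin κ → Γ) => ν (p + sh y)) ≤ 2 := by
    have h1 := hLF {∅}
    simp only [Finset.prod_singleton] at h1
    have h2 := EE2_mix (unif Γ) lam' hl' (∅ : Finset (Fin κ))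
      (fun p y => ν (p + sh y))
    rw [← h2]
    have h3 := (abs_le.1 h1).2
    have h4 : EE2 (unif Γ) lam' (fun p h h' => ν (p + sh (mix h h' (∅ : Finset (Fin κ)))))
      = EE2 (unif Γ) lam' (fun p y y' =>
        ν (p + D • ∑ c : Fin κ, mix y y' (∅ : Finset (Fin κ)) c)) := rfl
    rw [h4]
    linarith
  -- step 2
  have s2 : |EE (unif Γ) lam' (fun p y => G p y * ∏ a, X a p y) -
      EE (unif Γ) lam' (fun p y => G p y * ∏ a, Y a p y)| ≤ ε / 2 := by
    rw [← EE_sub]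
    have h1 : |EE (unif Γ) lam' (fun p y => G p y * ∏ a, X a p y - G p y * ∏ a, Y a p y)| ≤
        EE (unif Γ) lam' (fun p (y : Fin κ → Γ) =>
          (K' * ((κ + 1) * τ)) * ν (p + sh y) + K' * ((κ + 1) * τ)) := by
      refine du_abs _ _ hunif hl' _ _ fun p y hy => ?_
      rw [← mul_sub, abs_mul]
      have h2 : |∏ a, X a p y - ∏ a, Y a p y| ≤ K' * ((κ + 1) * τ) := by
        have := du_hybrid (fun a => X a p y) (fun a => Y a p y) ((κ + 1) * τ)
          (fun a => hφ1 a _) (fun a => hY1 a p y) (fun a => hv3 a p y hy) univ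
        simpa using this
      have h3 : |G p y| ≤ ν (p + sh y) + 1 := by
        have := hν (p + sh y)
        rw [abs_le]
        constructor <;> simp only [G] <;> linarith
      have h4 : 0 ≤ (K' : ℝ) * ((κ + 1) * τ) := by positivity
      calc |G p y| * |∏ a, X a p y - ∏ a, Y a p y|
          ≤ (ν (p + sh y) + 1) * (K' * ((κ + 1) * τ)) :=
            mul_le_mul h3 h2 (abs_nonneg _) (by linarith [hν (p + sh y)])
        _ = _ := by ring
    refine h1.trans ?_
    rw [EE_add, EE_const_mul, EE_one _ _ hunif hl']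
    have h5 : (K' : ℝ) * ((κ + 1) * τ) ≤ ε / 6 := by
      have hK : (K' : ℝ) ≤ K + 1 := by
        have : (K' : ℝ) ≤ K := by exact_mod_cast hK'
        linarith
      have h6 : ((K : ℝ) + 1) * ((κ + 1) * τ) = ε / 6 := by
        rw [← hτ]
        field_simp
      rw [← h6]
      exact mul_le_mul_of_nonneg_right hK (by positivity)
    have h7 : 0 ≤ (K' : ℝ) * ((κ + 1) * τ) := by positivity
    nlinarith [mul_le_mul_of_nonneg_left hmean h7]
  -- step 3
  let WW : (Fin K' → Fin κ → Γ) → ℝ := fun H => ∏ a, ∏ i, lam (H a i)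
  let μ' : Γ × (Fin K' → Fin κ → Γ) → ℝ := fun q => unif Γ q.1 * WW q.2
  let c : Fin κ → Γ × (Fin K' → Fin κ → Γ) → (Fin κ → Γ) → ℝ := fun i q y =>
    ∏ a, v a i q.1 (q.2 a) y
  have hWWs : ∑ H, WW H = 1 := by
    have h1 := Finset.prod_univ_sum (fun _ : Fin K' => (univ : Finset (Fin κ → Γ)))
      (fun _ (h : Fin κ → Γ) => ∏ i, lam (h i))
    rw [Fintype.piFinset_univ] at h1
    simp only [WW]
    rw [← h1]
    refine Finset.prod_eq_one fun a _ => ?_
    exact sum_pi_weight (ι := Fin κ) lam hl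
  have hWW0 : ∀ H, 0 ≤ WW H := fun H =>
    Finset.prod_nonneg fun a _ => Finset.prod_nonneg fun i _ => hl.1 _
  have hμ' : IsPW μ' := by
    refine ⟨fun q => mul_nonneg (hunif.1 _) (hWW0 _), ?_⟩
    simp only [μ']
    rw [Fintype.sum_prod_type]
    simp only [← Finset.mul_sum, hWWs, mul_one]
    exact hunif.2
  have s3 : EE (unif Γ) lam' (fun p y => G p y * ∏ a, Y a p y) =
      EE μ' lam' (fun q (y : Fin κ → Γ) =>
        G q.1 y * ∏ i ∈ (univ : Finset (Fin κ)), c i q y) := by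
    unfold EE
    conv_rhs => rw [Fintype.sum_prod_type]
    refine Finset.sum_congr rfl fun p _ => ?_
    simp only [μ', Finset.mul_sum]
    rw [Finset.sum_comm]
    refine Finset.sum_congr rfl fun y _ => ?_
    have h1 : ∏ a, Y a p y = ∑ H : Fin K' → Fin κ → Γ, WW H * ∏ i, c i (p, H) y := by
      have h2 := Finset.prod_univ_sum (fun _ : Fin K' => (univ : Finset (Fin κ → Γ)))
        (fun a (h : Fin κ → Γ) => (∏ i, lam (h i)) * ∏ i, v a i p h y)
      rw [Fintype.piFinset_univ] at h2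
      simp only [Y]
      rw [h2]
      refine Finset.sum_congr rfl fun H _ => ?_
      rw [Finset.prod_mul_distrib]
      simp only [WW, c]
      congr 1
      exact Finset.prod_comm
    rw [h1]
    simp only [Finset.mul_sum]
    refine Finset.sum_congr rfl fun H _ => ?_
    ring
  -- step 4
  have s4 := bcs μ' lam' hμ' hl' (univ : Finset (Fin κ)) (fun q y => G q.1 y) c
    (fun _ _ _ => 1)
    (fun i _ q y x => by
      simp only [c]
      exact Finset.prod_congr rfl fun a _ => hv1 a i _ _ y x)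
    (fun i _ q y x => rfl)
    (fun i _ q y => by
      simp only [c]
      rw [Finset.abs_prod]
      refine Finset.prod_le_one (fun _ _ => abs_nonneg _) fun a _ => ?_
      rw [abs_of_nonneg (hv2 a i _ _ _).1]
      exact (hv2 a i _ _ _).2)
    1 le_rfl
    (fun i _ J' _ => by
      simp only [Finset.prod_const_one]
      have h1 := EE2_mix μ' lam' hl' (∅ : Finset (Fin κ)) (fun _ _ => (1 : ℝ))
      rw [h1, EE_one _ _ hμ' hl'])
  simp only [one_pow, one_mul, Finset.prod_const_one, mul_one] at s4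
  rw [Finset.card_univ, Fintype.card_fin] at s4
  -- step 5
  have s5 : EE2 μ' lam' (fun q (h h' : Fin κ → Γ) =>
      ∏ ω ∈ (univ : Finset (Fin κ)).powerset, G q.1 (mix h h' ω)) =
      EE2 (unif Γ) lam' (fun p h h' =>
        ∏ ω ∈ (univ : Finset (Fin κ)).powerset,
          (ν (p + D • ∑ c : Fin κ, mix h h' ω c) - 1)) := by
    unfold EE2
    conv_lhs => rw [Fintype.sum_prod_type]
    refine Finset.sum_congr rfl fun p _ => ?_
    simp only [μ']
    rw [← Finset.sum_mul, ← Finset.mul_sum, hWWs, mul_one]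
  -- step 6
  have s6 := du_expand (unif Γ) lam'
    (fun (ω : Finset (Fin κ)) p h h' => ν (p + D • ∑ c : Fin κ, mix h h' ω c))
    η (fun S => hLF S)
  rw [Fintype.card_fin] at s6
  have s7 : |EE (unif Γ) lam' (fun p y => G p y * ∏ a, Y a p y)| ≤ ε / 2 := by
    rw [s3]
    have h1 : |EE μ' lam' (fun q y => G q.1 y * ∏ i ∈ (univ : Finset (Fin κ)), c i q y)| ^ (2 ^ κ)
        ≤ (ε / 2) ^ (2 ^ κ) := by
      have hev : Even (2 ^ κ) := (Nat.even_pow.2 ⟨even_two, by omega⟩)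
      rw [hev.pow_abs]
      refine s4.trans ?_
      rw [s5]
      refine (le_abs_self _).trans (s6.trans ?_)
      have h2 : (ε / 2) ^ (2 ^ κ) = 2 ^ (2 ^ κ) * (ε / 4) ^ (2 ^ κ) := by
        rw [← mul_pow]
        congr 1
        ring
      rw [h2]
      exact mul_le_mul_of_nonneg_left hη2 (by positivity)
    exact le_of_pow_le_pow_left₀ (by positivity) (by positivity) h1
  rw [s1]
  have h8 := abs_add_le
    (EE (unif Γ) lam' (fun p y => G p y * ∏ a, X a p y) -
      EE (unif Γ) lam' (fun p y => G p y * ∏ a, Y a p y))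
    (EE (unif Γ) lam' (fun p y => G p y * ∏ a, Y a p y))
  rw [sub_add_cancel] at h8
  linarith

end Pool.Agent.H2.NC
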