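import Pool.Agent.H2.NC.SieveT
import Pool.Agent.H16.GPS.Num.Compl
import Pool.Agent.H16.GPS.Num.Expand

/-!
JOB NC-EXPAND (MP_c183ae_nt). Expansion of the product of the squares, forms `α m * A + β m`.

Same statement and proof as `corr_expand` in `Pool/Agent/H16/GPS/Num/Expand.lean` (copy it; `expand_sq`,
`expand_squarefree_lcm` of that file do not mention the forms and may be used as they are; `completion` of `Compl` too: the
set `ℳ` of naturals is only an index set). If the `lcm`s are not pairwise coprime the inner sum over `A` is `0` (`vanish1`,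
hypothesis `hne`), otherwise `sieve_count1`.
-/

set_option autoImplicit false

open Finset

namespace Pool.Agent.H2.NC

open Pool.Agent.H16 Pool.Agent.H16.GPS

open Classical in
/-- the number of `A` for a fixed `δ` -/
noncomputable def expandCnt1 (Y : ℕ) (P : Finset ℕ) (α β : ℕ → ℕ) (ℳ : Finset ℕ) (D : ℕ → ℕ) : ℝ :=
  ∑ A ∈ Icc 1 Y, (if ∀ m ∈ ℳ, D m ∣ α m * A + β m ∧ ∀ p ∈ P, ¬ p ∣ α m * A + β m
    then (1 : ℝ) else 0)

open Classical in
lemma expand_sum1 (z R Y : ℕ) (P : Finset ℕ) (α β : ℕ → ℕ) (ℳ : Finset ℕ) (lam : ℕ → ℝ) :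
    (∑ A ∈ Icc 1 Y, ∏ m ∈ ℳ,
        (if ∀ p ∈ P, ¬ p ∣ α m * A + β m then (1 : ℝ) else 0) *
        (∑ d ∈ (Dr z R).filter (fun d => d ∣ α m * A + β m), lam d) ^ 2) =
      ∑ δ ∈ Fintype.piFinset (fun _ : ℳ => Dr z R ×ˢ Dr z R),
        (∏ m : ℳ, lam (δ m).1 * lam (δ m).2) * expandCnt1 Y P α β ℳ (expandD ℳ δ) := by
  unfold expandCnt1
  simp_rw [Finset.mul_sum]
  rw [Finset.sum_comm]
  refine Finset.sum_congr rfl fun A _ => ?_
  rw [← Finset.prod_coe_sort]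
  simp_rw [expand_sq, Finset.mul_sum]
  rw [Finset.prod_univ_sum]
  refine Finset.sum_congr rfl fun δ _ => ?_
  by_cases hall : ∀ m ∈ ℳ, expandD ℳ δ m ∣ α m * A + β m ∧ ∀ p ∈ P, ¬ p ∣ α m * A + β m
  · rw [if_pos hall, mul_one]
    refine Finset.prod_congr rfl fun m _ => ?_
    obtain ⟨h1, h2⟩ := hall m m.2
    rw [expandD_coe] at h1
    rw [if_pos h2, if_pos h1, one_mul]
  · rw [if_neg hall, mul_zero]
    push Not at hall
    obtain ⟨m, hm, hh⟩ := hall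
    refine Finset.prod_eq_zero (Finset.mem_univ (⟨m, hm⟩ : ℳ)) ?_
    by_cases hd : expandD ℳ δ m ∣ α m * A + β m
    · obtain ⟨p, hp, hpd⟩ := hh hd
      rw [if_neg, zero_mul]
      exact fun h => h p hp hpd
    · have : ¬ Nat.lcm (δ ⟨m, hm⟩).1 (δ ⟨m, hm⟩).2 ∣ α m * A + β m := by
        rwa [← expandD_coe ℳ δ ⟨m, hm⟩]
      rw [if_neg this, mul_zero]

theorem corr_expand1 (t k w z R Y : ℕ) (hk : 16 * t ≤ k) (hw : 100 ≤ Real.log w) (hwt : 2 * t ≤ w)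
    (hwz : w ≤ z) (P : Finset ℕ) (hP : ∀ p ∈ P, p.Prime ∧ w < p ∧ p ≤ z)
    (α β : ℕ → ℕ) (ℳ : Finset ℕ) (hℳ : #ℳ ≤ t)
    (hm : ∀ m ∈ ℳ, 0 < α m ∧ ∀ p, p.Prime → p ∣ α m → p ≤ w)
    (hne : ∀ m ∈ ℳ, ∀ m' ∈ ℳ, m ≠ m' → α m * β m' ≠ α m' * β m ∧ α m * β m' ≤ z)
    (lam : ℕ → ℝ) (hlam : ∀ d, |lam d| ≤ 1) :
    |(∑ A ∈ Icc 1 Y, ∏ m ∈ ℳ, (open Classical in
        (if ∀ p ∈ P, ¬ p ∣ α m * A + β m then (1 : ℝ) else 0) *
        (∑ d ∈ (Dr z R).filter (fun d => d ∣ α m * A + β m), lam d) ^ 2)) -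
      Y * (∏ p ∈ P, (1 - (#(ℳ.image (fun m => rt (α m) (β m) p)) : ℝ) / p)) *
        (∑ d ∈ Dr z R, ∑ d' ∈ Dr z R, lam d * lam d' / (Nat.lcm d d' : ℝ)) ^ #ℳ| ≤
      Y * (∏ p ∈ P, (1 - (#(ℳ.image (fun m => rt (α m) (β m) p)) : ℝ) / p)) *
        (∑ d ∈ Dr z R, ∑ d' ∈ Dr z R, 1 / (Nat.lcm d d' : ℝ)) ^ #ℳ *
        ((1 / 2) ^ k + 9 * (t : ℝ) ^ 2 / z) +
      (R : ℝ) ^ (2 * #ℳ) * (3 * Real.log z * (z : ℝ) ^ (2 * (4 * k + 5))) := by
  classical
  rw [expand_sum1]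
  set V : ℝ := ∏ p ∈ P, (1 - (#(ℳ.image (fun m => rt (α m) (β m) p)) : ℝ) / p) with hV
  set Q : ℝ := ∑ d ∈ Dr z R, ∑ d' ∈ Dr z R, lam d * lam d' / (Nat.lcm d d' : ℝ) with hQ
  set S : ℝ := ∑ d ∈ Dr z R, ∑ d' ∈ Dr z R, 1 / (Nat.lcm d d' : ℝ) with hS
  set E₀ : ℝ := 3 * Real.log z * (z : ℝ) ^ (2 * (4 * k + 5)) with hE₀
  have hw1 : 1 ≤ w := by
    rcases Nat.eq_zero_or_pos w with h0 | h0
    · subst h0
      norm_num at hw
    · exact h0
  have hz1 : 1 ≤ z := hw1.trans hwz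
  have hz1' : (1 : ℝ) ≤ z := by exact_mod_cast hz1
  have hE0 : 0 ≤ E₀ := by
    have := Real.log_nonneg hz1'
    positivity
  have hV0 : 0 ≤ V := by
    refine Finset.prod_nonneg fun p hp => ?_
    have hp0 : (0 : ℝ) < p := by exact_mod_cast (hP p hp).1.pos
    rw [sub_nonneg, div_le_one hp0]
    have h1 : #(ℳ.image (fun m => rt (α m) (β m) p)) ≤ #ℳ := Finset.card_image_le
    have h2 : #(ℳ.image (fun m => rt (α m) (β m) p)) ≤ p := by
      have := (hP p hp).2.1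
      omega
    exact_mod_cast h2
  -- members of Dr
  have hDr : ∀ d ∈ Dr z R, 1 ≤ d ∧ Squarefree d ∧ ∀ p, p.Prime → p ∣ d → z < p := by
    intro d hd
    unfold Dr at hd
    rw [Finset.mem_filter, Finset.mem_Icc] at hd
    exact ⟨hd.1.1, hd.2.1, hd.2.2⟩
  have hDrc : #(Dr z R) ≤ R := by
    unfold Dr
    refine (Finset.card_filter_le _ _).trans ?_
    simp
  set F := Fintype.piFinset (fun _ : ℳ => Dr z R ×ˢ Dr z R) with hF
  let cop : (ℳ → ℕ × ℕ) → Prop := fun δ => ∀ m m' : ℳ, m ≠ m' →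
            Nat.Coprime (Nat.lcm (δ m).1 (δ m).2) (Nat.lcm (δ m').1 (δ m').2)
  set Lm : (ℳ → ℕ × ℕ) → ℝ := fun δ => ∏ m : ℳ, lam (δ m).1 * lam (δ m).2 with hLm
  set I : (ℳ → ℕ × ℕ) → ℝ := fun δ => ∏ m : ℳ, 1 / (Nat.lcm (δ m).1 (δ m).2 : ℝ) with hI
  have hI0 : ∀ δ, 0 ≤ I δ := fun δ => Finset.prod_nonneg fun m _ => by positivity
  have hLm1 : ∀ δ, |Lm δ| ≤ 1 := by
    intro δ
    simp only [hLm]
    rw [Finset.abs_prod]
    refine Finset.prod_le_one (fun _ _ => abs_nonneg _) fun m _ => ?_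
    rw [abs_mul]
    exact mul_le_one₀ (hlam _) (abs_nonneg _) (hlam _)
  -- the pointwise estimate
  have hpt : ∀ δ ∈ F, |Lm δ * expandCnt1 Y P α β ℳ (expandD ℳ δ) -
      (Y * V) * (if cop δ then Lm δ * I δ else 0)| ≤ (1 / 2) ^ k * (Y * V) * I δ + E₀ := by
    intro δ hδ
    have hδm : ∀ m : ℳ, (δ m).1 ∈ Dr z R ∧ (δ m).2 ∈ Dr z R := by
      intro m
      have := Fintype.mem_piFinset.1 hδ m
      exact Finset.mem_product.1 this
    by_cases hcop : cop δ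
    · rw [if_pos hcop]
      have hDD : ∀ m ∈ ℳ, Squarefree (expandD ℳ δ m) ∧
          ∀ p, p.Prime → p ∣ expandD ℳ δ m → z < p := by
        intro m hmm
        have e := expandD_coe ℳ δ ⟨m, hmm⟩
        simp only at e
        rw [e]
        obtain ⟨h1, h2⟩ := hδm ⟨m, hmm⟩
        refine ⟨expand_squarefree_lcm (hDr _ h1).2.1 (hDr _ h2).2.1, fun p hp hpd => ?_⟩
        have : p ∣ (δ ⟨m, hmm⟩).1 * (δ ⟨m, hmm⟩).2 :=
          hpd.trans (Nat.lcm_dvd_mul _ _)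
        rcases (Nat.Prime.dvd_mul hp).1 this with h | h
        · exact (hDr _ h1).2.2 p hp h
        · exact (hDr _ h2).2.2 p hp h
      have hcc : ∀ m ∈ ℳ, ∀ m' ∈ ℳ, m ≠ m' →
          Nat.Coprime (expandD ℳ δ m) (expandD ℳ δ m') := by
        intro m hm1 m' hm2 hmm
        have e := expandD_coe ℳ δ ⟨m, hm1⟩
        have e' := expandD_coe ℳ δ ⟨m', hm2⟩
        simp only at e e'
        rw [e, e']
        exact hcop ⟨m, hm1⟩ ⟨m', hm2⟩ (fun h => hmm (congrArg Subtype.val h))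
      have hsc := sieve_count1 t k w z Y hk hw hwt hwz P hP α β ℳ hℳ hm (expandD ℳ δ) hDD hcc
      have hprod : (Y : ℝ) / (∏ m ∈ ℳ, (expandD ℳ δ m : ℝ)) = Y * I δ := by
        rw [← Finset.prod_coe_sort]
        simp only [hI, expandD_coe]
        rw [Finset.prod_div_distrib, Finset.prod_const_one]
        ring
      rw [hprod] at hsc
      change |expandCnt1 Y P α β ℳ (expandD ℳ δ) - Y * I δ * V| ≤
        (1 / 2) ^ k * (Y * I δ * V) + E₀ at hsc
      have e : Lm δ * expandCnt1 Y P α β ℳ (expandD ℳ δ) - (Y * V) * (Lm δ * I δ) =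
          Lm δ * (expandCnt1 Y P α β ℳ (expandD ℳ δ) - Y * I δ * V) := by ring
      rw [e, abs_mul]
      calc |Lm δ| * |expandCnt1 Y P α β ℳ (expandD ℳ δ) - Y * I δ * V|
          ≤ 1 * |expandCnt1 Y P α β ℳ (expandD ℳ δ) - Y * I δ * V| :=
            mul_le_mul_of_nonneg_right (hLm1 δ) (abs_nonneg _)
        _ ≤ (1 / 2) ^ k * (Y * I δ * V) + E₀ := by rw [one_mul]; exact hsc
        _ = _ := by ring
    · rw [if_neg hcop]
      have hz : expandCnt1 Y P α β ℳ (expandD ℳ δ) = 0 := by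
        simp only [cop] at hcop
        push Not at hcop
        obtain ⟨m, m', hmm, hnc⟩ := hcop
        obtain ⟨p, hp, hp1, hp2⟩ := Nat.Prime.not_coprime_iff_dvd.1 hnc
        have hpz : z < p := by
          have : p ∣ (δ m).1 * (δ m).2 := hp1.trans (Nat.lcm_dvd_mul _ _)
          rcases (Nat.Prime.dvd_mul hp).1 this with h | h
          · exact (hDr _ (hδm m).1).2.2 p hp h
          · exact (hDr _ (hδm m).2).2.2 p hp h
        unfold expandCnt1
        refine Finset.sum_eq_zero fun A hA => ?_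
        rw [if_neg]
        intro hall
        have h1 := (hall m m.2).1
        have h2 := (hall m' m'.2).1
        rw [expandD_coe] at h1 h2
        have hv : (m : ℕ) ≠ (m' : ℕ) := fun h => hmm (Subtype.ext h)
        exact vanish1 z (α m) (β m) (α m') (β m') A p hp hpz (hne m m.2 m' m'.2 hv).1
          (hne m m.2 m' m'.2 hv).2 (hne m' m'.2 m m.2 hv.symm).2 (hp1.trans h1) (hp2.trans h2)
      rw [hz]
      simp only [mul_zero, sub_zero, abs_zero]
      have := hI0 δ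
      positivity
  -- sums over δ
  have hsumI : ∑ δ ∈ F, I δ = S ^ #ℳ := by
    simp only [hI, hF]
    rw [← Finset.prod_univ_sum (fun _ : ℳ => Dr z R ×ˢ Dr z R)
      (fun _ x => 1 / (Nat.lcm x.1 x.2 : ℝ))]
    rw [Finset.prod_const, Finset.card_univ, Fintype.card_coe, hS, Finset.sum_product]
  have hcardF : (#F : ℝ) ≤ (R : ℝ) ^ (2 * #ℳ) := by
    rw [hF, Fintype.card_piFinset, Finset.prod_const, Finset.card_univ, Fintype.card_coe,
      Finset.card_product, pow_mul]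
    push_cast
    have hD' : (#(Dr z R) : ℝ) ≤ R := by exact_mod_cast hDrc
    refine pow_le_pow_left₀ (by positivity) ?_ _
    rw [sq]
    exact mul_le_mul hD' hD' (by positivity) (by positivity)
  have hcompl := completion t z R hz1 ℳ hℳ lam hlam
  have hmain : (∑ δ ∈ F, if cop δ then Lm δ * I δ else 0) =
      ∑ δ ∈ F, (if cop δ
        then ∏ m : ℳ, lam (δ m).1 * lam (δ m).2 / (Nat.lcm (δ m).1 (δ m).2 : ℝ) else 0) := by
    refine Finset.sum_congr rfl fun δ _ => ?_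
    by_cases hcop : cop δ
    · rw [if_pos hcop, if_pos hcop]
      simp only [hLm, hI]
      rw [← Finset.prod_mul_distrib]
      refine Finset.prod_congr rfl fun m _ => ?_
      ring
    · rw [if_neg hcop, if_neg hcop]
  have hcompl' : |(∑ δ ∈ F, if cop δ then Lm δ * I δ else 0) - Q ^ #ℳ| ≤
      9 * (t : ℝ) ^ 2 / z * S ^ #ℳ := by
    rw [hmain]
    convert hcompl using 4
  have hfirst : |∑ δ ∈ F, Lm δ * expandCnt1 Y P α β ℳ (expandD ℳ δ) -
      (Y * V) * ∑ δ ∈ F, (if cop δ then Lm δ * I δ else 0)| ≤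
      (1 / 2) ^ k * (Y * V) * S ^ #ℳ + (R : ℝ) ^ (2 * #ℳ) * E₀ := by
    rw [Finset.mul_sum, ← Finset.sum_sub_distrib]
    refine (Finset.abs_sum_le_sum_abs _ _).trans ?_
    refine (Finset.sum_le_sum hpt).trans ?_
    rw [Finset.sum_add_distrib, ← Finset.mul_sum, hsumI, Finset.sum_const, nsmul_eq_mul]
    have := mul_le_mul_of_nonneg_right hcardF hE0
    linarith
  have hYV : 0 ≤ (Y : ℝ) * V := by positivity
  have hsecond : |(Y * V) * ∑ δ ∈ F, (if cop δ then Lm δ * I δ else 0) - (Y * V) * Q ^ #ℳ| ≤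
      (Y * V) * (9 * (t : ℝ) ^ 2 / z * S ^ #ℳ) := by
    rw [← mul_sub, abs_mul, abs_of_nonneg hYV]
    exact mul_le_mul_of_nonneg_left hcompl' hYV
  have htri := abs_sub_le (∑ δ ∈ F, Lm δ * expandCnt1 Y P α β ℳ (expandD ℳ δ))
    ((Y * V) * ∑ δ ∈ F, (if cop δ then Lm δ * I δ else 0)) ((Y * V) * Q ^ #ℳ)
  refine htri.trans ((add_le_add hfirst hsecond).trans (le_of_eq ?_))
  ring

end Pool.Agent.H2.NC
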