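import Pool.Agent.H2.NC.Defs
import Pool.Agent.H16.GPS.Num.FleNu

/-!
JOB NC-FLENU (MP_c183ae_nt). The weight of the primes is below the majorant.

Adapt `Pool/Agent/H16/GPS/Num/FleNu.lean` with `w1, W1, P1, nu1` in place of `ww, WW, PP, nuN` (`fn_VP_erase`, `fn_VP_primes` may be
used as they are).
-/

set_option autoImplicit false

open Finset Filter

namespace Pool.Agent.H2.NC

open Pool.Agent.H16 Pool.Agent.H16.GPS

theorem fn1_totient (ℓ : ℝ) (e : ℕ) (hw : 2 ≤ w1 ℓ) :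
    ((W1 ℓ e).totient : ℝ) / (W1 ℓ e : ℝ) ≤ 2 / Real.log (w1 ℓ) := by
  have hpr : ∀ p ∈ (primesIoc 1 (w1 ℓ)).erase e, p.Prime := fun p hp =>
    (mem_primesIoc.mp (Finset.mem_of_mem_erase hp)).2.2
  have h1 : ((W1 ℓ e).totient : ℝ) / (W1 ℓ e : ℝ) = VP ((primesIoc 1 (w1 ℓ)).erase e) := by
    unfold W1 VP
    rw [totient_prod_primes _ hpr, Nat.cast_prod, ← Finset.prod_div_distrib]
    refine Finset.prod_congr rfl fun p hp => ?_
    have hp0 : (p : ℝ) ≠ 0 := by exact_mod_cast (hpr p hp).ne_zero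
    rw [sub_div, div_self hp0]
  rw [h1]
  calc VP ((primesIoc 1 (w1 ℓ)).erase e) ≤ 2 * VP (primesIoc 1 (w1 ℓ)) :=
        fn_VP_erase _ (fun p hp => (mem_primesIoc.mp hp).2.2) e
    _ = 2 * Vp (w1 ℓ) := by rw [fn_VP_primes _ (by omega)]
    _ ≤ 2 * (1 / Real.log (w1 ℓ)) := by
        have := Vp_le (w1 ℓ) hw
        linarith
    _ = _ := by ring

theorem fn1_VP_pos (K : ℕ) (η ℓ : ℝ) (e : ℕ) : 0 < VP (P1 K η ℓ e) := by
  unfold VP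
  refine Finset.prod_pos fun p hp => one_sub_inv_pos ?_
  unfold P1 at hp
  exact (mem_primesIoc.mp (Finset.mem_of_mem_erase hp)).2.2

theorem fn1_VP_P1 (c : ℝ) (hc : 0 < c) (hV : ∀ n : ℕ, 2 ≤ n → c / Real.log n ≤ Vp n)
    (K : ℕ) (η ℓ : ℝ) (e : ℕ) (hw : 2 ≤ w1 ℓ) (hwz : w1 ℓ ≤ zz K η ℓ) :
    VP (P1 K η ℓ e) ≤ 2 * Real.log (w1 ℓ) / (c * Real.log (zz K η ℓ)) := by
  have hlw : 0 < Real.log (w1 ℓ) := Real.log_pos (by exact_mod_cast hw)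
  have hlz : 0 < Real.log (zz K η ℓ) := Real.log_pos (by exact_mod_cast (lt_of_lt_of_le hw hwz))
  have h1 : VP (P1 K η ℓ e) ≤ 2 * VP (primesIoc (w1 ℓ) (zz K η ℓ)) :=
    fn_VP_erase _ (fun p hp => (mem_primesIoc.mp hp).2.2) e
  have h2 : Vp (w1 ℓ) * VP (primesIoc (w1 ℓ) (zz K η ℓ)) = Vp (zz K η ℓ) := Vp_mul _ _ hwz
  have h3 : VP (primesIoc (w1 ℓ) (zz K η ℓ)) = Vp (zz K η ℓ) / Vp (w1 ℓ) := by
    rw [eq_div_iff (Vp_pos _).ne', mul_comm]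
    exact h2
  have h4 : Vp (zz K η ℓ) / Vp (w1 ℓ) ≤
      (1 / Real.log (zz K η ℓ)) / (c / Real.log (w1 ℓ)) :=
    div_le_div₀ (by positivity) (Vp_le _ (hw.trans hwz)) (by positivity) (hV _ hw)
  calc VP (P1 K η ℓ e) ≤ 2 * (Vp (zz K η ℓ) / Vp (w1 ℓ)) := by rw [← h3]; exact h1
    _ ≤ 2 * ((1 / Real.log (zz K η ℓ)) / (c / Real.log (w1 ℓ))) := by linarith
    _ = _ := by
        field_simp

theorem fn1_nu_nonneg (K : ℕ) (η ℓ : ℝ) (e n : ℕ) : 0 ≤ nu1 K η ℓ e n := by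
  unfold nu1
  have h1 : 0 ≤ GG (zz K η ℓ) (RR η ℓ) := by
    unfold GG
    exact Finset.sum_nonneg fun _ _ => by positivity
  have h2 := (fn1_VP_pos K η ℓ e).le
  refine mul_nonneg (mul_nonneg (div_nonneg h1 h2) ?_) (sq_nonneg _)
  split_ifs <;> norm_num

theorem fn1_nu_prime (K : ℕ) (η ℓ : ℝ) (e n : ℕ) (hR : 1 ≤ RR η ℓ) (hzR : zz K η ℓ ≤ RR η ℓ)
    (hn : n.Prime) (hRn : RR η ℓ < n) :
    nu1 K η ℓ e n = GG (zz K η ℓ) (RR η ℓ) / VP (P1 K η ℓ e) := by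
  classical
  unfold nu1
  rw [if_pos, mul_one]
  · have h1 : (Dr (zz K η ℓ) (RR η ℓ)).filter (fun d => d ∣ n) = {1} := by
      ext d
      rw [Finset.mem_filter, Finset.mem_singleton, mem_Dr]
      constructor
      · rintro ⟨⟨h1, h2, _⟩, h3⟩
        rcases (Nat.dvd_prime hn).1 h3 with h4 | h4
        · exact h4
        · omega
      · rintro rfl
        refine ⟨⟨le_rfl, hR, squarefree_one, fun p hp hp1 => ?_⟩, one_dvd _⟩
        exact absurd (Nat.dvd_one.1 hp1) hp.one_lt.ne'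
    have h2 : ∑ d ∈ (Dr (zz K η ℓ) (RR η ℓ)).filter (fun d => d ∣ n),
        lamS (zz K η ℓ) (RR η ℓ) d = 1 := by
      rw [h1, Finset.sum_singleton, lamS_one _ _ hR]
    have h3 : (∑ d ∈ (Dr (zz K η ℓ) (RR η ℓ)).filter (fun d => d ∣ n),
        lamS (zz K η ℓ) (RR η ℓ) d) ^ 2 = 1 := by rw [h2, one_pow]
    rw [h3, mul_one]
  · intro p hp hpn
    unfold P1 at hp
    have h1 := mem_primesIoc.mp (Finset.mem_of_mem_erase hp)
    rcases (Nat.dvd_prime hn).1 hpn with h2 | h2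
    · exact h1.2.2.one_lt.ne' h2
    · omega

/-- the parameters for large `ℓ` -/
theorem fn1_params (K : ℕ) (η : ℝ) (hη0 : 0 < η) (hη1 : η ≤ 1) : ∀ᶠ ℓ : ℝ in atTop,
    0 < ℓ ∧ 2 ≤ w1 ℓ ∧ w1 ℓ ≤ zz K η ℓ ∧ zz K η ℓ ≤ RR η ℓ ∧ 2 ≤ RR η ℓ ∧
      η * ℓ / 2 ≤ Real.log (RR η ℓ) := by
  filter_upwards [fn_params K η hη0 hη1,
    Real.tendsto_log_atTop.eventually (eventually_ge_atTop (2 : ℝ))] with ℓ h1 h2
  obtain ⟨h3, _, h5, h6, h7, h8⟩ := h1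
  refine ⟨h3, ?_, ?_, h6, h7, h8⟩
  · unfold w1
    apply Nat.le_floor
    push_cast
    exact h2
  · refine le_trans ?_ h5
    unfold w1 ww
    apply Nat.floor_le_floor
    exact le_self_pow₀ (by linarith) (by norm_num)

theorem f_le_nu1 (K : ℕ) (η : ℝ) (hη0 : 0 < η) (hη1 : η ≤ 1) : ∃ c₀ : ℝ, 0 < c₀ ∧
    ∀ᶠ ℓ : ℝ in atTop, ∀ (e n : ℕ) (ℓ' : ℝ), (n : ℝ) ≤ Real.exp (2 * ℓ) →
      c₀ * (((W1 ℓ e).totient : ℝ) / (W1 ℓ e : ℝ) * aw ℓ' (RR η ℓ) n) ≤ nu1 K η ℓ e n := by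
  obtain ⟨c1, hc1, hG⟩ := GG_lower
  obtain ⟨c2, hc2, hV⟩ := Vp_ge
  refine ⟨c1 * c2 * η / 16, by positivity, ?_⟩
  filter_upwards [fn1_params K η hη0 hη1] with ℓ hℓ e n ℓ' hn
  obtain ⟨hℓ0, hw2, hwz, hzR, hR2, hlR⟩ := hℓ
  by_cases haw : n.Prime ∧ RR η ℓ < n
  · rw [fn1_nu_prime K η ℓ e n (by omega) hzR haw.1 haw.2]
    have hn0 : (0 : ℝ) < n := by exact_mod_cast haw.1.pos
    have hlw : 0 < Real.log (w1 ℓ) := Real.log_pos (by exact_mod_cast hw2)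
    have hlz : 0 < Real.log (zz K η ℓ) := Real.log_pos (by exact_mod_cast (lt_of_lt_of_le hw2 hwz))
    have h1 : aw ℓ' (RR η ℓ) n ≤ 2 * ℓ := by
      unfold aw
      rw [if_pos haw]
      have h2 : Real.log n ≤ 2 * ℓ := by
        calc Real.log n ≤ Real.log (Real.exp (2 * ℓ)) := Real.log_le_log hn0 hn
          _ = 2 * ℓ := Real.log_exp _
      have h3 := tent_le_one (Real.exp ℓ' / 3) n (by positivity) hn0
      have h4 := tent_nonneg (Real.exp ℓ' / 3) n (by positivity) hn0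
      have h5 : 0 ≤ Real.log n := Real.log_natCast_nonneg n
      nlinarith
    have h2 := fn1_totient ℓ e hw2
    have h3 : 0 ≤ aw ℓ' (RR η ℓ) n := aw_nonneg _ _ _
    have h4 : ((W1 ℓ e).totient : ℝ) / (W1 ℓ e : ℝ) * aw ℓ' (RR η ℓ) n ≤
        2 / Real.log (w1 ℓ) * (2 * ℓ) :=
      mul_le_mul h2 h1 h3 (by positivity)
    have h5 := fn1_VP_P1 c2 hc2 hV K η ℓ e hw2 hwz
    have h6 := fn1_VP_pos K η ℓ e
    have h7 := hG (zz K η ℓ) (RR η ℓ) (hw2.trans hwz) hR2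
    calc c1 * c2 * η / 16 * (((W1 ℓ e).totient : ℝ) / (W1 ℓ e : ℝ) * aw ℓ' (RR η ℓ) n)
        ≤ c1 * c2 * η / 16 * (2 / Real.log (w1 ℓ) * (2 * ℓ)) :=
          mul_le_mul_of_nonneg_left h4 (by positivity)
      _ = (c1 * (η * ℓ / 2) / Real.log (zz K η ℓ)) /
            (2 * Real.log (w1 ℓ) / (c2 * Real.log (zz K η ℓ))) := by
          field_simp
          ring
      _ ≤ (c1 * Real.log (RR η ℓ) / Real.log (zz K η ℓ)) / VP (P1 K η ℓ e) := by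
          apply div_le_div₀ _ _ h6 h5
          · have : 0 ≤ Real.log (RR η ℓ) := Real.log_natCast_nonneg _
            positivity
          · gcongr
      _ ≤ _ := div_le_div_of_nonneg_right h7 h6.le
  · have h0 : aw ℓ' (RR η ℓ) n = 0 := by
      unfold aw
      rw [if_neg haw]
    rw [h0, mul_zero, mul_zero]
    exact fn1_nu_nonneg K η ℓ e n

end Pool.Agent.H2.NC
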