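import Pool.Agent.H2.NC.Defs
import Pool.Agent.H16.GPS.Rel.Laws

/-!
JOB NC-LAW (MP_c183ae_nt). The uniform law on `{0, ..., H-1}` in `ZMod Y`.

PROOFS. `lamH` is the law of `ξ ↦ (ξ : ZMod Y)`, `ξ : Fin H` uniform; see `Pool/Agent/H16/GPS/Rel/Laws.lean` (`lawU_isPW`, `lawU_eq_sum`) and
`Pool/Agent/H16/GPS/Num/Box.lean` (`bx_abs`) for the technique. `lamH_atom`: `ξ ↦ (ξ : ZMod Y)` is injective on `{0..H-1}` for `H ≤ Y`.
`lamH_near`: `y = (k : ZMod Y)`, `k < H'`, `v = c k`, `|v| ≤ D H'`; both functions are push-forwards, divided by `H`, of the counting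
measures of the intervals `{0..H-1}` and `{v..v+H-1}` of `ℤ`, whose symmetric difference has at most `2 |v|` elements.
`inj_of_mod`: `c` divides `D`, `D` is coprime to `Y = D u + 1`, so `c` is a unit of `ZMod Y`.
-/

set_option autoImplicit false

open Finset

namespace Pool.Agent.H2.NC

open Pool.Agent.H16 Pool.Agent.H16.GPS

theorem lamH_isPW (Y H : ℕ) [NeZero Y] (hH : 1 ≤ H) : IsPW (lamH Y H) := by
  have : Nonempty (Fin H) := ⟨⟨0, hH⟩⟩
  exact lawU_isPW _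

theorem law_inj (Y H : ℕ) (hY : H ≤ Y) :
    Function.Injective (fun ξ : Fin H => ((ξ : ℕ) : ZMod Y)) := by
  intro a b hab
  have h1 : (a : ℕ) ≡ (b : ℕ) [MOD Y] := (ZMod.natCast_eq_natCast_iff _ _ _).1 hab
  apply Fin.ext
  exact Nat.ModEq.eq_of_lt_of_lt h1 (a.2.trans_le hY) (b.2.trans_le hY)

theorem lamH_atom (Y H : ℕ) [NeZero Y] (hH : 1 ≤ H) (hY : H ≤ Y) (g : ZMod Y) :
    lamH Y H g ≤ 1 / (H : ℝ) := by
  have hH0 : (0 : ℝ) < H := by exact_mod_cast hH
  unfold lamH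
  rw [lawU_eq_sum, Fintype.card_fin]
  refine div_le_div_of_nonneg_right ?_ hH0.le
  rw [← Finset.sum_filter, Finset.sum_const, nsmul_eq_mul, mul_one]
  have h1 : #(univ.filter (fun ξ : Fin H => ((ξ : ℕ) : ZMod Y) = g)) ≤ 1 := by
    rw [Finset.card_le_one]
    intro a ha b hb
    rw [mem_filter] at ha hb
    exact law_inj Y H hY (ha.2.trans hb.2.symm)
  exact_mod_cast h1

theorem lamH_support (Y H : ℕ) (g : ZMod Y) (h : lamH Y H g ≠ 0) :
    ∃ k : ℕ, k < H ∧ (k : ZMod Y) = g := by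
  classical
  by_contra hc
  push Not at hc
  apply h
  unfold lamH
  rw [lawU_eq_sum, Finset.sum_eq_zero, zero_div]
  intro ξ _
  exact if_neg (hc ξ ξ.2)

/-- `lamH` as a sum over an interval of integers, with a shift -/
theorem law_int (Y H : ℕ) (v : ℤ) (g : ZMod Y) : lamH Y H (g - (v : ZMod Y)) =
    (∑ z ∈ Ico v (v + H), if (z : ZMod Y) = g then (1 : ℝ) else 0) / H := by
  classical
  unfold lamH
  rw [lawU_eq_sum, Fintype.card_fin]
  congr 1
  rw [Finset.sum_fin_eq_sum_range]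
  symm
  apply Finset.sum_bij' (fun z _ => (z - v).toNat) (fun k _ => v + (k : ℤ))
  · intro z hz
    rw [mem_Ico] at hz
    rw [mem_range]
    omega
  · intro k hk
    rw [mem_range] at hk
    rw [mem_Ico]
    omega
  · intro z hz
    rw [mem_Ico] at hz
    omega
  · intro k _
    omega
  · intro z hz
    rw [mem_Ico] at hz
    rw [dif_pos (by omega)]
    have h1 : (((z - v).toNat : ℕ) : ZMod Y) = (z : ZMod Y) - v := by
      have h2 : (((z - v).toNat : ℕ) : ℤ) = z - v := Int.toNat_of_nonneg (by omega)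
      calc (((z - v).toNat : ℕ) : ZMod Y) = ((((z - v).toNat : ℕ) : ℤ) : ZMod Y) := by
            rw [Int.cast_natCast]
        _ = (z : ZMod Y) - v := by rw [h2]; push_cast; rfl
    simp only [h1]
    congr 1
    rw [eq_iff_iff]
    exact sub_left_inj.symm

theorem lamH_near (Y H H' D : ℕ) [NeZero Y] (hH : 1 ≤ H) (hH' : 1 ≤ H') (τ : ℝ)
    (hτ : 2 * (D : ℝ) * H' / H ≤ τ) : NearD D (lamH Y H) (lamH Y H') τ := by
  classical
  have hH0 : (0 : ℝ) < H := by exact_mod_cast hH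
  intro y hy c hc
  obtain ⟨k, hk, rfl⟩ := lamH_support Y H' y hy
  refine le_trans ?_ hτ
  obtain ⟨v, hv⟩ : ∃ v : ℤ, v = c * k := ⟨_, rfl⟩
  have hvy : c • (k : ZMod Y) = (v : ZMod Y) := by
    rw [zsmul_eq_mul, hv]
    push_cast
    rfl
  rw [hvy]
  have hvabs : |v| ≤ D * H' := by
    rw [hv, abs_mul]
    have h1 : |(k : ℤ)| ≤ H' := by
      rw [abs_of_nonneg (by positivity)]
      exact_mod_cast hk.le
    exact mul_le_mul hc h1 (abs_nonneg _) (by positivity)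
  have h1 : ∀ g : ZMod Y, |lamH Y H g - lamH Y H (g - (v : ZMod Y))| ≤
      ((∑ z ∈ Ico (0 : ℤ) H \ Ico v (v + H), if (z : ZMod Y) = g then (1 : ℝ) else 0) +
        ∑ z ∈ Ico v (v + H) \ Ico (0 : ℤ) H, if (z : ZMod Y) = g then (1 : ℝ) else 0) / H := by
    intro g
    have e0 := law_int Y H 0 g
    rw [Int.cast_zero, sub_zero, zero_add] at e0
    rw [e0, law_int Y H v g, ← sub_div, abs_div, abs_of_pos hH0]
    refine div_le_div_of_nonneg_right ?_ hH0.le
    obtain ⟨f, hf⟩ : ∃ f : ℤ → ℝ, f = fun z : ℤ => if ((z : ℤ) : ZMod Y) = g then (1 : ℝ) else 0 :=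
      ⟨_, rfl⟩
    have hf0 : ∀ z, 0 ≤ f z := by
      intro z
      rw [hf]
      dsimp only
      split_ifs <;> norm_num
    have e1 : ∀ I : Finset ℤ, (∑ z ∈ I, if (z : ZMod Y) = g then (1 : ℝ) else 0) = ∑ z ∈ I, f z := by
      intro I
      rw [hf]
    rw [e1, e1, e1, e1]
    have e2 : ∑ z ∈ Ico (0 : ℤ) H, f z - ∑ z ∈ Ico v (v + H), f z =
        ∑ z ∈ Ico (0 : ℤ) H \ Ico v (v + H), f z - ∑ z ∈ Ico v (v + H) \ Ico (0 : ℤ) H, f z := by
      rw [Finset.sum_sdiff_sub_sum_sdiff]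
    rw [e2]
    have p1 : 0 ≤ ∑ z ∈ Ico (0 : ℤ) H \ Ico v (v + H), f z := Finset.sum_nonneg fun z _ => hf0 z
    have p2 : 0 ≤ ∑ z ∈ Ico v (v + H) \ Ico (0 : ℤ) H, f z := Finset.sum_nonneg fun z _ => hf0 z
    rw [abs_le]
    constructor <;> linarith
  refine (Finset.sum_le_sum fun g _ => h1 g).trans ?_
  rw [← Finset.sum_div]
  refine div_le_div_of_nonneg_right ?_ hH0.le
  rw [Finset.sum_add_distrib, Finset.sum_comm, Finset.sum_comm (s := univ)
    (t := Ico v (v + H) \ Ico (0 : ℤ) H)]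
  have h2 : ∀ z : ℤ, ∑ g : ZMod Y, (if (z : ZMod Y) = g then (1 : ℝ) else 0) = 1 := by
    intro z
    rw [Finset.sum_ite_eq]
    simp
  rw [Finset.sum_congr rfl fun z _ => h2 z, Finset.sum_congr rfl fun z _ => h2 z,
    Finset.sum_const, Finset.sum_const, nsmul_eq_mul, nsmul_eq_mul, mul_one, mul_one]
  have key : ∀ (S : Finset ℤ) (a b : ℤ), S ⊆ Ico a b → b - a = |v| → (#S : ℝ) ≤ |(v : ℝ)| := by
    intro S a b hS hab
    have h4 : #S ≤ (b - a).toNat := by
      have := Finset.card_le_card hS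
      rwa [Int.card_Ico] at this
    have h5 : ((b - a).toNat : ℤ) = |v| := by
      rw [hab]
      exact Int.toNat_of_nonneg (abs_nonneg v)
    have h6 : (#S : ℤ) ≤ |v| := by
      rw [← h5]
      exact_mod_cast h4
    exact_mod_cast h6
  have h3 : (#(Ico (0 : ℤ) H \ Ico v (v + H)) : ℝ) ≤ |(v : ℝ)| ∧
      (#(Ico v (v + H) \ Ico (0 : ℤ) H) : ℝ) ≤ |(v : ℝ)| := by
    rcases le_or_gt 0 v with h | h
    · refine ⟨key _ 0 v ?_ (by rw [abs_of_nonneg h]; ring),
        key _ H (v + H) ?_ (by rw [abs_of_nonneg h]; ring)⟩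
      · intro z hz
        rw [mem_sdiff, mem_Ico, mem_Ico] at hz
        rw [mem_Ico]
        omega
      · intro z hz
        rw [mem_sdiff, mem_Ico, mem_Ico] at hz
        rw [mem_Ico]
        omega
    · refine ⟨key _ (v + H) H ?_ (by rw [abs_of_neg h]; ring),
        key _ v 0 ?_ (by rw [abs_of_neg h]; ring)⟩
      · intro z hz
        rw [mem_sdiff, mem_Ico, mem_Ico] at hz
        rw [mem_Ico]
        omega
      · intro z hz
        rw [mem_sdiff, mem_Ico, mem_Ico] at hz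
        rw [mem_Ico]
        omega
  have h4 : |(v : ℝ)| ≤ D * H' := by exact_mod_cast hvabs
  linarith [h3.1, h3.2]

theorem inj_of_mod (Y D u : ℕ) (hD : 0 < D) (hY : Y = D * u + 1) (c : ℤ) (hc : c ∣ (D : ℤ)) :
    Function.Injective (fun g : ZMod Y => c • g) := by
  obtain ⟨c', hc'⟩ := hc
  have h1 : ((D : ℤ) : ZMod Y) * ((u : ℤ) : ZMod Y) = -1 := by
    have h2 : ((D * u + 1 : ℕ) : ZMod Y) = 0 := by
      rw [← hY]
      exact ZMod.natCast_self Y
    push_cast at h2 ⊢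
    exact eq_neg_of_add_eq_zero_left h2
  intro g g' hg
  simp only [zsmul_eq_mul] at hg
  have h3 : (-(c' : ZMod Y) * ((u : ℤ) : ZMod Y)) * (c : ZMod Y) = 1 := by
    have h4 : (-(c' : ZMod Y) * ((u : ℤ) : ZMod Y)) * (c : ZMod Y) =
        -(((c * c' : ℤ) : ZMod Y) * ((u : ℤ) : ZMod Y)) := by
      push_cast
      ring
    rw [h4, ← hc', h1, neg_neg]
  calc g = (-(c' : ZMod Y) * ((u : ℤ) : ZMod Y)) * (c : ZMod Y) * g := by rw [h3, one_mul]
    _ = (-(c' : ZMod Y) * ((u : ℤ) : ZMod Y)) * ((c : ZMod Y) * g) := by ring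
    _ = (-(c' : ZMod Y) * ((u : ℤ) : ZMod Y)) * ((c : ZMod Y) * g') := by rw [hg]
    _ = g' := by rw [← mul_assoc, h3, one_mul]

end Pool.Agent.H2.NC
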