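import Pool.Agent.H2.NC.Defs
import Pool.Agent.H16.GPS.Rel.Coin2

/-!
JOB NC-LFQ (MP_c183ae_nt). The linear forms condition for cubes, from correlations.

PROOF. Compare `lfd_of_corr` in `Pool/Agent/H16/GPS/Rel/Coin2.lean` and the file `LfT` of this folder. `S` is a set of subsets `ω` of
`Fin κ`, `#S ≤ 2^κ ≤ κ 2^κ`. For `y, y'` with coordinates in the support of `lam'` the shifts `D • ∑ c, mix y y' ω c` are in `𝒮`. If they are
distinct for distinct `ω ∈ S` use `hcorr` with the set of the pairs `(θ, shift)`; otherwise `D • (..) = D • (..)`, so by `hinj`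
`∑ c, mix y y' ω c = ∑ c, mix y y' ω' c`, `ω ≠ ω'`: an equation which determines one coordinate of `y'`: probability `≤ a`.
-/

set_option autoImplicit false

open Finset

namespace Pool.Agent.H2.NC

open Pool.Agent.H16 Pool.Agent.H16.GPS

/-- the points are distinct: average by `hcorr` -/
private theorem lfq_inj {J : Type} {Θ Γ : Type} [Fintype Γ] [AddCommGroup Γ] (el : Θ → ℤ) (θ : Θ)
    (𝒮 : Set Γ) (ν : Θ × Γ → ℝ) (ε : ℝ) (t : ℕ) (hcorr : CorrH el 𝒮 ν t ε) (S : Finset J)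
    (hS : #S ≤ t) (f : J → Γ) (hfS : ∀ ω ∈ S, f ω ∈ 𝒮)
    (hf : ∀ ω ∈ S, ∀ ω' ∈ S, ω ≠ ω' → f ω ≠ f ω') :
    |∑ p : Γ, unif Γ p * ∏ ω ∈ S, ν (θ, p + f ω) - 1| ≤ ε := by
  classical
  have h1 := hcorr (S.image fun ω => (θ, f ω)) (Finset.card_image_le.trans hS) (by
      intro s hs
      obtain ⟨ω, hω, rfl⟩ := Finset.mem_image.1 hs
      exact hfS ω hω) (by
      intro s hs s' hs' _ h2
      obtain ⟨ω, hω, rfl⟩ := Finset.mem_image.1 hs
      obtain ⟨ω', hω', rfl⟩ := Finset.mem_image.1 hs'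
      exact Prod.ext rfl h2)
  have h2 : ∀ p : Γ, ∏ s ∈ S.image (fun ω => (θ, f ω)), ν (s.1, p + s.2) =
      ∏ ω ∈ S, ν (θ, p + f ω) := by
    intro p
    refine Finset.prod_image ?_
    intro ω hω ω' hω' he
    by_contra hne
    exact hf ω hω ω' hω' hne (Prod.ext_iff.1 he).2
  simp only [h2] at h1
  have h3 : ∑ p : Γ, unif Γ p * ∏ ω ∈ S, ν (θ, p + f ω) =
      (∑ p : Γ, ∏ ω ∈ S, ν (θ, p + f ω)) / (Fintype.card Γ : ℝ) := by
    rw [Finset.sum_div]
    refine Finset.sum_congr rfl fun p _ => ?_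
    rw [unif]
    ring
  rw [h3]
  exact h1

/-- trivial bound for the average -/
private theorem lfq_triv {J : Type} {Θ Γ : Type} [Fintype Γ]
    [AddCommGroup Γ] (θ : Θ) (ν : Θ × Γ → ℝ) (Bd : ℝ) (hBd : 1 ≤ Bd)
    (hν : ∀ p, 0 ≤ ν p ∧ ν p ≤ Bd) (t : ℕ) (S : Finset J) (hS : #S ≤ t) (f : J → Γ) :
    |∑ p : Γ, unif Γ p * ∏ ω ∈ S, ν (θ, p + f ω) - 1| ≤ Bd ^ t + 1 := by
  have hc : (0 : ℝ) < (Fintype.card Γ : ℝ) := by
    have : Nonempty Γ := ⟨0⟩
    exact_mod_cast Fintype.card_pos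
  have h1 : ∀ p : Γ, 0 ≤ ∏ ω ∈ S, ν (θ, p + f ω) ∧ ∏ ω ∈ S, ν (θ, p + f ω) ≤ Bd ^ t := by
    intro p
    refine ⟨Finset.prod_nonneg fun ω _ => (hν _).1, ?_⟩
    calc ∏ ω ∈ S, ν (θ, p + f ω) ≤ ∏ _ω ∈ S, Bd :=
          Finset.prod_le_prod (fun ω _ => (hν _).1) fun ω _ => (hν _).2
      _ = Bd ^ #S := by rw [Finset.prod_const]
      _ ≤ Bd ^ t := pow_le_pow_right₀ hBd hS
  have h0 : 0 ≤ ∑ p : Γ, unif Γ p * ∏ ω ∈ S, ν (θ, p + f ω) := by
    refine Finset.sum_nonneg fun p _ => mul_nonneg ?_ (h1 p).1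
    rw [unif]
    positivity
  have h2 : ∑ p : Γ, unif Γ p * ∏ ω ∈ S, ν (θ, p + f ω) ≤ Bd ^ t := by
    calc ∑ p : Γ, unif Γ p * ∏ ω ∈ S, ν (θ, p + f ω)
        ≤ ∑ p : Γ, (1 / (Fintype.card Γ : ℝ)) * Bd ^ t := by
          refine Finset.sum_le_sum fun p _ => ?_
          rw [unif]
          exact mul_le_mul_of_nonneg_left (h1 p).2 (by positivity)
      _ = Bd ^ t := by
          rw [Finset.sum_const, Finset.card_univ, nsmul_eq_mul]
          field_simp
  rw [abs_le]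
  constructor
  · have : 0 ≤ Bd ^ t := by positivity
    linarith
  · linarith

/-- the equation `N • (x + R) = X` has small weight -/
private theorem lfq_atom {Γ : Type} [Fintype Γ] [AddCommGroup Γ] [DecidableEq Γ] (lam' : Γ → ℝ)
    (hl : IsPW lam') (a : ℝ) (ha : ∀ g, lam' g ≤ a) (N : ℕ)
    (hinj : Function.Injective (fun g : Γ => N • g)) (R X : Γ) :
    ∑ x, lam' x * (if N • (x + R) = X then 1 else 0) ≤ a := by
  have ha0 : 0 ≤ a := (hl.1 0).trans (ha 0)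
  by_cases h : ∃ x, N • (x + R) = X
  · obtain ⟨x₀, hx₀⟩ := h
    rw [Finset.sum_eq_single x₀]
    · rw [if_pos hx₀, mul_one]
      exact ha x₀
    · intro x _ hx
      rw [if_neg, mul_zero]
      intro hx'
      apply hx
      have h2 : (fun g : Γ => N • g) (x + R) = (fun g : Γ => N • g) (x₀ + R) := hx'.trans hx₀.symm
      exact add_right_cancel (hinj h2)
    · intro hx
      exact absurd (Finset.mem_univ _) hx
  · push Not at h
    rw [Finset.sum_eq_zero fun x _ => by rw [if_neg (h x), mul_zero]]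
    exact ha0

private theorem lfq_mix_mem {κ : ℕ} {Γ : Type} [AddCommGroup Γ] (ω : Finset (Fin κ))
    (y y' : Fin κ → Γ) (i : Fin κ) (x : Γ) (hi : i ∈ ω) :
    ∑ c, mix y (Function.update y' i x) ω c = x + ∑ c ∈ univ.erase i, mix y y' ω c := by
  rw [← Finset.add_sum_erase univ _ (Finset.mem_univ i)]
  congr 1
  · simp [mix, hi]
  · refine Finset.sum_congr rfl fun c hc => ?_
    have hci : c ≠ i := Finset.ne_of_mem_erase hc
    simp only [mix, Function.update_of_ne hci]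

private theorem lfq_mix_notMem {κ : ℕ} {Γ : Type} [AddCommGroup Γ] (ω : Finset (Fin κ))
    (y y' : Fin κ → Γ) (i : Fin κ) (x : Γ) (hi : i ∉ ω) :
    mix y (Function.update y' i x) ω = mix y y' ω := by
  funext c
  by_cases hci : c = i
  · subst hci
    simp [mix, hi]
  · simp only [mix, Function.update_of_ne hci]

/-- the collision probability, ordered case -/
private theorem lfq_coll {κ : ℕ} {Γ : Type} [Fintype Γ] [AddCommGroup Γ] [DecidableEq Γ]
    (lam' : Γ → ℝ) (hl : IsPW lam') (a : ℝ) (ha : ∀ g, lam' g ≤ a) (N : ℕ)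
    (hinj : Function.Injective (fun g : Γ => N • g)) (ω ω' : Finset (Fin κ)) (i : Fin κ)
    (hi : i ∈ ω) (hi' : i ∉ ω') :
    ∑ y : Fin κ → Γ, (∏ c, lam' (y c)) * ∑ y' : Fin κ → Γ, (∏ c, lam' (y' c)) *
      (if N • ∑ c, mix y y' ω c = N • ∑ c, mix y y' ω' c then 1 else 0) ≤ a := by
  have hW : ∀ y : Fin κ → Γ, 0 ≤ ∏ c, lam' (y c) := fun y => Finset.prod_nonneg fun c _ => hl.1 _
  have h1 : ∀ y : Fin κ → Γ, ∑ y' : Fin κ → Γ, (∏ c, lam' (y' c)) *
      (if N • ∑ c, mix y y' ω c = N • ∑ c, mix y y' ω' c then (1 : ℝ) else 0) ≤ a := by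
    intro y
    rw [sum_pi_update lam' hl i (fun y' : Fin κ → Γ =>
      if N • ∑ c, mix y y' ω c = N • ∑ c, mix y y' ω' c then (1 : ℝ) else 0)]
    calc ∑ y' : Fin κ → Γ, (∏ c, lam' (y' c)) * ∑ x, lam' x *
          (if N • ∑ c, mix y (Function.update y' i x) ω c =
            N • ∑ c, mix y (Function.update y' i x) ω' c then (1 : ℝ) else 0)
        ≤ ∑ y' : Fin κ → Γ, (∏ c, lam' (y' c)) * a := by
          refine Finset.sum_le_sum fun y' _ => mul_le_mul_of_nonneg_left ?_ (hW y')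
          simp only [lfq_mix_mem ω y y' i _ hi, lfq_mix_notMem ω' y y' i _ hi']
          exact lfq_atom lam' hl a ha N hinj _ _
      _ = a := by rw [← Finset.sum_mul, sum_pi_weight lam' hl, one_mul]
  calc ∑ y : Fin κ → Γ, (∏ c, lam' (y c)) * ∑ y' : Fin κ → Γ, (∏ c, lam' (y' c)) *
      (if N • ∑ c, mix y y' ω c = N • ∑ c, mix y y' ω' c then (1 : ℝ) else 0)
      ≤ ∑ y : Fin κ → Γ, (∏ c, lam' (y c)) * a :=
        Finset.sum_le_sum fun y _ => mul_le_mul_of_nonneg_left (h1 y) (hW y)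
    _ = a := by rw [← Finset.sum_mul, sum_pi_weight lam' hl, one_mul]

/-- the collision probability -/
private theorem lfq_coll' {κ : ℕ} {Γ : Type} [Fintype Γ] [AddCommGroup Γ] [DecidableEq Γ]
    (lam' : Γ → ℝ) (hl : IsPW lam') (a : ℝ) (ha : ∀ g, lam' g ≤ a) (N : ℕ)
    (hinj : Function.Injective (fun g : Γ => N • g)) (ω ω' : Finset (Fin κ)) (hne : ω ≠ ω') :
    ∑ y : Fin κ → Γ, (∏ c, lam' (y c)) * ∑ y' : Fin κ → Γ, (∏ c, lam' (y' c)) *
      (if N • ∑ c, mix y y' ω c = N • ∑ c, mix y y' ω' c then 1 else 0) ≤ a := by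
  by_cases h : ω ⊆ ω'
  · have h2 : ¬ ω' ⊆ ω := fun h3 => hne (Finset.Subset.antisymm h h3)
    obtain ⟨i, hi, hi'⟩ := Finset.not_subset.1 h2
    have h3 := lfq_coll lam' hl a ha N hinj ω' ω i hi hi'
    have h4 : ∀ y y' : Fin κ → Γ,
        (if N • ∑ c, mix y y' ω c = N • ∑ c, mix y y' ω' c then (1 : ℝ) else 0) =
        if N • ∑ c, mix y y' ω' c = N • ∑ c, mix y y' ω c then 1 else 0 := by
      intro y y'
      simp only [eq_comm]
    simp only [h4]
    exact h3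
  · obtain ⟨i, hi, hi'⟩ := Finset.not_subset.1 h
    exact lfq_coll lam' hl a ha N hinj ω ω' i hi hi'

theorem lfq_of_corr (κ : ℕ) (hκ : 2 ≤ κ) {Θ Γ : Type} [Fintype Γ] [AddCommGroup Γ]
    (el : Θ → ℤ) (θ : Θ) (D : ℕ) (lam' : Γ → ℝ) (hl : IsPW lam') (a : ℝ) (ha : ∀ g, lam' g ≤ a)
    (hinj : Function.Injective (fun g : Γ => D • g))
    (ν : Θ × Γ → ℝ) (Bd : ℝ) (hBd : 1 ≤ Bd) (hν : ∀ p, 0 ≤ ν p ∧ ν p ≤ Bd) (ε : ℝ) (hε : 0 ≤ ε)
    (𝒮 : Set Γ) (hS : ∀ y : Fin κ → Γ, (∀ i, lam' (y i) ≠ 0) → D • ∑ c : Fin κ, y c ∈ 𝒮)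
    (hcorr : CorrH el 𝒮 ν (κ * 2 ^ κ) ε) :
    LFq κ D lam' (fun p => ν (θ, p)) (ε + ((κ * 2 ^ κ : ℕ) : ℝ) ^ 2 * a * (Bd ^ (κ * 2 ^ κ) + 1)) := by
  classical
  intro S
  have ha0 : 0 ≤ a := (hl.1 0).trans (ha 0)
  have hSc : #S ≤ κ * 2 ^ κ := by
    have h1 := Finset.card_le_univ S
    rw [Fintype.card_finset, Fintype.card_fin] at h1
    nlinarith [Nat.one_le_two_pow (n := κ)]
  obtain ⟨t, ht⟩ : ∃ t, t = κ * 2 ^ κ := ⟨_, rfl⟩
  rw [← ht] at hcorr hSc ⊢
  have hW : ∀ y : Fin κ → Γ, 0 ≤ ∏ c, lam' (y c) := fun y => Finset.prod_nonneg fun c _ => hl.1 _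
  have hW1 := sum_pi_weight (ι := Fin κ) lam' hl
  -- the inner average
  obtain ⟨G, hG⟩ : ∃ G : (Fin κ → Γ) → (Fin κ → Γ) → ℝ, ∀ y y', G y y' =
      ∑ p : Γ, unif Γ p * ∏ ω ∈ S, ν (θ, p + D • ∑ c, mix y y' ω c) :=
    ⟨_, fun _ _ => rfl⟩
  have hEE : EE2 (unif Γ) lam' (fun (p : Γ) (y y' : Fin κ → Γ) => ∏ ω ∈ S,
      ν (θ, p + D • ∑ c : Fin κ, mix y y' ω c)) - 1 =
      ∑ y : Fin κ → Γ, (∏ c, lam' (y c)) * ∑ y' : Fin κ → Γ, (∏ c, lam' (y' c)) *
        (G y y' - 1) := by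
    have h1 : ∑ y : Fin κ → Γ, (∏ c, lam' (y c)) * ∑ y' : Fin κ → Γ, (∏ c, lam' (y' c)) *
        (G y y' - 1) = ∑ y : Fin κ → Γ, (∏ c, lam' (y c)) * ∑ y' : Fin κ → Γ, (∏ c, lam' (y' c)) *
        G y y' - 1 := by
      simp only [mul_sub, mul_one, Finset.sum_sub_distrib, hW1]
    rw [h1]
    congr 1
    rw [EE2]
    simp only [hG, Finset.mul_sum]
    rw [Finset.sum_comm]
    refine Finset.sum_congr rfl fun y _ => ?_
    rw [Finset.sum_comm]
    refine Finset.sum_congr rfl fun y' _ => ?_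
    refine Finset.sum_congr rfl fun p _ => ?_
    ring
  rw [hEE]
  -- pointwise bound
  have hpt : ∀ y y' : Fin κ → Γ, (∀ i, lam' (y i) ≠ 0) → (∀ i, lam' (y' i) ≠ 0) →
      |G y y' - 1| ≤ ε + (Bd ^ t + 1) *
      ∑ q ∈ (S ×ˢ S).filter (fun q => q.1 ≠ q.2),
        (if D • ∑ c, mix y y' q.1 c = D • ∑ c, mix y y' q.2 c
          then (1 : ℝ) else 0) := by
    intro y y' hy hy'
    have hB : 0 ≤ Bd ^ t + 1 := by positivity
    have hmem : ∀ ω ∈ S, D • ∑ c, mix y y' ω c ∈ 𝒮 := by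
      intro ω _
      refine hS _ fun i => ?_
      unfold mix
      split_ifs
      · exact hy' i
      · exact hy i
    have hs0 : ∀ q ∈ (S ×ˢ S).filter (fun q => q.1 ≠ q.2),
        (0 : ℝ) ≤ (if D • ∑ c, mix y y' q.1 c = D • ∑ c, mix y y' q.2 c
          then (1 : ℝ) else 0) := by
      intro q _
      split_ifs
      · exact zero_le_one
      · exact le_rfl
    by_cases hd : ∀ ω ∈ S, ∀ ω' ∈ S, ω ≠ ω' →
        D • ∑ c, mix y y' ω c ≠ D • ∑ c, mix y y' ω' c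
    · have h1 := lfq_inj el θ 𝒮 ν ε t hcorr S hSc (fun ω => D • ∑ c, mix y y' ω c) hmem hd
      rw [hG]
      have h2 := mul_nonneg hB (Finset.sum_nonneg hs0)
      linarith
    · push Not at hd
      obtain ⟨ω, hω, ω', hω', hne, he⟩ := hd
      have h1 := lfq_triv θ ν Bd hBd hν t S hSc (fun ω => D • ∑ c, mix y y' ω c)
      rw [hG]
      have h2 : (1 : ℝ) ≤ ∑ q ∈ (S ×ˢ S).filter (fun q => q.1 ≠ q.2),
          (if D • ∑ c, mix y y' q.1 c = D • ∑ c, mix y y' q.2 c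
          then (1 : ℝ) else 0) := by
        have h3 := Finset.single_le_sum hs0 (a := (ω, ω')) (by
          rw [Finset.mem_filter, Finset.mem_product]
          exact ⟨⟨hω, hω'⟩, hne⟩)
        rw [if_pos he] at h3
        exact h3
      have h4 := mul_le_mul_of_nonneg_left h2 hB
      linarith
  calc |∑ y : Fin κ → Γ, (∏ c, lam' (y c)) * ∑ y' : Fin κ → Γ, (∏ c, lam' (y' c)) *
        (G y y' - 1)|
      ≤ ∑ y : Fin κ → Γ, (∏ c, lam' (y c)) * ∑ y' : Fin κ → Γ, (∏ c, lam' (y' c)) *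
        |G y y' - 1| := by
        refine (Finset.abs_sum_le_sum_abs _ _).trans (Finset.sum_le_sum fun y _ => ?_)
        rw [abs_mul, abs_of_nonneg (hW y)]
        refine mul_le_mul_of_nonneg_left ?_ (hW y)
        refine (Finset.abs_sum_le_sum_abs _ _).trans (Finset.sum_le_sum fun y' _ => ?_)
        rw [abs_mul, abs_of_nonneg (hW y')]
    _ ≤ ∑ y : Fin κ → Γ, (∏ c, lam' (y c)) * ∑ y' : Fin κ → Γ, (∏ c, lam' (y' c)) *
        (ε + (Bd ^ t + 1) * ∑ q ∈ (S ×ˢ S).filter (fun q => q.1 ≠ q.2),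
        (if D • ∑ c, mix y y' q.1 c = D • ∑ c, mix y y' q.2 c
          then (1 : ℝ) else 0)) := by
        refine Finset.sum_le_sum fun y _ => ?_
        by_cases hy : ∏ c, lam' (y c) = 0
        · rw [hy, zero_mul, zero_mul]
        · refine mul_le_mul_of_nonneg_left ?_ (hW y)
          refine Finset.sum_le_sum fun y' _ => ?_
          by_cases hy' : ∏ c, lam' (y' c) = 0
          · rw [hy', zero_mul, zero_mul]
          · exact mul_le_mul_of_nonneg_left (hpt y y'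
              (fun i => Finset.prod_ne_zero_iff.1 hy i (Finset.mem_univ i))
              (fun i => Finset.prod_ne_zero_iff.1 hy' i (Finset.mem_univ i))) (hW y')
    _ = ε + (Bd ^ t + 1) * ∑ q ∈ (S ×ˢ S).filter (fun q => q.1 ≠ q.2),
        ∑ y : Fin κ → Γ, (∏ c, lam' (y c)) * ∑ y' : Fin κ → Γ, (∏ c, lam' (y' c)) *
        (if D • ∑ c, mix y y' q.1 c = D • ∑ c, mix y y' q.2 c
          then (1 : ℝ) else 0) := by
        have h1 : ∀ y y' : Fin κ → Γ, (∏ c, lam' (y c)) * ((∏ c, lam' (y' c)) *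
            (ε + (Bd ^ t + 1) * ∑ q ∈ (S ×ˢ S).filter (fun q => q.1 ≠ q.2),
            (if D • ∑ c, mix y y' q.1 c = D • ∑ c, mix y y' q.2 c
              then (1 : ℝ) else 0))) = (∏ c, lam' (y c)) * (∏ c, lam' (y' c)) * ε +
            ∑ q ∈ (S ×ˢ S).filter (fun q => q.1 ≠ q.2), (Bd ^ t + 1) *
            ((∏ c, lam' (y c)) * ((∏ c, lam' (y' c)) *
            (if D • ∑ c, mix y y' q.1 c = D • ∑ c, mix y y' q.2 c
              then (1 : ℝ) else 0))) := by
          intro y y'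
          rw [mul_add, mul_add, Finset.mul_sum, Finset.mul_sum, Finset.mul_sum]
          congr 1
          · ring
          · refine Finset.sum_congr rfl fun q _ => ?_
            ring
        have h2 : ∑ y : Fin κ → Γ, ∑ y' : Fin κ → Γ,
            (∏ c, lam' (y c)) * (∏ c, lam' (y' c)) * ε = ε := by
          have h3 : ∀ y : Fin κ → Γ, ∑ y' : Fin κ → Γ,
            (∏ c, lam' (y c)) * (∏ c, lam' (y' c)) * ε = (∏ c, lam' (y c)) * ε := by
            intro y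
            rw [← Finset.sum_mul, ← Finset.mul_sum, hW1, mul_one]
          simp only [h3]
          rw [← Finset.sum_mul, hW1, one_mul]
        simp only [Finset.mul_sum (s := (univ : Finset (Fin κ → Γ)))]
        simp only [h1, Finset.sum_add_distrib]
        rw [h2]
        congr 1
        rw [Finset.mul_sum]
        have h4 : ∀ y : Fin κ → Γ, ∑ y' : Fin κ → Γ,
            ∑ q ∈ (S ×ˢ S).filter (fun q => q.1 ≠ q.2), (Bd ^ t + 1) *
            ((∏ c, lam' (y c)) * ((∏ c, lam' (y' c)) *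
            (if D • ∑ c, mix y y' q.1 c = D • ∑ c, mix y y' q.2 c
              then (1 : ℝ) else 0))) = ∑ q ∈ (S ×ˢ S).filter (fun q => q.1 ≠ q.2),
            ∑ y' : Fin κ → Γ, (Bd ^ t + 1) *
            ((∏ c, lam' (y c)) * ((∏ c, lam' (y' c)) *
            (if D • ∑ c, mix y y' q.1 c = D • ∑ c, mix y y' q.2 c
              then (1 : ℝ) else 0))) := fun y => Finset.sum_comm
        simp only [h4]
        rw [Finset.sum_comm]
        refine Finset.sum_congr rfl fun q _ => ?_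
        rw [Finset.mul_sum]
        refine Finset.sum_congr rfl fun y _ => ?_
        rw [Finset.mul_sum]
    _ ≤ ε + (Bd ^ t + 1) * ∑ q ∈ (S ×ˢ S).filter (fun q => q.1 ≠ q.2), a := by
        have hB : 0 ≤ Bd ^ t + 1 := by positivity
        have h1 := mul_le_mul_of_nonneg_left (Finset.sum_le_sum
          (s := (S ×ˢ S).filter (fun q => q.1 ≠ q.2)) fun q hq =>
          lfq_coll' lam' hl a ha D hinj q.1 q.2 (Finset.mem_filter.1 hq).2) hB
        linarith
    _ ≤ ε + (t : ℝ) ^ 2 * a * (Bd ^ t + 1) := by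
        rw [Finset.sum_const, nsmul_eq_mul]
        have hB : 0 ≤ Bd ^ t + 1 := by positivity
        have h1 : (#((S ×ˢ S).filter (fun q => q.1 ≠ q.2)) : ℝ) ≤ (t : ℝ) ^ 2 := by
          have h2 : #((S ×ˢ S).filter (fun q => q.1 ≠ q.2)) ≤ t ^ 2 := by
            refine (Finset.card_filter_le _ _).trans ?_
            rw [Finset.card_product, pow_two]
            exact Nat.mul_le_mul hSc hSc
          exact_mod_cast h2
        have h3 := mul_le_mul_of_nonneg_left (mul_le_mul_of_nonneg_right h1 ha0) hB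
        nlinarith [h3]

end Pool.Agent.H2.NC
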