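import Pool.Agent.H2.NC.Defs
import Pool.Agent.H16.GPS.Rel.Coin

/-!
JOB NC-LFT (MP_c183ae_nt). The linear forms condition for a pattern, from correlations.

PROOF. Compare `lf_of_corr` in `Pool/Agent/H16/GPS/Rel/Coin.lean` (the lemmas `coin_EE2_*`, `coin_abs_EE2_le`, `coin_prob_le` there may be
used as they are). Let `S` be a set of pairs `q = (j, ω)`, `j ∉ ω`, `#S ≤ κ 2^κ`. For `h, h'` with all coordinates in the support of
`lam` consider the pairs `(th j, LT el th j (mix h h' ω)) ∈ Θ × 𝒮` (all coordinates of `mix h h' ω` are in the support). If the pairs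
`(el (th j), LT ..)` are distinct for distinct `q ∈ S` then `hcorr` (for the image of `S`) says that the average over `p` of the
product is `1 + O(ε)`. Otherwise, as `el (th j)` are distinct for distinct `j`, there are `j` and `ω ≠ ω'` (not containing `j`) with
`LT el th j (mix h h' ω) = LT el th j (mix h h' ω')`; take `i` in one of `ω, ω'` but not in the other; `i ≠ j`, the coefficient
`c = el (th i) - el (th j)` divides `D`, and the equation determines `h' i` (if the other coordinates of `h, h'` are fixed), since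
`c • x = c • x'` implies `x = x'` (`hinj`): probability `≤ a` (`coin_prob_le`). The number of pairs `q, q'` is `≤ (κ 2^κ)^2`, and the
product is at most `Bd^(κ 2^κ)`.
-/

set_option autoImplicit false

open Finset

namespace Pool.Agent.H2.NC

open Pool.Agent.H16 Pool.Agent.H16.GPS

lemma lft_LT_sub {κ : ℕ} {Θ Γ : Type} [AddCommGroup Γ] (el : Θ → ℤ) (th : Fin κ → Θ)
    (j i : Fin κ) (g g' : Fin κ → Γ) (h : ∀ l, l ≠ i → g l = g' l) :
    LT el th j g - LT el th j g' = (el (th i) - el (th j)) • (g i - g' i) := by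
  unfold LT
  rw [← Finset.sum_sub_distrib]
  rw [Finset.sum_eq_single i]
  · rw [smul_sub]
  · intro l _ hl
    rw [h l hl, sub_self]
  · intro hi; exact absurd (Finset.mem_univ _) hi

open Classical in
/-- the probability of a coincidence -/
lemma lft_case {κ : ℕ} {Θ Γ : Type} [Fintype Γ] [AddCommGroup Γ] (el : Θ → ℤ) (th : Fin κ → Θ)
    (D : ℕ) (hth : ∀ i j : Fin κ, i ≠ j → el (th i) - el (th j) ≠ 0 ∧
      (el (th i) - el (th j)) ∣ (D : ℤ))
    (lam : Γ → ℝ) (hl : IsPW lam) (a : ℝ) (ha : ∀ g, lam g ≤ a)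
    (hinj : ∀ c : ℤ, c ∣ (D : ℤ) → Function.Injective (fun g : Γ => c • g))
    (j : Fin κ) (ω ω' : Finset (Fin κ)) (hj : j ∉ ω) (i : Fin κ) (hi : i ∈ ω) (hi' : i ∉ ω') :
    ∑ h : Fin κ → Γ, (∏ l, lam (h l)) * ∑ h' : Fin κ → Γ, (∏ l, lam (h' l)) *
      (if LT el th j (mix h h' ω) = LT el th j (mix h h' ω') then (1 : ℝ) else 0) ≤ a := by
  have ha0 : 0 ≤ a := (hl.1 0).trans (ha 0)
  have hji : i ≠ j := by
    rintro rfl
    exact hj hi
  have h1 : ∀ h : Fin κ → Γ, ∑ h' : Fin κ → Γ, (∏ l, lam (h' l)) *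
      (if LT el th j (mix h h' ω) = LT el th j (mix h h' ω') then (1 : ℝ) else 0) ≤ a := by
    intro h
    refine coin_prob_le lam hl a ha ha0 i
      (fun h' => LT el th j (mix h h' ω) = LT el th j (mix h h' ω')) ?_
    intro h' x x' hx hx'
    have e1 : mix h (Function.update h' i x) ω' = mix h (Function.update h' i x') ω' := by
      funext l
      unfold mix
      by_cases hl : l ∈ ω'
      · have hli : l ≠ i := fun hh => hi' (hh ▸ hl)
        simp [hl, hli]
      · simp [hl]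
    have e2 := lft_LT_sub el th j i (mix h (Function.update h' i x) ω)
      (mix h (Function.update h' i x') ω) (fun l hli => by
        unfold mix
        by_cases hl : l ∈ ω <;> simp [hl, hli])
    have e3 : mix h (Function.update h' i x) ω i = x := by simp [mix, hi]
    have e4 : mix h (Function.update h' i x') ω i = x' := by simp [mix, hi]
    rw [e3, e4] at e2
    have hx1 : LT el th j (mix h (Function.update h' i x) ω) =
      LT el th j (mix h (Function.update h' i x) ω') := hx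
    have hx2 : LT el th j (mix h (Function.update h' i x') ω) =
      LT el th j (mix h (Function.update h' i x') ω') := hx'
    rw [hx1, hx2, e1, sub_self] at e2
    apply hinj _ (hth i j hji).2
    show (el (th i) - el (th j)) • x = (el (th i) - el (th j)) • x'
    rw [smul_sub] at e2
    exact sub_eq_zero.1 e2.symm
  calc _ ≤ ∑ h : Fin κ → Γ, (∏ i, lam (h i)) * a :=
        Finset.sum_le_sum fun h _ => mul_le_mul_of_nonneg_left (h1 h)
          (Finset.prod_nonneg fun i _ => hl.1 _)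
    _ = a := by rw [← Finset.sum_mul, sum_pi_weight lam hl, one_mul]

open Classical in
lemma lft_pair {κ : ℕ} {Θ Γ : Type} [Fintype Γ] [AddCommGroup Γ] (el : Θ → ℤ) (th : Fin κ → Θ)
    (D : ℕ) (hth : ∀ i j : Fin κ, i ≠ j → el (th i) - el (th j) ≠ 0 ∧
      (el (th i) - el (th j)) ∣ (D : ℤ))
    (lam : Γ → ℝ) (hl : IsPW lam) (a : ℝ) (ha : ∀ g, lam g ≤ a)
    (hinj : ∀ c : ℤ, c ∣ (D : ℤ) → Function.Injective (fun g : Γ => c • g))
    (q q' : Fin κ × Finset (Fin κ)) (hq : q.1 ∉ q.2) (hq' : q'.1 ∉ q'.2) (hne : q ≠ q') :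
    ∑ h : Fin κ → Γ, (∏ l, lam (h l)) * ∑ h' : Fin κ → Γ, (∏ l, lam (h' l)) *
      (if q.1 = q'.1 ∧ LT el th q.1 (mix h h' q.2) = LT el th q'.1 (mix h h' q'.2) then (1 : ℝ)
        else 0) ≤ a := by
  have ha0 : 0 ≤ a := (hl.1 0).trans (ha 0)
  by_cases h0 : q.1 = q'.1
  · have h2 : q.2 ≠ q'.2 := fun hh => hne (Prod.ext h0 hh)
    simp only [h0, true_and]
    rw [h0] at hq
    by_cases h3 : ∃ i, i ∈ q.2 ∧ i ∉ q'.2
    · obtain ⟨i, hi, hi'⟩ := h3
      exact lft_case el th D hth lam hl a ha hinj q'.1 q.2 q'.2 hq i hi hi'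
    · have h4 : ∃ i, i ∈ q'.2 ∧ i ∉ q.2 := by
        by_contra h5
        push Not at h3 h5
        exact h2 (Finset.Subset.antisymm h3 h5)
      obtain ⟨i, hi, hi'⟩ := h4
      have h5 := lft_case el th D hth lam hl a ha hinj q'.1 q'.2 q.2 hq' i hi hi'
      simp only [eq_comm] at h5 ⊢
      convert h5 using 6
  · simp only [h0, false_and, if_false, mul_zero, Finset.sum_const_zero]
    exact ha0

/-- bound with the support condition -/
lemma lft_abs {P ι X : Type} [Fintype P] [Fintype ι] [DecidableEq ι] [Fintype X]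
    (μ : P → ℝ) (lam : X → ℝ) (hμ : IsPW μ) (hl : IsPW lam)
    (F G : P → (ι → X) → (ι → X) → ℝ)
    (h : ∀ p h h', (∀ i, lam (h i) ≠ 0) → (∀ i, lam (h' i) ≠ 0) → |F p h h'| ≤ G p h h') :
    |EE2 μ lam F| ≤ EE2 μ lam G := by
  rw [coin_EE2_eq, coin_EE2_eq]
  refine (Finset.abs_sum_le_sum_abs _ _).trans (Finset.sum_le_sum fun p _ => ?_)
  refine (Finset.abs_sum_le_sum_abs _ _).trans (Finset.sum_le_sum fun g _ => ?_)
  refine (Finset.abs_sum_le_sum_abs _ _).trans (Finset.sum_le_sum fun g' _ => ?_)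
  have w1 : 0 ≤ ∏ i, lam (g i) := Finset.prod_nonneg fun i _ => hl.1 _
  have w2 : 0 ≤ ∏ i, lam (g' i) := Finset.prod_nonneg fun i _ => hl.1 _
  rw [abs_mul, abs_mul, abs_mul, abs_of_nonneg (hμ.1 p), abs_of_nonneg w1, abs_of_nonneg w2]
  by_cases hg : ∀ i, lam (g i) ≠ 0
  · by_cases hg' : ∀ i, lam (g' i) ≠ 0
    · exact mul_le_mul_of_nonneg_left (mul_le_mul_of_nonneg_left (mul_le_mul_of_nonneg_left
        (h p g g' hg hg') w2) w1) (hμ.1 p)
    · push Not at hg'
      obtain ⟨c, hc⟩ := hg'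
      have h0 : ∏ i, lam (g' i) = 0 := Finset.prod_eq_zero (mem_univ c) hc
      rw [h0]
      simp
  · push Not at hg
    obtain ⟨c, hc⟩ := hg
    have h0 : ∏ i, lam (g i) = 0 := Finset.prod_eq_zero (mem_univ c) hc
    rw [h0]
    simp

theorem lft_of_corr (κ : ℕ) (hκ : 2 ≤ κ) {Θ Γ : Type} [Fintype Γ] [AddCommGroup Γ]
    (el : Θ → ℤ) (th : Fin κ → Θ) (D : ℕ) (hD : 0 < D)
    (hth : ∀ i j : Fin κ, i ≠ j → el (th i) - el (th j) ≠ 0 ∧ (el (th i) - el (th j)) ∣ (D : ℤ))
    (lam : Γ → ℝ) (hl : IsPW lam) (a : ℝ) (ha : ∀ g, lam g ≤ a)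
    (hinj : ∀ c : ℤ, c ∣ (D : ℤ) → Function.Injective (fun g : Γ => c • g))
    (ν : Θ × Γ → ℝ) (Bd : ℝ) (hBd : 1 ≤ Bd) (hν : ∀ p, 0 ≤ ν p ∧ ν p ≤ Bd) (ε : ℝ) (hε : 0 ≤ ε)
    (𝒮 : Set Γ)
    (hS : ∀ (j : Fin κ) (h : Fin κ → Γ), (∀ i, lam (h i) ≠ 0) → LT el th j h ∈ 𝒮)
    (hcorr : CorrH el 𝒮 ν (κ * 2 ^ κ) ε) :
    LFt κ el lam th ν (ε + ((κ * 2 ^ κ : ℕ) : ℝ) ^ 2 * a * (Bd ^ (κ * 2 ^ κ) + 1)) := by
  classical
  intro S hSS
  obtain ⟨t, ht⟩ : ∃ t : ℕ, t = κ * 2 ^ κ := ⟨_, rfl⟩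
  rw [← ht] at hcorr ⊢
  have ha0 : 0 ≤ a := (hl.1 0).trans (ha 0)
  have hcard : #S ≤ t := by
    have h1 := Finset.card_le_univ S
    rw [Fintype.card_prod, Fintype.card_fin, Fintype.card_finset, Fintype.card_fin] at h1
    rw [ht]; exact h1
  have hΓ : (0 : ℝ) < Fintype.card Γ := by
    have : Nonempty Γ := ⟨0⟩
    exact_mod_cast Fintype.card_pos
  have hμ : IsPW (unif Γ) := by
    refine ⟨fun x => by unfold unif; positivity, ?_⟩
    unfold unif
    rw [Finset.sum_const, Finset.card_univ, nsmul_eq_mul]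
    field_simp
  have hB0 : (0 : ℝ) ≤ Bd ^ t + 1 := by positivity
  -- reduction to the average over `p`
  have hred : EE2 (unif Γ) lam (fun p (h h' : Fin κ → Γ) =>
      ∏ q ∈ S, ν (th q.1, p + LT el th q.1 (mix h h' q.2))) =
      EE2 (unif Γ) lam (fun (_ : Γ) (h h' : Fin κ → Γ) =>
        (∑ p : Γ, ∏ q ∈ S, ν (th q.1, p + LT el th q.1 (mix h h' q.2))) /
          (Fintype.card Γ : ℝ)) := by
    have hr : EE2 (unif Γ) lam (fun (_ : Γ) (h h' : Fin κ → Γ) =>
        (∑ p : Γ, ∏ q ∈ S, ν (th q.1, p + LT el th q.1 (mix h h' q.2))) /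
          (Fintype.card Γ : ℝ)) = ∑ h : Fin κ → Γ, (∏ i, lam (h i)) *
          ∑ h' : Fin κ → Γ, (∏ i, lam (h' i)) *
          ((∑ p : Γ, ∏ q ∈ S, ν (th q.1, p + LT el th q.1 (mix h h' q.2))) /
          (Fintype.card Γ : ℝ)) := by
      unfold EE2
      rw [← Finset.sum_mul, hμ.2, one_mul]
    rw [hr, coin_EE2_eq, Finset.sum_comm]
    refine Finset.sum_congr rfl fun h _ => ?_
    rw [Finset.sum_comm, Finset.mul_sum]
    refine Finset.sum_congr rfl fun h' _ => ?_
    rw [Finset.sum_div, Finset.mul_sum, Finset.mul_sum]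
    refine Finset.sum_congr rfl fun p _ => ?_
    unfold unif
    ring
  show |EE2 (unif Γ) lam (fun p (h h' : Fin κ → Γ) =>
      ∏ q ∈ S, ν (th q.1, p + LT el th q.1 (mix h h' q.2))) - 1| ≤ _
  rw [hred]
  have hone : (1 : ℝ) = EE2 (unif Γ) lam (fun _ (_ _ : Fin κ → Γ) => (1 : ℝ)) :=
    (coin_EE2_const _ _ hμ hl 1).symm
  have hsub := coin_EE2_sub (unif Γ) lam (fun (_ : Γ) (h h' : Fin κ → Γ) =>
        (∑ p : Γ, ∏ q ∈ S, ν (th q.1, p + LT el th q.1 (mix h h' q.2))) / (Fintype.card Γ : ℝ))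
        (fun _ _ _ => (1 : ℝ))
  rw [← hone] at hsub
  rw [← hsub]
  have helj : ∀ i j : Fin κ, el (th i) = el (th j) → i = j := by
    intro i j hij
    by_contra hne
    exact (hth i j hne).1 (by rw [hij, sub_self])
  have hpt : ∀ (x : Γ) (h h' : Fin κ → Γ), (∀ i, lam (h i) ≠ 0) → (∀ i, lam (h' i) ≠ 0) →
      |(∑ p : Γ, ∏ q ∈ S, ν (th q.1, p + LT el th q.1 (mix h h' q.2))) /
        (Fintype.card Γ : ℝ) - 1| ≤
        ε + (Bd ^ t + 1) * ∑ q ∈ S, ∑ q' ∈ S.erase q,
          (if q.1 = q'.1 ∧ LT el th q.1 (mix h h' q.2) = LT el th q'.1 (mix h h' q'.2)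
            then (1 : ℝ) else 0) := by
    intro x h h' hh hh'
    have hmix : ∀ ω : Finset (Fin κ), ∀ i, lam (mix h h' ω i) ≠ 0 := by
      intro ω i
      unfold mix
      split_ifs
      · exact hh' i
      · exact hh i
    by_cases hinjS : ∀ q ∈ S, ∀ q' ∈ S, q.1 = q'.1 →
        LT el th q.1 (mix h h' q.2) = LT el th q'.1 (mix h h' q'.2) → q = q'
    · set T : Finset (Θ × Γ) := S.image (fun q : Fin κ × Finset (Fin κ) =>
        (th q.1, LT el th q.1 (mix h h' q.2))) with hT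
      have e : ∀ p : Γ, ∏ q ∈ S, ν (th q.1, p + LT el th q.1 (mix h h' q.2)) =
          ∏ s ∈ T, ν (s.1, p + s.2) := by
        intro p
        rw [hT, Finset.prod_image]
        intro q hq q' hq' hqq
        have h1 : th q.1 = th q'.1 := congrArg Prod.fst hqq
        have h2 : LT el th q.1 (mix h h' q.2) = LT el th q'.1 (mix h h' q'.2) :=
          congrArg Prod.snd hqq
        exact hinjS q hq q' hq' (helj _ _ (by rw [h1])) h2
      simp only [e]
      have h3 := hcorr T (Finset.card_image_le.trans hcard)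
        (by
          intro s hs
          obtain ⟨q, _, rfl⟩ := Finset.mem_image.1 hs
          exact hS q.1 _ (hmix q.2))
        (by
          intro s hs s' hs' h4 h5
          obtain ⟨q, hq, rfl⟩ := Finset.mem_image.1 hs
          obtain ⟨q', hq', rfl⟩ := Finset.mem_image.1 hs'
          have h6 := hinjS q hq q' hq' (helj _ _ h4) h5
          rw [h6])
      refine h3.trans ?_
      have : (0 : ℝ) ≤ ∑ q ∈ S, ∑ q' ∈ S.erase q,
          (if q.1 = q'.1 ∧ LT el th q.1 (mix h h' q.2) = LT el th q'.1 (mix h h' q'.2)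
            then (1 : ℝ) else 0) :=
        Finset.sum_nonneg fun q _ => Finset.sum_nonneg fun q' _ => by split_ifs <;> norm_num
      have h7 := mul_nonneg hB0 this
      linarith
    · push Not at hinjS
      obtain ⟨q, hq, q', hq', hq1, hqq, hne⟩ := hinjS
      have h1 : (1 : ℝ) ≤ ∑ q ∈ S, ∑ q' ∈ S.erase q,
          (if q.1 = q'.1 ∧ LT el th q.1 (mix h h' q.2) = LT el th q'.1 (mix h h' q'.2)
            then (1 : ℝ) else 0) := by
        have hnn : ∀ r ∈ S, (0 : ℝ) ≤ ∑ q' ∈ S.erase r,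
            (if r.1 = q'.1 ∧ LT el th r.1 (mix h h' r.2) = LT el th q'.1 (mix h h' q'.2)
              then (1 : ℝ) else 0) :=
          fun r _ => Finset.sum_nonneg fun q' _ => by split_ifs <;> norm_num
        refine le_trans ?_ (Finset.single_le_sum hnn hq)
        have hnn' : ∀ r ∈ S.erase q, (0 : ℝ) ≤
            (if q.1 = r.1 ∧ LT el th q.1 (mix h h' q.2) = LT el th r.1 (mix h h' r.2)
              then (1 : ℝ) else 0) :=
          fun r _ => by split_ifs <;> norm_num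
        have hm : q' ∈ S.erase q := Finset.mem_erase.2 ⟨fun hh => hne hh.symm, hq'⟩
        refine le_trans ?_ (Finset.single_le_sum hnn' hm)
        rw [if_pos ⟨hq1, hqq⟩]
      have hprod : ∀ p : Γ, 0 ≤ ∏ q ∈ S, ν (th q.1, p + LT el th q.1 (mix h h' q.2)) ∧
          ∏ q ∈ S, ν (th q.1, p + LT el th q.1 (mix h h' q.2)) ≤ Bd ^ t := by
        intro p
        refine ⟨Finset.prod_nonneg fun q _ => (hν _).1, ?_⟩
        refine (Finset.prod_le_prod (fun q _ => (hν _).1) fun q _ => (hν _).2).trans ?_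
        rw [Finset.prod_const]
        exact pow_le_pow_right₀ hBd hcard
      have hlow : 0 ≤ (∑ p : Γ, ∏ q ∈ S, ν (th q.1, p + LT el th q.1 (mix h h' q.2))) /
          (Fintype.card Γ : ℝ) := div_nonneg (Finset.sum_nonneg fun p _ => (hprod p).1) hΓ.le
      have hup : (∑ p : Γ, ∏ q ∈ S, ν (th q.1, p + LT el th q.1 (mix h h' q.2))) /
          (Fintype.card Γ : ℝ) ≤ Bd ^ t := by
        rw [div_le_iff₀ hΓ]
        refine (Finset.sum_le_sum fun p _ => (hprod p).2).trans ?_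
        rw [Finset.sum_const, Finset.card_univ, nsmul_eq_mul, mul_comm]
      have h2 : Bd ^ t + 1 ≤ (Bd ^ t + 1) * ∑ q ∈ S, ∑ q' ∈ S.erase q,
          (if q.1 = q'.1 ∧ LT el th q.1 (mix h h' q.2) = LT el th q'.1 (mix h h' q'.2)
            then (1 : ℝ) else 0) :=
        le_mul_of_one_le_right hB0 h1
      have h3 : (0 : ℝ) ≤ Bd ^ t := by positivity
      rw [abs_le]
      constructor <;> linarith
  refine (lft_abs (unif Γ) lam hμ hl _ _ hpt).trans ?_
  rw [coin_EE2_add, coin_EE2_const _ _ hμ hl, coin_EE2_const_mul, coin_EE2_sum]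
  have hE : ∀ q ∈ S, ∀ q' ∈ S.erase q, EE2 (unif Γ) lam (fun _ (h h' : Fin κ → Γ) =>
      (if q.1 = q'.1 ∧ LT el th q.1 (mix h h' q.2) = LT el th q'.1 (mix h h' q'.2)
        then (1 : ℝ) else 0)) ≤ a := by
    intro q hq q' hq'
    have h1 := lft_pair el th D hth lam hl a ha hinj q q' (hSS q hq)
      (hSS q' (Finset.mem_of_mem_erase hq'))
      (fun hh => (Finset.ne_of_mem_erase hq') hh.symm)
    unfold EE2
    rw [← Finset.sum_mul, hμ.2, one_mul]
    exact h1
  have hsum : ∑ q ∈ S, EE2 (unif Γ) lam (fun (_ : Γ) (h h' : Fin κ → Γ) => ∑ q' ∈ S.erase q,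
      (if q.1 = q'.1 ∧ LT el th q.1 (mix h h' q.2) = LT el th q'.1 (mix h h' q'.2)
        then (1 : ℝ) else 0)) ≤
      (t : ℝ) ^ 2 * a := by
    have h1 : ∀ q ∈ S, EE2 (unif Γ) lam (fun (_ : Γ) (h h' : Fin κ → Γ) => ∑ q' ∈ S.erase q,
        (if q.1 = q'.1 ∧ LT el th q.1 (mix h h' q.2) = LT el th q'.1 (mix h h' q'.2)
          then (1 : ℝ) else 0)) ≤
        (t : ℝ) * a := by
      intro q hq
      rw [coin_EE2_sum]
      refine (Finset.sum_le_sum (hE q hq)).trans ?_
      rw [Finset.sum_const, nsmul_eq_mul]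
      refine mul_le_mul_of_nonneg_right ?_ ha0
      exact_mod_cast (Finset.card_le_card (Finset.erase_subset _ _)).trans hcard
    refine (Finset.sum_le_sum h1).trans ?_
    rw [Finset.sum_const, nsmul_eq_mul, pow_two, mul_assoc]
    refine mul_le_mul_of_nonneg_right ?_ (by positivity)
    exact_mod_cast hcard
  have h5 := mul_le_mul_of_nonneg_left hsum hB0
  linarith

end Pool.Agent.H2.NC
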