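import Pool.Agent.H2.NC.WFacts
import Pool.Agent.H16.GPS.Num.Mean

/-!
JOB NC-MEAN (MP_c183ae_nt). Mean value of the primes along `a W y + β`.

PROOF (as `mean_prime` in `Pool/Agent/H16/GPS/Num/Mean.lean`; `class_lower`, `totient_mul_of_dvd`, `aw_nonneg` of that file and
`small_unif` of `Unif` are used as they are). Let `L0` and `c` be given by `class_lower`; the constant `c` of the theorem
is half of it (it does not depend on `P`, `n`). For given `P`, `n` apply `small_unif` with `Y0 = P^(n+1)`: for large `ℓ` there is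
`q₁ > P^(n+1)` with `SmallProp .. ℓ' q₁` for `ℓ/2 ≤ ℓ' ≤ ℓ`. Choose a prime `e ∤ P` as follows: if `q₁` has a prime factor
not dividing `P` let `e` be one; otherwise any prime not dividing `P`. Claim: `¬ q₁ ∣ a W` for `W = W1 ℓ e`, `a ∣ P^n`. In
the first case `e ∣ q₁` but `e ∤ a` and `e ∤ W`. In the second case all primes of `q₁` divide `P`; if `q₁ ∣ a W` then, `W` being
squarefree, `q₁ ∣ a * gcd (W, P^∞) ∣ P^n * P`, so `q₁ ≤ P^(n+1)`, a contradiction. Now apply `class_lower` with modulus `a W`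
(`log (a W) ≤ ℓ' / (2 (log ℓ')^2)` as `a W ≤ P^n ℓ^2`), `ℓ' = log (a W Y) ∈ [ℓ/2, ℓ]`, `y = RR η ℓ`, `A0 = β mod (a W)`: the numbers `n ≤ a W Y`,
`n ≡ β` are `a W y + A0`, `0 ≤ y < Y`. Finally `β = A0 + s a W` with `s ≤ 1`: the sum over `y ∈ range Y` of
`aw (a W (y + s) + A0)` differs from the sum of `aw (a W y + A0)` by at most one term `≤ 2 ℓ` (a lower bound is wanted, so drop
the last term and lose the first one, `aw ≤ log n ≤ 2 ℓ` (`aw` is at most `log n` times the maximum of `tent`, see `FleNu`)).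
`φ(a W) / (a W) = φ(W) / W` as the primes of `a` divide `W` (`primes_le_w1`).
-/

set_option autoImplicit false

open Finset Filter

namespace Pool.Agent.H2.NC

open Pool.Agent.H16 Pool.Agent.H16.GPS

/-- the size conditions -/
theorem mean_size (η : ℝ) (hη0 : 0 < η) (M : ℝ) : ∀ᶠ ℓ : ℝ in atTop,
    1 ≤ Real.log ℓ ∧ 34 ≤ ℓ ∧
    M + 2 * Real.log ℓ ≤ ℓ / (4 * (Real.log ℓ) ^ 2) ∧
    Real.log ℓ ≤ Real.exp (η * ℓ) - 1 ∧ 4 ≤ Real.exp (η * ℓ) ∧ M ≤ Real.log ℓ := by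
  have h1 : ∀ᶠ ℓ : ℝ in atTop, (Real.log ℓ) ^ 3 ≤ 1 / 12 * ℓ := by
    have := (Real.isLittleO_pow_log_id_atTop (n := 3)).bound (by norm_num : (0 : ℝ) < 1 / 12)
    filter_upwards [this, eventually_ge_atTop (1 : ℝ)] with ℓ h hℓ
    simp only [id, Real.norm_eq_abs] at h
    rw [abs_of_nonneg (by linarith : (0:ℝ) ≤ ℓ)] at h
    exact (le_abs_self _).trans h
  filter_upwards [h1, ev_size η hη0, eventually_ge_atTop (34 : ℝ),
    Real.tendsto_log_atTop.eventually_ge_atTop M] with ℓ h1 ⟨hlog, hℓ1, _, hw, hR⟩ h3 h4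
  refine ⟨hlog, h3, ?_, ?_, hR, h4⟩
  · rw [le_div_iff₀ (by positivity)]
    have h5 : M + 2 * Real.log ℓ ≤ 3 * Real.log ℓ := by linarith
    calc (M + 2 * Real.log ℓ) * (4 * (Real.log ℓ) ^ 2)
        ≤ (3 * Real.log ℓ) * (4 * (Real.log ℓ) ^ 2) := by gcongr
      _ = 12 * (Real.log ℓ) ^ 3 := by ring
      _ ≤ ℓ := by linarith
  · have : Real.log ℓ ≤ (Real.log ℓ) ^ 5 := le_self_pow₀ hlog (by norm_num)
    linarith

/-- the choice of the exceptional prime -/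
theorem mean_exc (P n q₁ : ℕ) (hP : 0 < P) (hq : P ^ (n + 1) < q₁) :
    ∃ e : ℕ, e.Prime ∧ ¬ e ∣ P ∧ ∀ (ℓ : ℝ) (a : ℕ), a ∣ P ^ n → ¬ q₁ ∣ a * W1 ℓ e := by
  by_cases h : ∃ e : ℕ, e.Prime ∧ e ∣ q₁ ∧ ¬ e ∣ P
  · obtain ⟨e, he, heq, heP⟩ := h
    refine ⟨e, he, heP, fun ℓ a ha hcon => ?_⟩
    rcases (Nat.Prime.dvd_mul he).mp (heq.trans hcon) with h1 | h1
    · exact heP (he.dvd_of_dvd_pow (h1.trans ha))
    · exact ((prime_dvd_W1 he).mp h1).2 rfl
  · push Not at h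
    obtain ⟨e, hge, he⟩ := Nat.exists_infinite_primes (P + 1)
    refine ⟨e, he, fun h1 => ?_, fun ℓ a ha hcon => ?_⟩
    · have := Nat.le_of_dvd hP h1
      omega
    · have h1 : q₁ ∣ a * Nat.gcd q₁ (W1 ℓ e) := Nat.dvd_mul_gcd_iff_dvd_mul.2 hcon
      have hsq : Squarefree (Nat.gcd q₁ (W1 ℓ e)) :=
        (W1_squarefree ℓ e).squarefree_of_dvd (Nat.gcd_dvd_right _ _)
      have h2 : Nat.gcd q₁ (W1 ℓ e) ∣ P := by
        rw [← Nat.prod_primeFactors_of_squarefree hsq]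
        refine (Finset.prod_dvd_prod_of_subset _ P.primeFactors (fun p => p) ?_).trans
          (Nat.prod_primeFactors_dvd P)
        intro p hp
        rw [Nat.mem_primeFactors] at hp ⊢
        exact ⟨hp.1, h p hp.1 (hp.2.1.trans (Nat.gcd_dvd_left _ _)), by omega⟩
      have h3 : q₁ ∣ P ^ (n + 1) := by
        rw [pow_succ]
        exact h1.trans (mul_dvd_mul ha h2)
      have := Nat.le_of_dvd (pow_pos hP _) h3
      omega

/-- the residue class as an image -/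
theorem mean_class_sum (ℓ : ℝ) (y W Y : ℕ) (hW : 0 < W) (hexp : Real.exp ℓ = ((W * Y : ℕ) : ℝ))
    (hY : 18 ≤ Y) (β : ℕ) (hβ : β < 2 * W) :
    ∑ n ∈ (Ioc 0 ⌊Real.exp ℓ⌋₊).filter (fun n => n ≡ β % W [MOD W]), aw ℓ y n ≤
      ∑ A ∈ range Y, aw ℓ y (W * A + β) := by
  classical
  have e1 : ∑ A ∈ range Y, aw ℓ y (W * A + β) =
      ∑ n ∈ (range Y).image (fun A => W * A + β), aw ℓ y n := by
    rw [Finset.sum_image]
    intro A _ B _ h
    have h' : W * A = W * B := Nat.add_right_cancel h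
    exact Nat.eq_of_mul_eq_mul_left hW h'
  rw [e1, ← Finset.sum_filter_ne_zero]
  apply Finset.sum_le_sum_of_subset_of_nonneg
  · intro n hn
    rw [Finset.mem_filter, Finset.mem_filter, Finset.mem_Ioc] at hn
    obtain ⟨⟨⟨hn0, hnN⟩, hmod⟩, hne⟩ := hn
    have hlt : n < W * Y := by
      by_contra hcon
      push Not at hcon
      apply hne
      apply aw_zero_of_big
      rw [hexp]
      exact_mod_cast hcon
    have hbig : 2 * W ≤ n := by
      have h1 := (aw_ne_zero hne).2.2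
      rw [hexp, div_lt_iff₀ (by norm_num)] at h1
      have h2 : W * Y < n * 9 := by exact_mod_cast h1
      have h3 : W * 18 ≤ W * Y := Nat.mul_le_mul_left W hY
      omega
    have hmod2 : β ≡ n [MOD W] := ((Nat.mod_modEq β W).symm.trans hmod.symm)
    have h1 : W ∣ n - β := (Nat.modEq_iff_dvd' (by omega)).mp hmod2
    obtain ⟨A, hA⟩ := h1
    rw [Finset.mem_image]
    refine ⟨A, ?_, by omega⟩
    rw [Finset.mem_range]
    have : W * A < W * Y := by omega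
    exact Nat.lt_of_mul_lt_mul_left this
  · intro n _ _
    exact aw_nonneg _ _ _

theorem mean1 (η : ℝ) (hη0 : 0 < η) (hη1 : η ≤ 1 / 4) : ∃ c : ℝ, 0 < c ∧ ∀ P n : ℕ, 0 < P →
    ∀ᶠ ℓ : ℝ in atTop, ∃ e : ℕ, e.Prime ∧ ¬ e ∣ P ∧ ∀ Y : ℕ, Real.exp (ℓ / 2) ≤ Y →
      ((P ^ n * W1 ℓ e * Y : ℕ) : ℝ) ≤ Real.exp ℓ → ∀ a : ℕ, a ∣ P ^ n →
      ∀ β : ℕ, β < 2 * (a * W1 ℓ e) → Nat.Coprime β (a * W1 ℓ e) →
      c * (Y : ℝ) ≤ ∑ y ∈ range Y, ((W1 ℓ e).totient : ℝ) / (W1 ℓ e : ℝ) *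
        aw (Real.log ((a * W1 ℓ e * Y : ℕ) : ℝ)) (RR η ℓ) (a * W1 ℓ e * y + β) := by
  classical
  obtain ⟨c, hc, L0, hL0⟩ := class_lower
  refine ⟨c, hc, fun P n hP => ?_⟩
  obtain ⟨L1, hL1⟩ := small_unif ((2 * 1 + 4 + ((1 : ℕ) : ℝ) ^ 2) + 1 + 4)
    ((2 * 1 + 4 + ((1 : ℕ) : ℝ) ^ 2) + 1 + 3 + 12) (by positivity) (by positivity) (P ^ (n + 1))
  filter_upwards [mean_size η hη0 ((n : ℝ) * Real.log P), eventually_ge_atTop (2 * L0),
    eventually_ge_atTop L1, W1_le, primes_le_w1 P hP] with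
    ℓ ⟨hlog, hℓ1, hsz, hww, hRR, hPlog⟩ hℓ0 hℓL1 hW1le hPw
  obtain ⟨q₁, hq1, hq⟩ := hL1 ℓ hℓL1
  obtain ⟨e, he, heP, heq⟩ := mean_exc P n q₁ hP hq1
  refine ⟨e, he, heP, fun Y hY hsize a ha β hβ hcop => ?_⟩
  set W := W1 ℓ e with hWdef
  have hWpos : 0 < W := W1_pos ℓ e
  have hPn : 0 < P ^ n := pow_pos hP n
  have hapos : 0 < a := Nat.pos_of_dvd_of_pos ha hPn
  set W' := a * W with hW'
  have hW'pos : 0 < W' := Nat.mul_pos hapos hWpos
  have hY0 : (0 : ℝ) < Y := (Real.exp_pos _).trans_le hY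
  have hY0' : 0 < Y := by exact_mod_cast hY0
  have hWYpos : (0 : ℝ) < ((W' * Y : ℕ) : ℝ) := by exact_mod_cast Nat.mul_pos hW'pos hY0'
  set ℓ' := Real.log ((W' * Y : ℕ) : ℝ) with hℓ'
  have hexp : Real.exp ℓ' = ((W' * Y : ℕ) : ℝ) := Real.exp_log hWYpos
  have hℓ'le : ℓ' ≤ ℓ := by
    rw [hℓ', Real.log_le_iff_le_exp hWYpos]
    refine le_trans ?_ hsize
    have : W' * Y ≤ P ^ n * W * Y := by
      rw [hW']
      exact Nat.mul_le_mul_right _ (Nat.mul_le_mul_right _ (Nat.le_of_dvd hPn ha))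
    exact_mod_cast this
  have hℓ'ge : ℓ / 2 ≤ ℓ' := by
    rw [hℓ', Real.le_log_iff_exp_le hWYpos]
    refine hY.trans ?_
    have : Y ≤ W' * Y := Nat.le_mul_of_pos_left Y hW'pos
    exact_mod_cast this
  have hSP := hq ℓ' hℓ'ge hℓ'le
  have hpa : ∀ p, p.Prime → p ∣ a → p ≤ w1 ℓ ∧ p ≠ e := by
    intro p hp hpd
    exact hPw e heP he p hp (hp.dvd_of_dvd_pow (hpd.trans ha))
  have hpW : ∀ p, p.Prime → p ∣ W' → p ≤ w1 ℓ ∧ p ≠ e := by
    intro p hp hpd
    rcases (Nat.Prime.dvd_mul hp).mp hpd with h | h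
    · exact hpa p hp h
    · exact (prime_dvd_W1 hp).mp h
  have hwwR : w1 ℓ + 1 ≤ RR η ℓ := by
    unfold w1 Pool.Agent.H16.GPS.RR
    apply Nat.le_floor
    push_cast
    have h1 : ((⌊Real.log ℓ⌋₊ : ℕ) : ℝ) ≤ Real.log ℓ := Nat.floor_le (by linarith)
    linarith
  have hR3 : 3 ≤ RR η ℓ := by
    unfold Pool.Agent.H16.GPS.RR
    apply Nat.le_floor
    push_cast
    linarith
  have hRle : ((RR η ℓ : ℕ) : ℝ) ≤ Real.exp (ℓ' / 2) := by
    have h1 : ((RR η ℓ : ℕ) : ℝ) ≤ Real.exp (η * ℓ) := Nat.floor_le (Real.exp_pos _).le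
    refine h1.trans (Real.exp_le_exp.mpr ?_)
    nlinarith
  have hlogW : Real.log W' ≤ ℓ' / (2 * (Real.log ℓ') ^ 2) := by
    have h1 : Real.log W' ≤ (n : ℝ) * Real.log P + 2 * Real.log ℓ := by
      have hW0 : (0 : ℝ) < W := by exact_mod_cast hWpos
      have ha0 : (0 : ℝ) < a := by exact_mod_cast hapos
      have hP0 : (0 : ℝ) < P := by exact_mod_cast hP
      have e1 : ((W' : ℕ) : ℝ) = (a : ℝ) * (W : ℝ) := by rw [hW']; push_cast; ring
      rw [e1, Real.log_mul ha0.ne' hW0.ne']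
      have h2 : Real.log a ≤ (n : ℝ) * Real.log P := by
        rw [← Real.log_pow]
        apply Real.log_le_log ha0
        exact_mod_cast Nat.le_of_dvd hPn ha
      have h3 : Real.log W ≤ 2 * Real.log ℓ := by
        have h4 := Real.log_le_log hW0 (hW1le e)
        rw [Real.log_pow] at h4
        push_cast at h4
        exact h4
      linarith
    refine h1.trans (hsz.trans ?_)
    have hℓ'pos : 1 < ℓ' := by
      have h9 : Real.exp 1 ≤ ℓ := by
        rw [← Real.le_log_iff_exp_le (by linarith)]; exact hlog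
      have := Real.exp_one_gt_d9
      linarith
    have hlog' : 0 < Real.log ℓ' := Real.log_pos hℓ'pos
    have hlogle : Real.log ℓ' ≤ Real.log ℓ := Real.log_le_log (by linarith) hℓ'le
    calc ℓ / (4 * (Real.log ℓ) ^ 2) ≤ ℓ / (4 * (Real.log ℓ') ^ 2) := by
          apply div_le_div_of_nonneg_left (by linarith) (by positivity)
          have := pow_le_pow_left₀ hlog'.le hlogle 2
          linarith
      _ = (ℓ / 2) / (2 * (Real.log ℓ') ^ 2) := by
          rw [div_div]; congr 1; ring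
      _ ≤ _ := by
          apply div_le_div_of_nonneg_right hℓ'ge (by positivity)
  have hqW : ¬ q₁ ∣ W' := heq ℓ a ha
  have hA0cop : Nat.Coprime (β % W') W' := by
    rw [Nat.coprime_iff_gcd_eq_one, ← Nat.gcd_rec, Nat.gcd_comm]
    exact hcop
  have h1 := hL0 ℓ' (by linarith) q₁ hSP W' hW'pos hlogW (RR η ℓ) hR3 hRle
    (fun p hp hpd => by have := (hpW p hp hpd).1; omega) hqW _ hA0cop
  have hY18 : 18 ≤ Y := by
    have h2 : (18 : ℝ) ≤ Real.exp (ℓ / 2) := by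
      have := Real.add_one_le_exp (ℓ / 2)
      linarith
    exact_mod_cast h2.trans hY
  have h2 := mean_class_sum ℓ' (RR η ℓ) W' Y hW'pos hexp hY18 β hβ
  have h3 := h1.trans h2
  rw [← Finset.mul_sum]
  have hφ : (W'.totient : ℝ) = (W.totient : ℝ) * a := by
    have := totient_mul_of_dvd W a hapos (fun p hp hpm => (prime_dvd_W1 hp).mpr (hpa p hp hpm))
    rw [hW', mul_comm a W, this]
    push_cast
    ring
  have hφW : (0 : ℝ) < (W.totient : ℝ) := by exact_mod_cast Nat.totient_pos.mpr hWpos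
  have hW0 : (0 : ℝ) < W := by exact_mod_cast hWpos
  have ha0 : (0 : ℝ) < a := by exact_mod_cast hapos
  rw [hexp, hφ] at h3
  have h4 : c * (Y : ℝ) = (W.totient : ℝ) / (W : ℝ) * (c * ((W' * Y : ℕ) : ℝ) / ((W.totient : ℝ) * a)) := by
    rw [hW']
    push_cast
    field_simp
  rw [h4]
  exact mul_le_mul_of_nonneg_left h3 (by positivity)

end Pool.Agent.H2.NC
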