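import Pool.Agent.H2.NC.Defs

/-!
JOB NC-PAT (MP_c183ae_nt). Words and patterns.

PROOFS. `av_mul_ev`: `μ (θ s) * ((∏ μ) / μ (θ s)) = ∏ μ`. `pats_av`: for a line `L` with `d ≥ 1` active coordinates
`av μ (L j) = λ * μ j ^ d`, `λ` the product of the `μ` of the fixed letters; `λ * μ j^d = av ∣ (∏ μ)^n`. `ev_inj`: the `av μ (th j)` are distinct
(`μ` injective, `d ≥ 1`) and `av * ev` is constant. `DD`: a product of natural numbers `≥ 1`, one of the factors is the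
difference in question.
-/

set_option autoImplicit false

open Finset

namespace Pool.Agent.H2.NC

open Pool.Agent.H16 Pool.Agent.H16.GPS

variable {κ n : ℕ} {μ : Fin κ → ℕ}

theorem av_pos (hμ0 : ∀ j, 0 < μ j) (θ : Fin n → Fin κ) : 0 < av μ θ :=
  Finset.prod_pos fun _ _ => hμ0 _

theorem pat_dvd (μ : Fin κ → ℕ) (j : Fin κ) : μ j ∣ ∏ j, μ j := Finset.dvd_prod_of_mem μ (mem_univ j)

theorem pat_pos (hμ0 : ∀ j, 0 < μ j) : 0 < ∏ j, μ j := Finset.prod_pos fun _ _ => hμ0 _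

theorem ev_pos (hμ0 : ∀ j, 0 < μ j) (θ : Fin n → Fin κ) : 0 < ev μ θ :=
  Finset.prod_pos fun s _ => Nat.div_pos (Nat.le_of_dvd (pat_pos hμ0) (pat_dvd μ (θ s))) (hμ0 _)

theorem av_mul_ev (hμ0 : ∀ j, 0 < μ j) (θ : Fin n → Fin κ) :
    av μ θ * ev μ θ = (∏ j, μ j) ^ n := by
  unfold av ev
  rw [← Finset.prod_mul_distrib, Finset.prod_congr rfl
    (fun s _ => Nat.mul_div_cancel' (pat_dvd μ (θ s))), Finset.prod_const, card_univ,
    Fintype.card_fin]

theorem av_dvd (hμ0 : ∀ j, 0 < μ j) (θ : Fin n → Fin κ) : av μ θ ∣ (∏ j, μ j) ^ n :=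
  Dvd.intro _ (av_mul_ev hμ0 θ)

theorem ev_of_av (hμ0 : ∀ j, 0 < μ j) (θ θ' : Fin n → Fin κ) (h : av μ θ = av μ θ') :
    ev μ θ = ev μ θ' := by
  have h1 := av_mul_ev hμ0 θ
  have h2 := av_mul_ev hμ0 θ'
  rw [← h2, h] at h1
  exact Nat.eq_of_mul_eq_mul_left (av_pos hμ0 θ') h1

theorem pats_av (hμ0 : ∀ j, 0 < μ j) (th : Fin κ → Fin n → Fin κ) (hth : th ∈ pats κ n) :
    ∃ lm d : ℕ, 0 < lm ∧ lm ∣ (∏ j, μ j) ^ n ∧ 1 ≤ d ∧ d ≤ n ∧ ∀ j, av μ (th j) = lm * μ j ^ d := by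
  classical
  unfold pats at hth
  rw [mem_filter] at hth
  obtain ⟨_, L, hL⟩ := hth
  refine ⟨∏ s, (match L.idxFun s with
    | none => 1
    | some a => μ a), #(univ.filter (fun s => L.idxFun s = none)), ?_, ?_, ?_, ?_, ?_⟩
  · apply Finset.prod_pos
    intro s _
    cases L.idxFun s with
    | none => exact one_pos
    | some a => exact hμ0 a
  · have h1 : (∏ j, μ j) ^ n = ∏ _s : Fin n, ∏ j, μ j := by
      rw [Finset.prod_const, card_univ, Fintype.card_fin]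
    rw [h1]
    apply Finset.prod_dvd_prod_of_dvd
    intro s _
    cases L.idxFun s with
    | none => exact one_dvd _
    | some a => exact pat_dvd μ a
  · obtain ⟨i, hi⟩ := L.proper
    exact Finset.card_pos.2 ⟨i, mem_filter.2 ⟨mem_univ _, hi⟩⟩
  · exact (Finset.card_le_univ _).trans (by rw [Fintype.card_fin])
  · intro j
    rw [hL j]
    unfold av
    have h1 : μ j ^ #(univ.filter (fun s => L.idxFun s = none)) =
        ∏ s, if L.idxFun s = none then μ j else 1 := by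
      rw [← Finset.prod_filter, Finset.prod_const]
    rw [h1, ← Finset.prod_mul_distrib]
    refine Finset.prod_congr rfl fun s _ => ?_
    have h2 : L j s = (L.idxFun s).getD j := rfl
    rw [h2]
    cases L.idxFun s with
    | none => simp
    | some a => simp

theorem ev_inj (hμ : Function.Injective μ) (hμ0 : ∀ j, 0 < μ j) (th : Fin κ → Fin n → Fin κ)
    (hth : th ∈ pats κ n) (i j : Fin κ) (hij : i ≠ j) : ev μ (th i) ≠ ev μ (th j) := by
  intro h
  have h1 := av_mul_ev hμ0 (th i)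
  have h2 := av_mul_ev hμ0 (th j)
  rw [← h2, h] at h1
  have h3 := Nat.eq_of_mul_eq_mul_right (ev_pos hμ0 (th j)) h1
  obtain ⟨lm, d, hlm, _, hd, _, hav⟩ := pats_av hμ0 th hth
  rw [hav, hav] at h3
  have h4 := Nat.eq_of_mul_eq_mul_left hlm h3
  exact hij (hμ (Nat.pow_left_injective (by omega) h4))

theorem DD_pos (hμ0 : ∀ j, 0 < μ j) : 0 < DD n μ := by
  unfold DD
  apply Nat.mul_pos
  · exact Finset.prod_pos fun θ _ => ev_pos hμ0 θ
  · apply Finset.prod_pos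
    intro θ _
    apply Finset.prod_pos
    intro θ' _
    split_ifs with h
    · exact one_pos
    · apply Int.natAbs_pos.2
      rw [sub_ne_zero]
      exact_mod_cast h

theorem ev_dvd_DD (θ : Fin n → Fin κ) : ((ev μ θ : ℕ) : ℤ) ∣ (DD n μ : ℤ) := by
  rw [Int.natCast_dvd_natCast]
  unfold DD
  exact Dvd.dvd.mul_right (Finset.dvd_prod_of_mem (fun θ : Fin n → Fin κ => ev μ θ)
    (mem_univ θ)) _

theorem sub_dvd_DD (θ θ' : Fin n → Fin κ) (h : ev μ θ ≠ ev μ θ') :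
    ((ev μ θ : ℕ) : ℤ) - ((ev μ θ' : ℕ) : ℤ) ≠ 0 ∧
      (((ev μ θ : ℕ) : ℤ) - ((ev μ θ' : ℕ) : ℤ)) ∣ (DD n μ : ℤ) := by
  refine ⟨?_, ?_⟩
  · rw [sub_ne_zero]
    exact_mod_cast h
  · rw [← Int.natAbs_dvd, Int.natCast_dvd_natCast]
    unfold DD
    refine Dvd.dvd.mul_left ?_ _
    have h1 := Finset.dvd_prod_of_mem (fun θ : Fin n → Fin κ => ∏ θ' : Fin n → Fin κ,
      if ev μ θ = ev μ θ' then 1 else ((ev μ θ : ℤ) - (ev μ θ' : ℤ)).natAbs) (mem_univ θ)
    have h2 := Finset.dvd_prod_of_mem (fun θ' : Fin n → Fin κ =>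
      if ev μ θ = ev μ θ' then 1 else ((ev μ θ : ℤ) - (ev μ θ' : ℤ)).natAbs) (mem_univ θ')
    refine Dvd.dvd.trans ?_ (h2.trans h1)
    simp only [if_neg h]
    exact dvd_rfl

end Pool.Agent.H2.NC
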