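import Pool.Agent.H2.NC.Defs
import Pool.Agent.H16.GPS.Rel.Coin

/-!
JOB NC-SECOND (MP_c183ae_nt). Many `m` by a second moment.

PROOF. For `h : Fin κ → Γ` put `c h = ∑ i, h i` and `G m = ∑ h, (∏ lam (h i)) * ∏ j, f (th j, m - el (th j) • c h)`. Since
`LT el th j h = ∑ i, el (th i) • h i - el (th j) • c h`, translating `p` by `∑ i, el (th i) • h i` for each fixed `h` gives
`LamT κ el lam th f = ∑ m, unif Γ m * G m`. Second moment: `G m ^ 2 = ∑ h, ∑ h', ..`, `f ≤ ν`; for `h, h'` in the support of `lam`: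
if `c h ≠ c h'` the pairs `(th j, - el (th j) • c h)`, `(th j, - el (th j) • c h')` are `2 κ` pairs satisfying the hypothesis of `CorrH`
(`el (th j)` distinct for distinct `j`, and `el (th j) • c h = el (th j) • c h'` is excluded by `hinj`), so the average over `m` of the
product of the `ν` is `≤ 1 + ε ≤ 2`; the pairs `h, h'` with `c h = c h'` have weight `≤ a` (`coin_prob_le`: the equation determines `h' 0`),
and the product is `≤ Bd^(2κ)`. So `∑ m, unif Γ m * G m ^ 2 ≤ 2 + a Bd^(2κ) ≤ 3`. Cauchy-Schwarz: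
`c^2 ≤ (∑ unif G)^2 ≤ (∑ unif G^2) * (proportion of {m | G m ≠ 0})`; if `G m ≠ 0` there is `h` in the support with all factors `≠ 0`.
-/

set_option autoImplicit false

open Finset

namespace Pool.Agent.H2.NC

open Pool.Agent.H16 Pool.Agent.H16.GPS

section
variable {κ : ℕ} {Θ Γ : Type} [Fintype Γ] [AddCommGroup Γ]

omit [Fintype Γ] in
lemma second_LT (el : Θ → ℤ) (th : Fin κ → Θ) (j : Fin κ) (h : Fin κ → Γ) :
    LT el th j h = ∑ i, el (th i) • h i - el (th j) • ∑ i, h i := by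
  unfold LT
  rw [Finset.smul_sum, ← Finset.sum_sub_distrib]
  exact Finset.sum_congr rfl fun i _ => sub_smul _ _ _

/-- the product of the values at the points of `h` -/
noncomputable def second_pr (el : Θ → ℤ) (th : Fin κ → Θ) (f : Θ × Γ → ℝ) (m : Γ)
    (h : Fin κ → Γ) : ℝ := ∏ j, f (th j, m - el (th j) • ∑ i, h i)

/-- the weighted number of solutions for `m` -/
noncomputable def second_G (el : Θ → ℤ) (lam : Γ → ℝ) (th : Fin κ → Θ) (f : Θ × Γ → ℝ)
    (m : Γ) : ℝ := ∑ h : Fin κ → Γ, (∏ i, lam (h i)) * second_pr el th f m h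

lemma second_LamT (el : Θ → ℤ) (lam : Γ → ℝ) (th : Fin κ → Θ) (f : Θ × Γ → ℝ) :
    LamT κ el lam th f = ∑ m, unif Γ m * second_G el lam th f m := by
  unfold LamT EE second_G
  simp only [Finset.mul_sum]
  rw [Finset.sum_comm]
  conv_rhs => rw [Finset.sum_comm]
  refine Finset.sum_congr rfl fun h _ => ?_
  refine Fintype.sum_equiv (Equiv.addRight (∑ i, el (th i) • h i)) _ _ fun p => ?_
  have h1 : unif Γ p = unif Γ ((Equiv.addRight (∑ i, el (th i) • h i)) p) := rfl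
  rw [h1]
  congr 2
  refine Finset.prod_congr rfl fun j _ => ?_
  congr 2
  rw [second_LT, Equiv.coe_addRight, add_sub_assoc]

/-- average of the product for a pair -/
noncomputable def second_B (el : Θ → ℤ) (th : Fin κ → Θ) (ν : Θ × Γ → ℝ)
    (h h' : Fin κ → Γ) : ℝ :=
  ∑ m, unif Γ m * (second_pr el th ν m h * second_pr el th ν m h')

lemma second_B_le_two (hκ : 2 ≤ κ) (el : Θ → ℤ) (th : Fin κ → Θ) (D : ℕ)
    (hth : ∀ i j : Fin κ, i ≠ j → el (th i) ≠ el (th j)) (hel : ∀ j : Fin κ, el (th j) ∣ (D : ℤ))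
    (lam : Γ → ℝ)
    (hinj : ∀ c : ℤ, c ∣ (D : ℤ) → Function.Injective (fun g : Γ => c • g))
    (ν : Θ × Γ → ℝ) (𝒮 : Set Γ)
    (hS : ∀ (j : Fin κ) (h : Fin κ → Γ), (∀ i, lam (h i) ≠ 0) → -(el (th j) • ∑ i, h i) ∈ 𝒮)
    (hcorr : CorrH el 𝒮 ν (κ * 2 ^ κ) 1) (h h' : Fin κ → Γ) (hh : ∀ i, lam (h i) ≠ 0)
    (hh' : ∀ i, lam (h' i) ≠ 0) (hne : ∑ i, h i ≠ ∑ i, h' i) : second_B el th ν h h' ≤ 2 := by
  classical
  let φ : Fin κ × Bool → Θ × Γ := fun x =>
    (th x.1, -(el (th x.1) • ∑ i, (if x.2 then h else h') i))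
  have hφ : ∀ x y : Fin κ × Bool, el (φ x).1 = el (φ y).1 → (φ x).2 = (φ y).2 → x = y := by
    rintro ⟨j, b⟩ ⟨j', b'⟩ h1 h2
    have h3 : j = j' := by
      by_contra hj
      exact hth j j' hj h1
    subst h3
    have h4 : el (th j) • ∑ i, (if b then h else h') i = el (th j) • ∑ i, (if b' then h else h') i :=
      neg_injective h2
    have h5 := hinj (el (th j)) (hel j) h4
    cases b <;> cases b'
    · rfl
    · exact absurd h5.symm hne
    · exact absurd h5 hne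
    · rfl
  have hinjφ : Function.Injective φ := fun x y hxy => hφ x y (by rw [hxy]) (by rw [hxy])
  have hcard : #(univ.image φ) ≤ κ * 2 ^ κ := by
    refine Finset.card_image_le.trans ?_
    rw [Finset.card_univ, Fintype.card_prod, Fintype.card_fin, Fintype.card_bool]
    refine Nat.mul_le_mul_left _ ?_
    calc 2 = 2 ^ 1 := rfl
      _ ≤ 2 ^ κ := Nat.pow_le_pow_right (by norm_num) (by omega)
  have h1 := hcorr (univ.image φ) hcard ?_ ?_
  · have h2 : ∀ p : Γ, ∏ s ∈ univ.image φ, ν (s.1, p + s.2) =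
        second_pr el th ν p h * second_pr el th ν p h' := by
      intro p
      rw [Finset.prod_image fun x _ y _ hxy => hinjφ hxy, Fintype.prod_prod_type]
      unfold second_pr
      rw [← Finset.prod_mul_distrib]
      refine Finset.prod_congr rfl fun j _ => ?_
      rw [Fintype.prod_bool]
      simp only [φ, if_true, if_false, Bool.false_eq_true, sub_eq_add_neg]
    simp only [h2] at h1
    have h3 : second_B el th ν h h' =
        (∑ p : Γ, second_pr el th ν p h * second_pr el th ν p h') / (Fintype.card Γ : ℝ) := by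
      unfold second_B unif
      rw [Finset.sum_div]
      refine Finset.sum_congr rfl fun m _ => ?_
      ring
    rw [h3]
    have h4 := (abs_le.1 h1).2
    linarith
  · intro s hs
    obtain ⟨⟨j, b⟩, _, rfl⟩ := Finset.mem_image.1 hs
    cases b
    · exact hS j h' hh'
    · exact hS j h hh
  · intro s hs s' hs' h2 h3
    obtain ⟨x, _, rfl⟩ := Finset.mem_image.1 hs
    obtain ⟨y, _, rfl⟩ := Finset.mem_image.1 hs'
    rw [hφ x y h2 h3]

lemma second_unif_sum : ∑ m, unif Γ m = 1 := by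
  unfold unif
  rw [Finset.sum_const, Finset.card_univ, nsmul_eq_mul, mul_one_div, div_self]
  have : 0 < Fintype.card Γ := Fintype.card_pos_iff.2 ⟨0⟩
  positivity

lemma second_unif_nonneg (m : Γ) : 0 ≤ unif Γ m := by
  unfold unif
  positivity

omit [Fintype Γ] in
lemma second_pr_nonneg (el : Θ → ℤ) (th : Fin κ → Θ) (f : Θ × Γ → ℝ) (hf : ∀ p, 0 ≤ f p)
    (m : Γ) (h : Fin κ → Γ) : 0 ≤ second_pr el th f m h :=
  Finset.prod_nonneg fun _ _ => hf _

omit [Fintype Γ] in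
lemma second_pr_le (el : Θ → ℤ) (th : Fin κ → Θ) (f g : Θ × Γ → ℝ) (hf : ∀ p, 0 ≤ f p ∧ f p ≤ g p)
    (m : Γ) (h : Fin κ → Γ) : second_pr el th f m h ≤ second_pr el th g m h :=
  Finset.prod_le_prod (fun _ _ => (hf _).1) fun _ _ => (hf _).2

omit [Fintype Γ] in
lemma second_pr_le_pow (el : Θ → ℤ) (th : Fin κ → Θ) (ν : Θ × Γ → ℝ) (Bd : ℝ)
    (hν0 : ∀ p, 0 ≤ ν p) (hν : ∀ p, ν p ≤ Bd) (m : Γ) (h : Fin κ → Γ) :
    second_pr el th ν m h ≤ Bd ^ κ := by
  unfold second_pr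
  calc ∏ j, ν (th j, m - el (th j) • ∑ i, h i) ≤ ∏ _j : Fin κ, Bd :=
        Finset.prod_le_prod (fun _ _ => hν0 _) fun _ _ => hν _
    _ = Bd ^ κ := by rw [Finset.prod_const, Finset.card_univ, Fintype.card_fin]

lemma second_B_le_pow (el : Θ → ℤ) (th : Fin κ → Θ) (ν : Θ × Γ → ℝ) (Bd : ℝ)
    (hν0 : ∀ p, 0 ≤ ν p) (hν : ∀ p, ν p ≤ Bd) (h h' : Fin κ → Γ) :
    second_B el th ν h h' ≤ Bd ^ (2 * κ) := by
  unfold second_B
  calc ∑ m, unif Γ m * (second_pr el th ν m h * second_pr el th ν m h')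
      ≤ ∑ m, unif Γ m * Bd ^ (2 * κ) := by
        refine Finset.sum_le_sum fun m _ => mul_le_mul_of_nonneg_left ?_ (second_unif_nonneg m)
        rw [two_mul, pow_add]
        exact mul_le_mul (second_pr_le_pow el th ν Bd hν0 hν m h)
          (second_pr_le_pow el th ν Bd hν0 hν m h') (second_pr_nonneg el th ν hν0 m h')
          ((second_pr_nonneg el th ν hν0 m h).trans (second_pr_le_pow el th ν Bd hν0 hν m h))
    _ = Bd ^ (2 * κ) := by rw [← Finset.sum_mul, second_unif_sum, one_mul]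

lemma second_moment (hκ : 2 ≤ κ) (el : Θ → ℤ) (th : Fin κ → Θ) (D : ℕ)
    (hth : ∀ i j : Fin κ, i ≠ j → el (th i) ≠ el (th j)) (hel : ∀ j : Fin κ, el (th j) ∣ (D : ℤ))
    (lam : Γ → ℝ) (hl : IsPW lam) (a : ℝ) (ha : ∀ g, lam g ≤ a)
    (hinj : ∀ c : ℤ, c ∣ (D : ℤ) → Function.Injective (fun g : Γ => c • g))
    (ν f : Θ × Γ → ℝ) (Bd : ℝ) (hBd : 1 ≤ Bd) (hν : ∀ p, ν p ≤ Bd)
    (hf : ∀ p, 0 ≤ f p ∧ f p ≤ ν p) (haB : a * Bd ^ (2 * κ) ≤ 1) (𝒮 : Set Γ)
    (hS : ∀ (j : Fin κ) (h : Fin κ → Γ), (∀ i, lam (h i) ≠ 0) → -(el (th j) • ∑ i, h i) ∈ 𝒮)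
    (hcorr : CorrH el 𝒮 ν (κ * 2 ^ κ) 1) :
    ∑ m, unif Γ m * second_G el lam th f m ^ 2 ≤ 3 := by
  classical
  have hν0 : ∀ p, 0 ≤ ν p := fun p => (hf p).1.trans (hf p).2
  have hL0 : ∀ h : Fin κ → Γ, 0 ≤ ∏ i, lam (h i) := fun h => Finset.prod_nonneg fun _ _ => hl.1 _
  have ha0 : 0 ≤ a := (hl.1 0).trans (ha 0)
  have hBd0 : 0 ≤ Bd ^ (2 * κ) := by positivity
  have e1 : ∑ m, unif Γ m * second_G el lam th f m ^ 2 =
      ∑ h : Fin κ → Γ, ∑ h' : Fin κ → Γ, (∏ i, lam (h i)) * ((∏ i, lam (h' i)) *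
        second_B el th f h h') := by
    have e2 : ∀ m, unif Γ m * second_G el lam th f m ^ 2 = ∑ h : Fin κ → Γ, ∑ h' : Fin κ → Γ,
        unif Γ m * (((∏ i, lam (h i)) * second_pr el th f m h) *
          ((∏ i, lam (h' i)) * second_pr el th f m h')) := by
      intro m
      unfold second_G
      rw [sq, Finset.sum_mul_sum]
      simp only [Finset.mul_sum]
    rw [Finset.sum_congr rfl fun m _ => e2 m, Finset.sum_comm]
    refine Finset.sum_congr rfl fun h _ => ?_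
    rw [Finset.sum_comm]
    refine Finset.sum_congr rfl fun h' _ => ?_
    unfold second_B
    rw [Finset.mul_sum, Finset.mul_sum]
    refine Finset.sum_congr rfl fun m _ => ?_
    ring
  have hB : ∀ h h' : Fin κ → Γ, second_B el th f h h' ≤ second_B el th ν h h' := by
    intro h h'
    unfold second_B
    refine Finset.sum_le_sum fun m _ => mul_le_mul_of_nonneg_left ?_ (second_unif_nonneg m)
    exact mul_le_mul (second_pr_le el th f ν hf m h) (second_pr_le el th f ν hf m h')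
      (second_pr_nonneg el th f (fun p => (hf p).1) m h') (second_pr_nonneg el th ν hν0 m h)
  have e3 : ∀ h h' : Fin κ → Γ, (∏ i, lam (h i)) * ((∏ i, lam (h' i)) * second_B el th f h h') ≤
      (∏ i, lam (h i)) * ((∏ i, lam (h' i)) * (2 + (if ∑ i, h i = ∑ i, h' i then 1 else 0) *
        Bd ^ (2 * κ))) := by
    intro h h'
    by_cases h1 : ∀ i, lam (h i) ≠ 0
    · by_cases h2 : ∀ i, lam (h' i) ≠ 0
      · refine mul_le_mul_of_nonneg_left (mul_le_mul_of_nonneg_left ?_ (hL0 h')) (hL0 h)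
        refine (hB h h').trans ?_
        by_cases h3 : ∑ i, h i = ∑ i, h' i
        · rw [if_pos h3, one_mul]
          have h4 := second_B_le_pow el th ν Bd hν0 hν h h'
          linarith
        · rw [if_neg h3, zero_mul, add_zero]
          exact second_B_le_two hκ el th D hth hel lam hinj ν 𝒮 hS hcorr h h' h1 h2 h3
      · push Not at h2
        obtain ⟨i, hi⟩ := h2
        have h3 : ∏ i, lam (h' i) = 0 := Finset.prod_eq_zero (Finset.mem_univ i) hi
        rw [h3, zero_mul, zero_mul]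
    · push Not at h1
      obtain ⟨i, hi⟩ := h1
      rw [Finset.prod_eq_zero (Finset.mem_univ i) hi, zero_mul, zero_mul]
  rw [e1]
  have hj : 0 < κ := by omega
  have e4 : ∀ h : Fin κ → Γ, ∑ h' : Fin κ → Γ, (∏ i, lam (h' i)) *
      (if ∑ i, h i = ∑ i, h' i then (1 : ℝ) else 0) ≤ a := by
    intro h
    refine coin_prob_le lam hl a ha ha0 (⟨0, hj⟩ : Fin κ) (fun h' => ∑ i, h i = ∑ i, h' i) ?_
    intro g x x' hx hx'
    have h1 := hx.symm.trans hx'
    rw [Finset.sum_update_of_mem (Finset.mem_univ _),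
      Finset.sum_update_of_mem (Finset.mem_univ _)] at h1
    exact add_right_cancel h1
  calc ∑ h : Fin κ → Γ, ∑ h' : Fin κ → Γ, (∏ i, lam (h i)) * ((∏ i, lam (h' i)) *
        second_B el th f h h')
      ≤ ∑ h : Fin κ → Γ, ∑ h' : Fin κ → Γ, (∏ i, lam (h i)) * ((∏ i, lam (h' i)) *
        (2 + (if ∑ i, h i = ∑ i, h' i then 1 else 0) * Bd ^ (2 * κ))) :=
        Finset.sum_le_sum fun h _ => Finset.sum_le_sum fun h' _ => e3 h h'
    _ = ∑ h : Fin κ → Γ, (∏ i, lam (h i)) * (2 * ∑ h' : Fin κ → Γ, (∏ i, lam (h' i)) +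
          Bd ^ (2 * κ) * ∑ h' : Fin κ → Γ, (∏ i, lam (h' i)) *
            (if ∑ i, h i = ∑ i, h' i then (1 : ℝ) else 0)) := by
        refine Finset.sum_congr rfl fun h _ => ?_
        rw [← Finset.mul_sum]
        congr 1
        rw [Finset.mul_sum, Finset.mul_sum, ← Finset.sum_add_distrib]
        refine Finset.sum_congr rfl fun h' _ => ?_
        ring
    _ ≤ ∑ h : Fin κ → Γ, (∏ i, lam (h i)) * 3 := by
        refine Finset.sum_le_sum fun h _ => mul_le_mul_of_nonneg_left ?_ (hL0 h)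
        rw [sum_pi_weight lam hl]
        have h1 := mul_le_mul_of_nonneg_left (e4 h) hBd0
        linarith
    _ = 3 := by rw [← Finset.sum_mul, sum_pi_weight lam hl, one_mul]

end

theorem many_m (κ : ℕ) (hκ : 2 ≤ κ) {Θ Γ : Type} [Fintype Γ] [AddCommGroup Γ]
    (el : Θ → ℤ) (th : Fin κ → Θ) (D : ℕ) (hD : 0 < D)
    (hth : ∀ i j : Fin κ, i ≠ j → el (th i) ≠ el (th j)) (hel : ∀ j : Fin κ, el (th j) ∣ (D : ℤ))
    (lam : Γ → ℝ) (hl : IsPW lam) (a : ℝ) (ha : ∀ g, lam g ≤ a)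
    (hinj : ∀ c : ℤ, c ∣ (D : ℤ) → Function.Injective (fun g : Γ => c • g))
    (ν f : Θ × Γ → ℝ) (Bd : ℝ) (hBd : 1 ≤ Bd) (hν : ∀ p, ν p ≤ Bd)
    (hf : ∀ p, 0 ≤ f p ∧ f p ≤ ν p) (haB : a * Bd ^ (2 * κ) ≤ 1) (𝒮 : Set Γ)
    (hS : ∀ (j : Fin κ) (h : Fin κ → Γ), (∀ i, lam (h i) ≠ 0) → -(el (th j) • ∑ i, h i) ∈ 𝒮)
    (hcorr : CorrH el 𝒮 ν (κ * 2 ^ κ) 1) (c : ℝ) (hc : 0 < c) (hLam : c ≤ LamT κ el lam th f) :
    ∃ M : Finset Γ, c ^ 2 / 3 * (Fintype.card Γ : ℝ) ≤ #M ∧ ∀ m ∈ M, ∃ h : Fin κ → Γ,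
      (∀ i, lam (h i) ≠ 0) ∧ ∀ j, f (th j, m - el (th j) • ∑ i, h i) ≠ 0 := by
  classical
  have h3 := second_moment hκ el th D hth hel lam hl a ha hinj ν f Bd hBd hν hf haB 𝒮 hS hcorr
  rw [second_LamT] at hLam
  have hN : (0 : ℝ) < Fintype.card Γ := by
    have : 0 < Fintype.card Γ := Fintype.card_pos_iff.2 ⟨0⟩
    exact_mod_cast this
  refine ⟨univ.filter (fun m => second_G el lam th f m ≠ 0), ?_, ?_⟩
  · set M : Finset Γ := univ.filter (fun m => second_G el lam th f m ≠ 0) with hM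
    have e1 : ∑ m, unif Γ m * second_G el lam th f m =
        (∑ m ∈ M, second_G el lam th f m) / (Fintype.card Γ : ℝ) := by
      rw [hM, Finset.sum_filter_ne_zero, Finset.sum_div]
      refine Finset.sum_congr rfl fun m _ => ?_
      unfold unif
      ring
    have e2 : (∑ m ∈ M, second_G el lam th f m ^ 2) / (Fintype.card Γ : ℝ) ≤ 3 := by
      refine le_trans ?_ h3
      rw [Finset.sum_div]
      calc ∑ m ∈ M, second_G el lam th f m ^ 2 / (Fintype.card Γ : ℝ)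
          ≤ ∑ m, second_G el lam th f m ^ 2 / (Fintype.card Γ : ℝ) :=
            Finset.sum_le_sum_of_subset_of_nonneg (Finset.subset_univ _)
              fun m _ _ => by positivity
        _ = _ := by
            refine Finset.sum_congr rfl fun m _ => ?_
            unfold unif
            ring
    have e3 : (∑ m ∈ M, second_G el lam th f m) ^ 2 ≤
        (#M : ℝ) * ∑ m ∈ M, second_G el lam th f m ^ 2 := sq_sum_le_card_mul_sum_sq
    rw [e1, le_div_iff₀ hN] at hLam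
    rw [div_le_iff₀ hN] at e2
    have e4 : (c * (Fintype.card Γ : ℝ)) ^ 2 ≤ (#M : ℝ) * (3 * (Fintype.card Γ : ℝ)) :=
      calc (c * (Fintype.card Γ : ℝ)) ^ 2 ≤ (∑ m ∈ M, second_G el lam th f m) ^ 2 :=
            pow_le_pow_left₀ (by positivity) hLam 2
        _ ≤ _ := e3
        _ ≤ _ := mul_le_mul_of_nonneg_left e2 (Nat.cast_nonneg _)
    have e5 : (c ^ 2 / 3 * (Fintype.card Γ : ℝ)) * (3 * (Fintype.card Γ : ℝ)) ≤
        (#M : ℝ) * (3 * (Fintype.card Γ : ℝ)) := by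
      refine le_trans (le_of_eq ?_) e4
      ring
    exact le_of_mul_le_mul_right e5 (by positivity)
  · intro m hm
    have h1 : second_G el lam th f m ≠ 0 := (Finset.mem_filter.1 hm).2
    obtain ⟨h, _, h2⟩ := Finset.exists_ne_zero_of_sum_ne_zero h1
    refine ⟨h, ?_, ?_⟩
    · intro i hi
      exact h2 (by rw [Finset.prod_eq_zero (Finset.mem_univ i) hi, zero_mul])
    · intro j hj
      apply h2
      have h3 : second_pr el th f m h = 0 := Finset.prod_eq_zero (Finset.mem_univ j) hj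
      rw [h3, mul_zero]

end Pool.Agent.H2.NC
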