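import Pool.Agent.H2.NC.RelMain
import Pool.Agent.H2.NC.Dense
import Pool.Agent.H2.NC.LfT
import Pool.Agent.H2.NC.LfQ
import Pool.Agent.H2.NC.Law
import Pool.Agent.H2.NC.CorrZ
import Pool.Agent.H2.NC.Second
import Pool.Agent.H2.NC.Pat
import Pool.Agent.H2.NC.FleNu
import Pool.Agent.H2.NC.Mean

/-!
NC-FIN1 (MP_c183ae_nt). One residue class modulo `W`: a positive proportion of the `m`.

For all large `ℓ` there is a prime `e` (not dividing `∏ μ`) such that, with `W = W1 ℓ e`, `P = ∏ μ`: for every `Y = D u + 1` of the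
right size and every class `b` with its shift `cb`, for at least `c₂ Y` of the `m < Y` there is `c3 ≤ ℓ^B` such that the numbers
`av (th j) * (W m + b + W) - (P^n W c3 + cb)` are prime, for one pattern `th`.
-/

set_option autoImplicit false

open Finset Filter

namespace Pool.Agent.H2.NC

open Pool.Agent.H16 Pool.Agent.H16.GPS

theorem fin1_sum_val (Y : ℕ) [NeZero Y] (F : ℕ → ℝ) :
    ∑ y : ZMod Y, F y.val = ∑ y ∈ range Y, F y := by
  refine Finset.sum_nbij' (fun y : ZMod Y => y.val) (fun y : ℕ => (y : ZMod Y)) ?_ ?_ ?_ ?_ ?_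
  · intro y _
    exact Finset.mem_range.mpr (ZMod.val_lt y)
  · intro y _
    exact Finset.mem_univ _
  · intro y _
    exact ZMod.natCast_zmod_val y
  · intro y hy
    exact ZMod.val_cast_of_lt (Finset.mem_range.mp hy)
  · intro y _
    rfl

/-- the shorter law -/
noncomputable def Ha (B : ℕ) (ℓ : ℝ) : ℕ := ⌊ℓ ^ B⌋₊ + 1

/-- the longer law -/
noncomputable def Hb (B D : ℕ) (τ ℓ : ℝ) : ℕ := ⌈2 * (D : ℝ) * Ha B ℓ / τ⌉₊ + Ha B ℓ

theorem Ha_pos (B : ℕ) (ℓ : ℝ) : 1 ≤ Ha B ℓ := by unfold Ha; omega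

theorem Ha_le_Hb (B D : ℕ) (τ ℓ : ℝ) : Ha B ℓ ≤ Hb B D τ ℓ := by unfold Hb; omega

theorem Hb_pos (B D : ℕ) (τ ℓ : ℝ) : 1 ≤ Hb B D τ ℓ := (Ha_pos B ℓ).trans (Ha_le_Hb B D τ ℓ)

theorem Ha_lower (B : ℕ) (ℓ : ℝ) : ℓ ^ B ≤ Ha B ℓ := by
  unfold Ha
  push_cast
  exact (Nat.lt_floor_add_one _).le

theorem Hb_lower (B D : ℕ) (τ ℓ : ℝ) : ℓ ^ B ≤ Hb B D τ ℓ :=
  (Ha_lower B ℓ).trans (by exact_mod_cast Ha_le_Hb B D τ ℓ)

theorem Hb_near (B D : ℕ) (τ ℓ : ℝ) (hτ : 0 < τ) :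
    2 * (D : ℝ) * (Ha B ℓ) / (Hb B D τ ℓ) ≤ τ := by
  have h1 : (0 : ℝ) < Hb B D τ ℓ := by exact_mod_cast Hb_pos B D τ ℓ
  rw [div_le_iff₀ h1]
  have h2 : 2 * (D : ℝ) * Ha B ℓ / τ ≤ Hb B D τ ℓ := by
    unfold Hb
    push_cast
    have h3 := Nat.le_ceil (2 * (D : ℝ) * Ha B ℓ / τ)
    have h4 : (0 : ℝ) ≤ Ha B ℓ := Nat.cast_nonneg _
    linarith
  rw [div_le_iff₀ hτ] at h2
  linarith

theorem Hb_upper (B D k : ℕ) (τ : ℝ) (hτ : 0 < τ) : ∀ᶠ ℓ : ℝ in atTop,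
    ((k * D * Hb B D τ ℓ : ℕ) : ℝ) ≤ ℓ ^ (B + 1) := by
  set C : ℝ := (k : ℝ) * D * ((2 * (D : ℝ) / τ) * 2 + 1 + 2) with hC
  have hC0 : 0 ≤ C := by positivity
  filter_upwards [eventually_ge_atTop (1 : ℝ), eventually_ge_atTop C] with ℓ h1 h2
  have h3 : (1 : ℝ) ≤ ℓ ^ B := one_le_pow₀ h1
  have h4 : (Ha B ℓ : ℝ) ≤ 2 * ℓ ^ B := by
    unfold Ha
    push_cast
    have := Nat.floor_le (show (0 : ℝ) ≤ ℓ ^ B by positivity)
    linarith
  have h5 : (Hb B D τ ℓ : ℝ) ≤ ((2 * (D : ℝ) / τ) * 2 + 1 + 2) * ℓ ^ B := by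
    unfold Hb
    push_cast
    have h6 := (Nat.ceil_lt_add_one (show 0 ≤ 2 * (D : ℝ) * Ha B ℓ / τ by positivity)).le
    have h7 : 2 * (D : ℝ) * Ha B ℓ / τ ≤ (2 * (D : ℝ) / τ) * (2 * ℓ ^ B) := by
      have h8 : 2 * (D : ℝ) * Ha B ℓ / τ = (2 * (D : ℝ) / τ) * Ha B ℓ := by ring
      rw [h8]
      exact mul_le_mul_of_nonneg_left h4 (by positivity)
    nlinarith
  push_cast
  calc (k : ℝ) * D * Hb B D τ ℓ ≤ (k : ℝ) * D * (((2 * (D : ℝ) / τ) * 2 + 1 + 2) * ℓ ^ B) :=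
        mul_le_mul_of_nonneg_left h5 (by positivity)
    _ = C * ℓ ^ B := by rw [hC]; ring
    _ ≤ ℓ * ℓ ^ B := mul_le_mul_of_nonneg_right h2 (by positivity)
    _ = ℓ ^ (B + 1) := by ring

/-- numerical facts for large `ℓ` -/
theorem fin1_ev (t Bn κ A : ℕ) (hκt : 2 * κ ≤ t) (ηr c : ℝ) (hηr : 0 < ηr) (hc : 0 < c) :
    ∀ᶠ ℓ : ℝ in atTop, 1 ≤ ℓ ∧ 3 ≤ Real.exp ℓ ∧
      (∀ H : ℕ, ℓ ^ (Bn * t + 1) ≤ H →
        min 1 (ηr / 2) + ((t : ℕ) : ℝ) ^ 2 * (1 / (H : ℝ)) * ((ℓ ^ Bn) ^ t + 1) ≤ ηr ∧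
        1 / (H : ℝ) * (ℓ ^ Bn) ^ (2 * κ) ≤ 1) ∧
      ℓ ^ A ≤ Real.exp (ℓ / 2) ∧ ℓ ^ A ≤ c * Real.exp (ℓ / 2) := by
  have e1 : ∀ c : ℝ, 0 < c → ∀ᶠ ℓ : ℝ in atTop, ℓ ^ A ≤ c * Real.exp (ℓ / 2) := by
    intro c hc
    have h1 := (isLittleO_pow_exp_pos_mul_atTop A (b := 1 / 2) (by norm_num)).bound hc
    filter_upwards [h1, eventually_ge_atTop (0 : ℝ)] with ℓ h2 h0
    rw [Real.norm_of_nonneg (by positivity), Real.norm_of_nonneg (Real.exp_pos _).le] at h2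
    rw [show ℓ / 2 = 1 / 2 * ℓ by ring]
    exact h2
  filter_upwards [eventually_ge_atTop (1 : ℝ), eventually_ge_atTop (3 : ℝ),
    eventually_ge_atTop (4 * (t : ℝ) ^ 2 / ηr), e1 1 one_pos, e1 c hc] with ℓ h1 h3 h4 h5 h6
  refine ⟨h1, ?_, ?_, ?_, h6⟩
  · have := Real.add_one_le_exp ℓ
    linarith
  · intro H hH
    have hp : (0 : ℝ) < ℓ ^ (Bn * t + 1) := by positivity
    have hH0 : (0 : ℝ) < H := lt_of_lt_of_le hp hH
    have h7 : (1 : ℝ) ≤ ℓ ^ (Bn * t) := one_le_pow₀ h1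
    constructor
    · have h8 : 1 / (H : ℝ) ≤ 1 / ℓ ^ (Bn * t + 1) := one_div_le_one_div_of_le hp hH
      have h9 : (ℓ ^ Bn) ^ t + 1 ≤ 2 * ℓ ^ (Bn * t) := by
        rw [← pow_mul]; linarith
      have h10 : (t : ℝ) ^ 2 * (1 / (H : ℝ)) * ((ℓ ^ Bn) ^ t + 1) ≤
          (t : ℝ) ^ 2 * (1 / ℓ ^ (Bn * t + 1)) * (2 * ℓ ^ (Bn * t)) := by
        gcongr
      have h11 : (t : ℝ) ^ 2 * (1 / ℓ ^ (Bn * t + 1)) * (2 * ℓ ^ (Bn * t)) = 2 * (t : ℝ) ^ 2 / ℓ := by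
        rw [pow_succ]
        have : (ℓ : ℝ) ^ (Bn * t) ≠ 0 := by positivity
        have h0 : ℓ ≠ 0 := by positivity
        field_simp
        ring
      have h12 : 2 * (t : ℝ) ^ 2 / ℓ ≤ ηr / 2 := by
        rw [div_le_iff₀ (by linarith)]
        rw [div_le_iff₀ hηr] at h4
        linarith
      have h13 : min 1 (ηr / 2) ≤ ηr / 2 := min_le_right _ _
      linarith
    · rw [one_div, inv_mul_le_iff₀ hH0, mul_one, ← pow_mul]
      refine le_trans ?_ hH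
      refine pow_le_pow_right₀ h1 ?_
      have := Nat.mul_le_mul_left Bn hκt
      omega
  · linarith

open Classical in
theorem class_main (κ : ℕ) (hκ : 2 ≤ κ) (μ : Fin κ → ℕ) (hμ : Function.Injective μ)
    (hμ0 : ∀ j, 0 < μ j) : ∃ (n D B : ℕ) (c₂ : ℝ), 0 < D ∧ 0 < c₂ ∧ ∀ᶠ ℓ : ℝ in atTop,
    ∃ e : ℕ, e.Prime ∧ ¬ e ∣ (∏ j, μ j) ∧ ∀ u Y : ℕ, Y = D * u + 1 → 2 * Real.exp (ℓ / 2) ≤ Y →
    (((∏ j, μ j) ^ n * W1 ℓ e * Y : ℕ) : ℝ) ≤ Real.exp ℓ → ∀ b cb : ℕ, b < W1 ℓ e → 1 ≤ cb →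
    cb ≤ W1 ℓ e → (∀ a : ℕ, a ∣ (∏ j, μ j) ^ n → cb < a * (b + W1 ℓ e) ∧
      Nat.Coprime (a * (b + W1 ℓ e) - cb) (a * W1 ℓ e)) →
    ∃ th ∈ pats κ n, c₂ * (Y : ℝ) ≤ (#((range Y).filter (fun m => ∃ c3 : ℕ, (c3 : ℝ) ≤ ℓ ^ B ∧
      ∀ j, ∃ q : ℕ, q.Prime ∧ q + ((∏ i, μ i) ^ n * W1 ℓ e * c3 + cb) =
        av μ (th j) * (W1 ℓ e * m + (b + W1 ℓ e)))) : ℝ) := by
  set t : ℕ := κ * 2 ^ κ with ht
  have htκ : 2 * κ ≤ t := by
    rw [ht]
    have h1 : 2 ≤ 2 ^ κ := by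
      calc 2 = 2 ^ 1 := by norm_num
        _ ≤ 2 ^ κ := Nat.pow_le_pow_right (by norm_num) (by omega)
    nlinarith
  set η : ℝ := 1 / (8 * t + 8) with hη
  have hη0 : 0 < η := by positivity
  have hηt : η * (8 * t + 8) ≤ 1 := by
    rw [hη]; field_simp; exact le_rfl
  have hη1 : η ≤ 1 / 4 := by
    rw [hη]
    apply one_div_le_one_div_of_le (by norm_num)
    have : (0 : ℝ) ≤ t := Nat.cast_nonneg _
    linarith
  set K : ℕ := 16 * t + 1 with hK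
  obtain ⟨cm, hcm, hmean⟩ := mean1 η hη0 hη1
  obtain ⟨c₀, hc₀, hfle⟩ := f_le_nu1 K η hη0 (by linarith)
  obtain ⟨Bn, hBn⟩ := nu1_bound K η hη0 (by linarith)
  set δ : ℝ := c₀ * cm with hδ
  have hδ0 : 0 < δ := by positivity
  obtain ⟨n, c₁, hc₁, hdense⟩ := dense_nc κ (by omega) (δ / 2) (by positivity)
  have : Nonempty (Fin κ) := ⟨⟨0, by omega⟩⟩
  obtain ⟨ηr, hηr, τ, hτ, hrel⟩ := rel_nc κ hκ δ c₁ hδ0 hc₁ (Fin n → Fin κ)
  set el : (Fin n → Fin κ) → ℤ := fun θ => ((ev μ θ : ℕ) : ℤ) with hel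
  set D : ℕ := DD n μ with hD
  have hD0 : 0 < D := DD_pos hμ0
  set P : ℕ := ∏ j, μ j with hP
  have hP0 : 0 < P := Finset.prod_pos fun j _ => hμ0 j
  set A : ℕ := Bn * t + 1 + 1 with hA
  set cc : ℝ := (c₁ / 2) ^ 2 / 3 with hcc
  have hcc0 : 0 < cc := by positivity
  have hev_dvd : ∀ th ∈ pats κ n, ∀ i j : Fin κ, i ≠ j →
      el (th i) - el (th j) ≠ 0 ∧ (el (th i) - el (th j)) ∣ (D : ℤ) := fun th hth i j hij =>
    sub_dvd_DD (th i) (th j) (ev_inj hμ hμ0 th hth i j hij)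
  refine ⟨n, D, A, cc / 2, hD0, by positivity, ?_⟩
  filter_upwards [hmean P n hP0, hfle, hBn,
    corrZ t A η hη0 hηt K le_rfl (min 1 (ηr / 2)) (lt_min one_pos (by positivity))
      (fun θ : Fin n → Fin κ => av μ θ) (av_pos hμ0) el,
    Hb_upper (Bn * t + 1) D κ τ hτ, fin1_ev t Bn κ A htκ ηr (cc / 2) hηr (by positivity),
    primes_le_w1 P hP0] with ℓ hmean hfle hBn hcorrZ hHb hev hpr
  obtain ⟨hℓ1, hexp3, hHev, hA1, hA2⟩ := hev
  obtain ⟨e, he, heP, hmean⟩ := hmean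
  refine ⟨e, he, heP, ?_⟩
  intro u Y hY hYlow hYup b cb hb hcb1 hcb hcop
  set W : ℕ := W1 ℓ e with hW
  have hW0 : 0 < W := W1_pos ℓ e
  have : NeZero Y := ⟨by omega⟩
  set H' : ℕ := Ha (Bn * t + 1) ℓ with hH'
  set H : ℕ := Hb (Bn * t + 1) D τ ℓ with hH
  have hH'1 : 1 ≤ H' := Ha_pos _ _
  have hH1 : 1 ≤ H := Hb_pos _ _ _ _
  set T : ℕ := κ * D * H with hT
  have hexp0 : (0 : ℝ) < Real.exp (ℓ / 2) := Real.exp_pos _
  -- sizes
  have hTY : (T : ℝ) ≤ cc / 2 * Y := by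
    calc (T : ℝ) ≤ ℓ ^ A := hHb
      _ ≤ cc / 2 * Real.exp (ℓ / 2) := hA2
      _ ≤ cc / 2 * Y := by
        apply mul_le_mul_of_nonneg_left _ (by positivity)
        linarith
  have hHT : H ≤ T := by
    rw [hT]
    exact Nat.le_mul_of_pos_left H (Nat.mul_pos (by omega) hD0)
  have hHY : H ≤ Y := by
    have h1 : (H : ℝ) ≤ Y := by
      calc (H : ℝ) ≤ T := by exact_mod_cast hHT
        _ ≤ ℓ ^ A := hHb
        _ ≤ Real.exp (ℓ / 2) := hA1
        _ ≤ Y := by linarith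
    exact_mod_cast h1
  have hH'Y : H' ≤ Y := (Ha_le_Hb _ _ _ _).trans hHY
  -- the forms
  set β : (Fin n → Fin κ) → ℕ := fun θ => av μ θ * (b + W) - cb with hβ
  have hβ0 : ∀ θ, cb < av μ θ * (b + W) ∧ Nat.Coprime (β θ) (av μ θ * W) := fun θ =>
    hcop (av μ θ) (av_dvd hμ0 θ)
  have hβ2 : ∀ θ, β θ < 2 * (av μ θ * W) := by
    intro θ
    have h1 := av_pos hμ0 θ
    have h2 : av μ θ * (b + W) ≤ av μ θ * (2 * W) := Nat.mul_le_mul_left _ (by omega)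
    have h3 : β θ < av μ θ * (b + W) := by
      have := (hβ0 θ).1
      simp only [hβ]
      omega
    have h4 : av μ θ * (2 * W) = 2 * (av μ θ * W) := by ring
    omega
  have hβ1 : ∀ θ, 1 ≤ β θ := by
    intro θ
    have := (hβ0 θ).1
    simp only [hβ]
    omega
  set ν : (Fin n → Fin κ) × ZMod Y → ℝ :=
    fun s => nu1 K η ℓ e (av μ s.1 * W * s.2.val + β s.1) with hν
  set f : (Fin n → Fin κ) × ZMod Y → ℝ := fun s => c₀ * (((W.totient : ℕ) : ℝ) / (W : ℝ) *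
    aw (Real.log ((av μ s.1 * W * Y : ℕ) : ℝ)) (RR η ℓ) (av μ s.1 * W * s.2.val + β s.1)) with hf
  have hsize : ∀ s : (Fin n → Fin κ) × ZMod Y,
      ((av μ s.1 * W * s.2.val + β s.1 : ℕ) : ℝ) ≤ Real.exp (2 * ℓ) := by
    intro s
    have h1 : s.2.val < Y := ZMod.val_lt _
    have h2 : av μ s.1 ≤ P ^ n := Nat.le_of_dvd (pow_pos hP0 n) (av_dvd hμ0 s.1)
    have h3 := hβ2 s.1
    have h4 : av μ s.1 * W * s.2.val + β s.1 ≤ 3 * (P ^ n * W * Y) := by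
      have h5 : av μ s.1 * W * s.2.val ≤ av μ s.1 * W * Y := Nat.mul_le_mul_left _ h1.le
      have h6 : av μ s.1 * W ≤ P ^ n * W := Nat.mul_le_mul_right _ h2
      have h7 : av μ s.1 * W * Y ≤ P ^ n * W * Y := Nat.mul_le_mul_right _ h6
      have h8 : P ^ n * W ≤ P ^ n * W * Y := Nat.le_mul_of_pos_right _ (by omega)
      omega
    calc ((av μ s.1 * W * s.2.val + β s.1 : ℕ) : ℝ) ≤ ((3 * (P ^ n * W * Y) : ℕ) : ℝ) := by
          exact_mod_cast h4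
      _ = 3 * ((P ^ n * W * Y : ℕ) : ℝ) := by push_cast; ring
      _ ≤ 3 * Real.exp ℓ := by linarith
      _ ≤ Real.exp ℓ * Real.exp ℓ := mul_le_mul_of_nonneg_right hexp3 (Real.exp_pos _).le
      _ = Real.exp (2 * ℓ) := by rw [← Real.exp_add]; ring_nf
  have hν0 : ∀ s, 0 ≤ ν s := fun s => nu1_nonneg _ _ _ _ _
  have hνB : ∀ s, ν s ≤ ℓ ^ Bn := by
    intro s
    refine hBn e _ ?_ (hsize s)
    have := hβ1 s.1
    omega
  have hBd : (1 : ℝ) ≤ ℓ ^ Bn := one_le_pow₀ hℓ1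
  have hf01 : ∀ s, 0 ≤ f s ∧ f s ≤ ν s := by
    intro s
    refine ⟨?_, hfle e _ _ (hsize s)⟩
    have h1 := aw_nonneg (Real.log ((av μ s.1 * W * Y : ℕ) : ℝ)) (RR η ℓ)
      (av μ s.1 * W * s.2.val + β s.1)
    simp only [hf]
    positivity
  -- the mean value of f
  have hmean2 : δ ≤ ∑ s, unif ((Fin n → Fin κ) × ZMod Y) s * f s := by
    have hYr : (0 : ℝ) < Y := by
      have : 0 < Y := by omega
      exact_mod_cast this
    have hcard : (Fintype.card ((Fin n → Fin κ) × ZMod Y) : ℝ) =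
        (Fintype.card (Fin n → Fin κ) : ℝ) * Y := by
      rw [Fintype.card_prod, ZMod.card]; push_cast; ring
    have h1 : ∀ θ : Fin n → Fin κ, δ * Y ≤ ∑ y : ZMod Y, f (θ, y) := by
      intro θ
      have h2 := hmean Y (by linarith) hYup (av μ θ) (av_dvd hμ0 θ) (β θ) (hβ2 θ) (hβ0 θ).2
      have h3 : ∑ y : ZMod Y, f (θ, y) = c₀ * ∑ y ∈ range Y, ((W.totient : ℕ) : ℝ) / (W : ℝ) *
          aw (Real.log ((av μ θ * W * Y : ℕ) : ℝ)) (RR η ℓ) (av μ θ * W * y + β θ) := by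
        rw [← fin1_sum_val Y (fun y => ((W.totient : ℕ) : ℝ) / (W : ℝ) *
          aw (Real.log ((av μ θ * W * Y : ℕ) : ℝ)) (RR η ℓ) (av μ θ * W * y + β θ)),
          Finset.mul_sum]
      rw [h3, hδ, mul_assoc]
      exact mul_le_mul_of_nonneg_left h2 hc₀.le
    have h4 : (Fintype.card (Fin n → Fin κ) : ℝ) * (δ * Y) ≤
        ∑ θ : Fin n → Fin κ, ∑ y : ZMod Y, f (θ, y) := by
      have h5 := Finset.card_nsmul_le_sum (univ : Finset (Fin n → Fin κ))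
        (fun θ => ∑ y : ZMod Y, f (θ, y)) (δ * Y) (fun θ _ => h1 θ)
      rwa [nsmul_eq_mul, Finset.card_univ] at h5
    have hc0 : (0 : ℝ) < (Fintype.card (Fin n → Fin κ) : ℝ) := by
      exact_mod_cast Fintype.card_pos
    unfold unif
    rw [← Finset.mul_sum, hcard, Fintype.sum_prod_type, one_div, ← div_eq_inv_mul,
      le_div_iff₀ (by positivity)]
    linarith
  -- the laws
  have hl := lamH_isPW Y H hH1
  have hl' := lamH_isPW Y H' hH'1
  have hinj : ∀ c : ℤ, c ∣ (D : ℤ) → Function.Injective (fun g : ZMod Y => c • g) :=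
    inj_of_mod Y D u hD0 hY
  have hinjD : Function.Injective (fun g : ZMod Y => D • g) := by
    have := hinj (D : ℤ) dvd_rfl
    simpa using this
  -- correlations
  set 𝒮 : Set (ZMod Y) := {g : ZMod Y | ∃ z : ℤ, |z| ≤ T ∧ (z : ZMod Y) = g} with h𝒮
  have hYexp : (Y : ℝ) ≤ Real.exp ℓ := by
    refine le_trans ?_ hYup
    have h1 : Y ≤ P ^ n * W * Y := Nat.le_mul_of_pos_left Y (Nat.mul_pos (pow_pos hP0 n) hW0)
    exact_mod_cast h1
  have hprime : ∀ (θ : Fin n → Fin κ) (p : ℕ), p.Prime → p ∣ av μ θ → p ≤ w1 ℓ ∧ p ≠ e := by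
    intro θ p hp hpa
    refine hpr e heP he p hp ?_
    exact hp.dvd_of_dvd_pow (hpa.trans (av_dvd hμ0 θ))
  have hcorr : CorrH el 𝒮 ν t (min 1 (ηr / 2)) := by
    refine hcorrZ e Y T hYlow hYexp hHb hprime β (fun θ => (hβ0 θ).2) (fun θ => (hβ2 θ).le) ?_
    intro θ θ' h
    refine ⟨?_, ?_⟩
    · simp only [hel]
      rw [ev_of_av hμ0 θ θ' h]
    · simp only [hβ]
      have h' : av μ θ = av μ θ' := h
      rw [h']
  -- supports
  have hcoef : ∀ c : ℤ, c ∣ (D : ℤ) → |c| ≤ (D : ℤ) := by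
    intro c hc
    have h1 := Int.le_of_dvd (by exact_mod_cast hD0) ((abs_dvd c _).mpr hc)
    exact h1
  have hlin : ∀ (cf : Fin κ → ℤ) (L : ℕ), L ≤ H → (∀ i, |cf i| ≤ D) → ∀ h : Fin κ → ZMod Y,
      (∀ i, lamH Y L (h i) ≠ 0) → ∑ i, cf i • h i ∈ 𝒮 := by
    intro cf L hL hcf h hh
    choose k hk using fun i => lamH_support Y L (h i) (hh i)
    refine ⟨∑ i, cf i * (k i : ℤ), ?_, ?_⟩
    · calc |∑ i, cf i * (k i : ℤ)| ≤ ∑ i : Fin κ, |cf i * (k i : ℤ)| := Finset.abs_sum_le_sum_abs _ _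
        _ ≤ ∑ _i : Fin κ, ((D : ℤ) * H) := by
          refine Finset.sum_le_sum fun i _ => ?_
          rw [abs_mul, Nat.abs_cast]
          have h1 : (k i : ℤ) ≤ H := by
            have := (hk i).1
            omega
          exact mul_le_mul (hcf i) h1 (by positivity) (by positivity)
        _ = (T : ℤ) := by
          rw [Finset.sum_const, Finset.card_univ, Fintype.card_fin, hT]
          push_cast
          ring
    · push_cast
      refine Finset.sum_congr rfl fun i _ => ?_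
      rw [← (hk i).2, zsmul_eq_mul]
  have hLFt : ∀ th ∈ pats κ n, LFt κ el (lamH Y H) th ν ηr := by
    intro th hth
    have h1 := lft_of_corr κ hκ el th D hD0 (hev_dvd th hth) (lamH Y H) hl (1 / (H : ℝ))
      (lamH_atom Y H hH1 hHY) hinj ν (ℓ ^ Bn) hBd (fun s => ⟨hν0 s, hνB s⟩) (min 1 (ηr / 2))
      (by positivity) 𝒮 (fun j h hh => by
        refine hlin (fun i => el (th i) - el (th j)) H le_rfl (fun i => ?_) h hh
        by_cases hij : i = j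
        · subst hij
          simp
        · exact hcoef _ (hev_dvd th hth i j hij).2) hcorr
    intro S hS
    exact (h1 S hS).trans (hHev H (Hb_lower _ _ _ _)).1
  have hLFq : ∀ θ : Fin n → Fin κ, LFq κ D (lamH Y H') (fun p => ν (θ, p)) ηr := by
    intro θ
    have h1 := lfq_of_corr κ hκ el θ D (lamH Y H') hl' (1 / (H' : ℝ))
      (lamH_atom Y H' hH'1 hH'Y) hinjD ν (ℓ ^ Bn) hBd (fun s => ⟨hν0 s, hνB s⟩) (min 1 (ηr / 2))
      (by positivity) 𝒮 (fun y hy => by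
        have h2 := hlin (fun _ => (D : ℤ)) H' (Ha_le_Hb _ _ _ _) (fun i => by simp) y hy
        have h3 : D • ∑ c : Fin κ, y c = ∑ i, (D : ℤ) • y i := by
          rw [Finset.smul_sum]
          exact Finset.sum_congr rfl fun i _ => (natCast_zsmul _ _).symm
        rw [h3]
        exact h2) hcorr
    intro S
    exact (h1 S).trans (hHev H' (Ha_lower _ _)).1
  -- the relative theorem
  obtain ⟨th, hth, hLam⟩ := hrel D el (pats κ n) hD0 hev_dvd (ZMod Y) (lamH Y H) (lamH Y H') hl hl'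
    ν f hLFt hLFq (lamH_near Y H H' D hH1 hH'1 τ (Hb_near _ _ _ _ hτ))
    (fun g hg hgδ => hdense el (ZMod Y) (lamH Y H) hl g hg hgδ) hf01 hmean2
  refine ⟨th, hth, ?_⟩
  obtain ⟨M, hM, hMm⟩ := many_m κ hκ el th D hD0
    (fun i j hij h => (hev_dvd th hth i j hij).1 (by rw [h, sub_self]))
    (fun j => ev_dvd_DD (th j)) (lamH Y H) hl (1 / (H : ℝ)) (lamH_atom Y H hH1 hHY) hinj ν f
    (ℓ ^ Bn) hBd hνB hf01 (hHev H (Hb_lower _ _ _ _)).2 𝒮
    (fun j h hh => by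
      have h2 := hlin (fun _ => -el (th j)) H le_rfl
        (fun i => by rw [abs_neg]; exact hcoef _ (ev_dvd_DD (th j))) h hh
      have h3 : -(el (th j) • ∑ i, h i) = ∑ i, (-el (th j)) • h i := by
        rw [← neg_smul, Finset.smul_sum]
      rw [h3]
      exact h2)
    (fun S h1 h2 h3 => (hcorr S h1 h2 h3).trans (min_le_left _ _)) (c₁ / 2) (by positivity) hLam
  rw [ZMod.card] at hM
  -- remove the small values
  set G : Finset ℕ := (range Y).filter (fun m => ∃ c3 : ℕ, (c3 : ℝ) ≤ ℓ ^ A ∧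
      ∀ j, ∃ q : ℕ, q.Prime ∧ q + (P ^ n * W * c3 + cb) =
        av μ (th j) * (W * m + (b + W))) with hG
  have hsub : M.image (fun m : ZMod Y => m.val) ⊆ G ∪ range T := by
    intro m' hm'
    obtain ⟨m, hm, rfl⟩ := Finset.mem_image.mp hm'
    obtain ⟨h, hh, hfh⟩ := hMm m hm
    by_cases hmT : m.val < T
    · exact Finset.mem_union_right _ (Finset.mem_range.mpr hmT)
    refine Finset.mem_union_left _ ?_
    rw [hG, Finset.mem_filter, Finset.mem_range]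
    refine ⟨ZMod.val_lt m, ?_⟩
    choose k hk using fun i => lamH_support Y H (h i) (hh i)
    set c3 : ℕ := ∑ i, k i with hc3
    have hc3H : c3 ≤ κ * H := by
      calc c3 ≤ ∑ _i : Fin κ, H := Finset.sum_le_sum fun i _ => (hk i).1.le
        _ = κ * H := by rw [Finset.sum_const, Finset.card_univ, Fintype.card_fin, smul_eq_mul]
    have hc3T : c3 ≤ T := by
      refine hc3H.trans ?_
      rw [hT]
      exact Nat.mul_le_mul_right H (Nat.le_mul_of_pos_right κ hD0)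
    refine ⟨c3, le_trans (by exact_mod_cast hc3T) hHb, ?_⟩
    intro j
    have h1 := hfh j
    have hev : ev μ (th j) * c3 ≤ T := by
      have h2 : ev μ (th j) ≤ D := by
        have h3 := hcoef _ (ev_dvd_DD (n := n) (μ := μ) (th j))
        rw [Nat.abs_cast] at h3
        exact_mod_cast h3
      calc ev μ (th j) * c3 ≤ D * (κ * H) := Nat.mul_le_mul h2 hc3H
        _ = T := by rw [hT]; ring
    have hval : (m - el (th j) • ∑ i, h i).val = m.val - ev μ (th j) * c3 := by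
      have h4 : m - el (th j) • ∑ i, h i = ((m.val - ev μ (th j) * c3 : ℕ) : ZMod Y) := by
        rw [Nat.cast_sub (by omega), ZMod.natCast_zmod_val]
        congr 1
        simp only [hel]
        rw [natCast_zsmul, hc3]
        push_cast
        rw [nsmul_eq_mul]
        congr 1
        exact Finset.sum_congr rfl fun i _ => (hk i).2.symm
      rw [h4]
      apply ZMod.val_cast_of_lt
      have := ZMod.val_lt m
      omega
    have h5 : aw (Real.log ((av μ (th j) * W * Y : ℕ) : ℝ)) (RR η ℓ)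
        (av μ (th j) * W * (m.val - ev μ (th j) * c3) + β (th j)) ≠ 0 := by
      intro h0
      apply h1
      simp only [hf]
      rw [hval, h0]
      simp
    have h6 : (av μ (th j) * W * (m.val - ev μ (th j) * c3) + β (th j)).Prime := by
      by_contra hnp
      apply h5
      unfold aw
      rw [if_neg (fun hh => hnp hh.1)]
    refine ⟨_, h6, ?_⟩
    have h7 := (hβ0 (th j)).1
    have h8 : av μ (th j) * ev μ (th j) = P ^ n := av_mul_ev hμ0 (th j)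
    have h9 : ev μ (th j) * c3 ≤ m.val := by omega
    have h10 : β (th j) + cb = av μ (th j) * (b + W) := by
      simp only [hβ]
      omega
    obtain ⟨r, hr⟩ := Nat.exists_eq_add_of_le h9
    have h11 : m.val - ev μ (th j) * c3 = r := by omega
    rw [h11, hr, ← h8]
    have h12 : av μ (th j) * W * r + β (th j) + (av μ (th j) * ev μ (th j) * W * c3 + cb) =
        av μ (th j) * W * r + av μ (th j) * ev μ (th j) * W * c3 + (β (th j) + cb) := by ring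
    rw [h12, h10]
    ring
  have hcardM : #M ≤ #G + T := by
    have h1 : #(M.image (fun m : ZMod Y => m.val)) = #M :=
      Finset.card_image_of_injective _ (ZMod.val_injective Y)
    rw [← h1]
    refine (Finset.card_le_card hsub).trans ((Finset.card_union_le _ _).trans ?_)
    rw [Finset.card_range]
  have hcardR : (#M : ℝ) ≤ (#G : ℝ) + T := by exact_mod_cast hcardM
  have hfin : cc * (Y : ℝ) ≤ #M := hM
  linarith

end Pool.Agent.H2.NC
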