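import Pool.Agent.H2.NC.Defs

/-!
JOB NC-RESID (MP_c183ae_nt). The residue class of the shift.

PROOF. `W` is squarefree; let `W₁` be the product of the primes dividing `W` and `b`, `W = W₁ W₂`, `(W₁, W₂) = 1`. Choose
`cb ∈ [1, W]` with `cb ≡ 1 mod W₁`, `cb ≡ 0 mod W₂` (`W₁ ≥ 2` because a prime of `P ≥ 2` divides `W` and `b`). Let `a ∣ P^n` and `p` be a prime
dividing `W` (every prime factor of `a` divides `P`, hence `W`). If `p ∣ b` then `a (b + W) - cb ≡ - cb ≡ - 1 mod p`. If `p ∤ b` then `p ∤ P`, so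
`p ∤ a`, and `a (b + W) - cb ≡ a b ≢ 0 mod p`. `cb ≤ W ≤ a (b + W)`, with equality only if `b = 0`, `a = 1`, `cb = W`, excluded as `cb ≡ 1 mod W₁`.
-/

set_option autoImplicit false

open Finset

namespace Pool.Agent.H2.NC

theorem exists_cb (W P n b : ℕ) (hW : Squarefree W) (hP : 2 ≤ P)
    (hPW : ∀ p, p.Prime → p ∣ P → p ∣ W) (hPb : ∀ p, p.Prime → p ∣ P → p ∣ b) :
    ∃ cb : ℕ, 1 ≤ cb ∧ cb ≤ W ∧ ∀ a : ℕ, a ∣ P ^ n → cb < a * (b + W) ∧
      Nat.Coprime (a * (b + W) - cb) (a * W) := by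
  have hW0 : W ≠ 0 := hW.ne_zero
  obtain ⟨W2, hW2⟩ := Nat.gcd_dvd_left W b
  obtain ⟨W1, hW1⟩ : ∃ W1, W1 = Nat.gcd W b := ⟨_, rfl⟩
  rw [← hW1] at hW2
  have hsq : Squarefree (W1 * W2) := hW2 ▸ hW
  have hco : Nat.Coprime W1 W2 := Nat.coprime_of_squarefree_mul hsq
  have h10 : W1 ≠ 0 := fun h => hW0 (by rw [hW2, h, zero_mul])
  have h20 : W2 ≠ 0 := fun h => hW0 (by rw [hW2, h, mul_zero])
  have hc0 := Nat.chineseRemainder_lt_mul hco 1 0 h10 h20
  obtain ⟨hc1, hc2⟩ := (Nat.chineseRemainder hco 1 0).2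
  generalize ((Nat.chineseRemainder hco 1 0 : {k // k ≡ 1 [MOD W1] ∧ k ≡ 0 [MOD W2]}) : ℕ) = c
    at hc0 hc1 hc2
  rw [← hW2] at hc0
  have hW1two : 2 ≤ W1 := by
    obtain ⟨p, hp, hpP⟩ := Nat.exists_prime_and_dvd (show P ≠ 1 by omega)
    have : p ∣ W1 := by
      rw [hW1]
      exact Nat.dvd_gcd (hPW p hp hpP) (hPb p hp hpP)
    exact hp.two_le.trans (Nat.le_of_dvd (Nat.pos_of_ne_zero h10) this)
  have hcpos : 1 ≤ c := by
    rcases Nat.eq_zero_or_pos c with h | h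
    · exfalso
      rw [h] at hc1
      have h1 : W1 ∣ 1 - 0 := (Nat.modEq_iff_dvd' (by omega)).1 hc1
      have := Nat.le_of_dvd one_pos h1
      omega
    · exact h
  refine ⟨c, hcpos, hc0.le, fun a ha => ?_⟩
  have ha0 : 0 < a := Nat.pos_of_dvd_of_pos ha (by positivity)
  have hlt : c < a * (b + W) := by
    calc c < W := hc0
      _ ≤ b + W := by omega
      _ ≤ a * (b + W) := Nat.le_mul_of_pos_left _ ha0
  refine ⟨hlt, ?_⟩
  refine Nat.coprime_of_dvd fun p hp hpN hpaW => ?_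
  -- `p` divides `W`
  have hpa : p ∣ a → p ∣ P := fun h => hp.dvd_of_dvd_pow (h.trans ha)
  have hpW : p ∣ W := by
    rcases (Nat.Prime.dvd_mul hp).1 hpaW with h | h
    · exact hPW p hp (hpa h)
    · exact h
  -- `p ∣ c` iff `p ∣ a * b`
  have h1 : p ∣ (a * (b + W) - c) + c ↔ p ∣ c := by
    rw [Nat.dvd_add_right hpN]
  rw [Nat.sub_add_cancel hlt.le] at h1
  have h2 : p ∣ a * (b + W) ↔ p ∣ a * b := by
    rw [mul_add]
    exact Nat.dvd_add_left (hpW.mul_left a)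
  rw [h2] at h1
  by_cases hpb : p ∣ b
  · have hpc : p ∣ c := h1.1 (hpb.mul_left a)
    have hpW1 : p ∣ W1 := by
      rw [hW1]
      exact Nat.dvd_gcd hpW hpb
    have h3 : p ∣ c - 1 := by
      have h4 : W1 ∣ c - 1 := (Nat.modEq_iff_dvd' hcpos).1 hc1.symm
      exact hpW1.trans h4
    have h5 : p ∣ 1 := by
      have h6 : p ∣ (c - 1) + 1 := by
        rw [Nat.sub_add_cancel hcpos]
        exact hpc
      exact (Nat.dvd_add_right h3).1 h6
    exact hp.one_lt.ne' (Nat.dvd_one.1 h5)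
  · have hpW2 : p ∣ W2 := by
      rw [hW2] at hpW
      rcases (Nat.Prime.dvd_mul hp).1 hpW with h | h
      · exfalso
        apply hpb
        rw [hW1] at h
        exact h.trans (Nat.gcd_dvd_right W b)
      · exact h
    have hpc : p ∣ c := hpW2.trans ((Nat.modEq_zero_iff_dvd).1 hc2)
    rcases (Nat.Prime.dvd_mul hp).1 (h1.2 hpc) with h | h
    · exact hpb (hPb p hp (hpa h))
    · exact hpb h

end Pool.Agent.H2.NC
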