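import Pool.Agent.H2.NC.Fin1
import Pool.Agent.H2.NC.Resid

/-!
NC-FIN2 (MP_c183ae_nt). The main theorem: sum over the classes.
-/

set_option autoImplicit false

open Finset Filter

namespace Pool.Agent.H2.NC

open Pool.Agent.H16 Pool.Agent.H16.GPS

/-- numerical facts for large `x` -/
theorem fin2_ev (Q D : ℕ) : ∀ᶠ x : ℝ in atTop, 0 < x ∧ 1 ≤ Real.log x ∧
    (Q : ℝ) + 1 ≤ Real.log x ∧
    (∀ W : ℕ, (W : ℝ) ≤ (Real.log x) ^ 2 → 8 * (Q : ℝ) * (W + 1) * D + 8 * (Q : ℝ) * (W + 1) ≤ x ∧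
      8 * (Q : ℝ) * (W + 1) * Real.exp (Real.log x / 2) ≤ x) := by
  have hlog := Real.tendsto_log_atTop
  have h1 : ∀ᶠ ℓ : ℝ in atTop, 8 * (Q : ℝ) * (ℓ ^ 2 + 1) * (D + 1) ≤ Real.exp (ℓ / 2) := by
    have h2 := (isLittleO_pow_exp_pos_mul_atTop 3 (b := 1 / 2) (by norm_num)).bound one_pos
    filter_upwards [h2, eventually_ge_atTop (1 : ℝ),
      eventually_ge_atTop (16 * (Q : ℝ) * (D + 1))] with ℓ h3 h4 h5
    rw [Real.norm_of_nonneg (by positivity), Real.norm_of_nonneg (Real.exp_pos _).le, one_mul] at h3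
    rw [show ℓ / 2 = 1 / 2 * ℓ by ring]
    refine le_trans ?_ h3
    have h6 : ℓ ^ 2 + 1 ≤ 2 * ℓ ^ 2 := by nlinarith
    calc 8 * (Q : ℝ) * (ℓ ^ 2 + 1) * (D + 1) ≤ 8 * (Q : ℝ) * (2 * ℓ ^ 2) * (D + 1) := by gcongr
      _ = (16 * (Q : ℝ) * (D + 1)) * ℓ ^ 2 := by ring
      _ ≤ ℓ * ℓ ^ 2 := mul_le_mul_of_nonneg_right h5 (by positivity)
      _ = ℓ ^ 3 := by ring
  filter_upwards [eventually_gt_atTop (0 : ℝ), hlog.eventually (eventually_ge_atTop (1 : ℝ)),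
    hlog.eventually (eventually_ge_atTop ((Q : ℝ) + 1)), hlog.eventually h1] with x hx h2 h3 h4
  refine ⟨hx, h2, h3, fun W hW => ?_⟩
  have hsq : Real.exp (Real.log x / 2) * Real.exp (Real.log x / 2) = x := by
    rw [← Real.exp_add, add_halves, Real.exp_log hx]
  have he1 : (1 : ℝ) ≤ Real.exp (Real.log x / 2) := Real.one_le_exp (by linarith)
  have h5 : 8 * (Q : ℝ) * (W + 1) * (D + 1) ≤ Real.exp (Real.log x / 2) := by
    refine le_trans ?_ h4
    gcongr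
  have h6 : 8 * (Q : ℝ) * (W + 1) ≤ Real.exp (Real.log x / 2) := by
    refine le_trans ?_ h5
    have : (0 : ℝ) ≤ 8 * (Q : ℝ) * (W + 1) := by positivity
    have hD : (0 : ℝ) ≤ D := Nat.cast_nonneg D
    nlinarith
  constructor
  · calc 8 * (Q : ℝ) * (W + 1) * D + 8 * (Q : ℝ) * (W + 1) = 8 * (Q : ℝ) * (W + 1) * (D + 1) := by ring
      _ ≤ Real.exp (Real.log x / 2) := h5
      _ ≤ Real.exp (Real.log x / 2) * Real.exp (Real.log x / 2) := by nlinarith
      _ = x := hsq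
  · calc 8 * (Q : ℝ) * (W + 1) * Real.exp (Real.log x / 2)
        ≤ Real.exp (Real.log x / 2) * Real.exp (Real.log x / 2) :=
          mul_le_mul_of_nonneg_right h6 (Real.exp_pos _).le
      _ = x := hsq

theorem fin2_P2 {κ : ℕ} (hκ : 2 ≤ κ) (μ : Fin κ → ℕ) (hμ : Function.Injective μ)
    (hμ0 : ∀ j, 0 < μ j) : 2 ≤ ∏ j, μ j := by
  have h1 : ∃ j, 2 ≤ μ j := by
    by_contra hcon
    push Not at hcon
    have h2 : μ ⟨0, by omega⟩ = μ ⟨1, by omega⟩ := by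
      have a1 := hcon ⟨0, by omega⟩
      have a2 := hμ0 ⟨0, by omega⟩
      have b1 := hcon ⟨1, by omega⟩
      have b2 := hμ0 ⟨1, by omega⟩
      omega
    have h3 := hμ h2
    simp at h3
  obtain ⟨j, hj⟩ := h1
  have h4 : μ j ∣ ∏ i, μ i := Finset.dvd_prod_of_mem μ (Finset.mem_univ j)
  exact hj.trans (Nat.le_of_dvd (Finset.prod_pos fun i _ => hμ0 i) h4)

open Classical in
theorem main_nc (κ : ℕ) (hκ : 2 ≤ κ) (μ : Fin κ → ℕ) (hμ : Function.Injective μ)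
    (hμ0 : ∀ j, 0 < μ j) : ∃ (N C : ℕ) (δ : ℝ), 0 < δ ∧ ∀ᶠ x : ℝ in atTop,
    ∃ d : ℕ, 1 ≤ d ∧ d ≤ N ∧ δ * x ≤ (#((Icc 1 ⌊x⌋₊).filter (fun m => ∃ c : ℕ, 1 ≤ c ∧
      (c : ℝ) ≤ (Real.log x) ^ C ∧ ∀ j, ∃ q : ℕ, q.Prime ∧ q + c = μ j ^ d * m)) : ℝ) := by
  obtain ⟨n, D, B, c₂, hD, hc₂, hmain⟩ := class_main κ hκ μ hμ hμ0
  set P : ℕ := ∏ j, μ j with hP
  have hP2 : 2 ≤ P := fin2_P2 hκ μ hμ hμ0
  have hP0 : 0 < P := by omega
  set Q : ℕ := P ^ n with hQ
  have hQ0 : 0 < Q := pow_pos hP0 n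
  have hlog := Real.tendsto_log_atTop
  refine ⟨n, B + 3, c₂ / (4 * Q ^ 2 * (n + 1) * P), by positivity, ?_⟩
  filter_upwards [hlog.eventually hmain, hlog.eventually W1_le,
    hlog.eventually (primes_le_w1 P hP0), fin2_ev Q D] with x hmain hW1 hpr hev
  obtain ⟨hx0, hℓ1, hℓQ, hWev⟩ := hev
  obtain ⟨e, he, heP, hmain⟩ := hmain
  set ℓ : ℝ := Real.log x with hℓ
  set W : ℕ := W1 ℓ e with hW
  have hW0 : 0 < W := W1_pos ℓ e
  have hWr : (1 : ℝ) ≤ W := by exact_mod_cast hW0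
  have hWℓ : (W : ℝ) ≤ ℓ ^ 2 := hW1 e
  obtain ⟨hx1, hx2⟩ := hWev W hWℓ
  have hexp : Real.exp ℓ = x := Real.exp_log hx0
  have hQr : (1 : ℝ) ≤ Q := by exact_mod_cast hQ0
  have hDr : (1 : ℝ) ≤ D := by exact_mod_cast hD
  have hPr : (2 : ℝ) ≤ P := by exact_mod_cast hP2
  -- the length
  set u : ℕ := ⌊x / (2 * Q * W * D)⌋₊ with hu
  set Y : ℕ := D * u + 1 with hY
  have hden : (0 : ℝ) < 2 * Q * W * D := by positivity
  have hu1 : (u : ℝ) * (2 * Q * W * D) ≤ x := by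
    have := Nat.floor_le (show 0 ≤ x / (2 * Q * W * D) by positivity)
    rwa [← hu, le_div_iff₀ hden] at this
  have hu2 : x ≤ (u + 1) * (2 * Q * W * D) := by
    have := (Nat.lt_floor_add_one (x / (2 * Q * W * D))).le
    rwa [← hu, div_le_iff₀ hden] at this
  have hYr : (Y : ℝ) = D * u + 1 := by rw [hY]; push_cast; ring
  have hQW : (0 : ℝ) < Q * W := by positivity
  have hbig1 : 8 * ((Q : ℝ) * W) * D ≤ x := by
    refine le_trans ?_ hx1
    have h1 : 0 ≤ 8 * (Q : ℝ) * (W + 1) := by positivity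
    nlinarith [mul_pos (show (0:ℝ) < Q by positivity) (show (0:ℝ) < D by positivity)]
  have hbig2 : 8 * ((Q : ℝ) * W) ≤ x := by
    refine le_trans ?_ hbig1
    have h1 : 0 ≤ 8 * ((Q : ℝ) * W) := by positivity
    nlinarith
  have hYlow : x ≤ 4 * ((Q : ℝ) * W) * Y := by
    rw [hYr]
    nlinarith
  have hYlow2 : 2 * Real.exp (ℓ / 2) ≤ Y := by
    have h1 : 8 * ((Q : ℝ) * W) * Real.exp (ℓ / 2) ≤ 4 * ((Q : ℝ) * W) * Y := by
      refine le_trans ?_ hYlow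
      refine le_trans ?_ hx2
      have h2 : 0 < Real.exp (ℓ / 2) := Real.exp_pos _
      have h3 : 8 * ((Q : ℝ) * W) ≤ 8 * (Q : ℝ) * (W + 1) := by nlinarith
      exact mul_le_mul_of_nonneg_right h3 h2.le
    have h4 : 0 < 4 * ((Q : ℝ) * W) := by positivity
    nlinarith
  have hYup : (Q : ℝ) * W * (Y + 1) ≤ x := by
    rw [hYr]
    nlinarith
  have hYup2 : ((Q * W * Y : ℕ) : ℝ) ≤ Real.exp ℓ := by
    rw [hexp]
    push_cast
    nlinarith
  -- the classes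
  set P' : ℕ := ∏ p ∈ P.primeFactors, p with hP'
  have hP'0 : 0 < P' := Finset.prod_pos fun p hp => (Nat.prime_of_mem_primeFactors hp).pos
  have hP'P : P' ≤ P := Nat.le_of_dvd hP0 (Nat.prod_primeFactors_dvd P)
  have hpP' : ∀ p, p.Prime → p ∣ P → p ∣ P' := fun p hp hpP =>
    Finset.dvd_prod_of_mem _ (Nat.mem_primeFactors.mpr ⟨hp, hpP, hP0.ne'⟩)
  have hpW : ∀ p, p.Prime → p ∣ P → p ∣ W := fun p hp hpP =>
    (prime_dvd_W1 hp).mpr (hpr e heP he p hp hpP)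
  have hP'W : P' ∣ W := by
    refine Finset.prod_primes_dvd W (fun p hp => (Nat.prime_of_mem_primeFactors hp).prime)
      (fun p hp => hpW p (Nat.prime_of_mem_primeFactors hp) (Nat.dvd_of_mem_primeFactors hp))
  obtain ⟨w', hw'⟩ := hP'W
  have hw'0 : 0 < w' := by
    rcases Nat.eq_zero_or_pos w' with h | h
    · rw [h, mul_zero] at hw'; omega
    · exact h
  have hcls : ∀ i : ℕ, ∃ (cb : ℕ) (lm d : ℕ), i < w' →
      1 ≤ cb ∧ cb ≤ W ∧ 0 < lm ∧ lm ∣ Q ∧ 1 ≤ d ∧ d ≤ n ∧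
      c₂ * (Y : ℝ) ≤ (#((range Y).filter (fun m => ∃ c3 : ℕ, (c3 : ℝ) ≤ ℓ ^ B ∧
        ∀ j, ∃ q : ℕ, q.Prime ∧ q + (Q * W * c3 + cb) =
          lm * μ j ^ d * (W * m + (P' * i + W)))) : ℝ) := by
    intro i
    by_cases hi : i < w'
    · have hb : P' * i < W := by
        rw [hw']
        exact Nat.mul_lt_mul_of_pos_left hi hP'0
      obtain ⟨cb, hcb1, hcb, hcop⟩ := exists_cb W P n (P' * i) (W1_squarefree ℓ e) hP2 hpW
        (fun p hp hpP => (hpP' p hp hpP).mul_right i)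
      obtain ⟨th, hth, hcount⟩ := hmain u Y hY hYlow2 hYup2 (P' * i) cb hb hcb1 hcb hcop
      obtain ⟨lm, d, hlm, hlmQ, hd1, hdn, hav⟩ := pats_av hμ0 th hth
      refine ⟨cb, lm, d, fun _ => ⟨hcb1, hcb, hlm, hlmQ, hd1, hdn, ?_⟩⟩
      refine hcount.trans (le_of_eq ?_)
      congr 2
      refine Finset.filter_congr fun m _ => ?_
      simp only [hav]
    · exact ⟨0, 0, 0, fun h => absurd h hi⟩
  choose cb lm d hcls using hcls
  set G : ℕ → Finset ℕ := fun i => (range Y).filter (fun m => ∃ c3 : ℕ, (c3 : ℝ) ≤ ℓ ^ B ∧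
        ∀ j, ∃ q : ℕ, q.Prime ∧ q + (Q * W * c3 + cb i) =
          lm i * μ j ^ d i * (W * m + (P' * i + W))) with hG
  set keys : Finset (ℕ × ℕ) := Q.divisors ×ˢ Icc 1 n with hkeys
  have hkey : ∀ i ∈ range w', (lm i, d i) ∈ keys := by
    intro i hi
    obtain ⟨-, -, -, h1, h2, h3, -⟩ := hcls i (Finset.mem_range.mp hi)
    rw [hkeys, Finset.mem_product, Nat.mem_divisors, Finset.mem_Icc]
    exact ⟨⟨h1, hQ0.ne'⟩, h2, h3⟩
  have hkne : keys.Nonempty := ⟨_, hkey 0 (Finset.mem_range.mpr hw'0)⟩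
  have hkpos : (0 : ℝ) < (keys.card : ℕ) := by exact_mod_cast hkne.card_pos
  have hkcard : (keys.card : ℝ) ≤ Q * (n + 1) := by
    rw [hkeys, Finset.card_product, Nat.card_Icc]
    push_cast
    have h1 : (#Q.divisors : ℝ) ≤ Q := by exact_mod_cast Nat.card_divisors_le_self Q
    have h2 : ((n + 1 - 1 : ℕ) : ℝ) ≤ n + 1 := by
      have : n + 1 - 1 ≤ n + 1 := Nat.sub_le _ _
      exact_mod_cast this
    exact mul_le_mul h1 h2 (Nat.cast_nonneg _) (by positivity)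
  set bb : ℝ := w' * (c₂ * Y) / (keys.card : ℕ) with hbb
  have hsum : keys.card • bb ≤ ∑ i ∈ range w', (#(G i) : ℝ) := by
    rw [nsmul_eq_mul, hbb, mul_div_cancel₀ _ hkpos.ne']
    have h1 := Finset.card_nsmul_le_sum (range w') (fun i => (#(G i) : ℝ)) (c₂ * Y)
      (fun i hi => (hcls i (Finset.mem_range.mp hi)).2.2.2.2.2.2)
    rwa [Finset.card_range, nsmul_eq_mul] at h1
  obtain ⟨key, hkeymem, hfib⟩ := Finset.exists_le_sum_fiber_of_maps_to_of_nsmul_le_sum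
    (f := fun i => (lm i, d i)) hkey hkne hsum
  obtain ⟨l, dd⟩ := key
  rw [hkeys, Finset.mem_product, Nat.mem_divisors, Finset.mem_Icc] at hkeymem
  obtain ⟨⟨hlQ, -⟩, hdd1, hddn⟩ := hkeymem
  simp only at hlQ hdd1 hddn
  have hl0 : 0 < l := Nat.pos_of_dvd_of_pos hlQ hQ0
  have hlQ' : l ≤ Q := Nat.le_of_dvd hQ0 hlQ
  refine ⟨dd, hdd1, hddn, ?_⟩
  -- the injection
  set F : Finset ℕ := (range w').filter (fun i => (lm i, d i) = (l, dd)) with hF
  have hcardsig : ((F.sigma G).card : ℝ) = ∑ i ∈ F, (#(G i) : ℝ) := by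
    rw [Finset.card_sigma]; push_cast; rfl
  have hinj : (F.sigma G).card ≤ #((Icc 1 ⌊x⌋₊).filter (fun m => ∃ c : ℕ, 1 ≤ c ∧
      (c : ℝ) ≤ ℓ ^ (B + 3) ∧ ∀ j, ∃ q : ℕ, q.Prime ∧ q + c = μ j ^ dd * m)) := by
    refine Finset.card_le_card_of_injOn
      (fun s : (_ : ℕ) × ℕ => l * (W * s.2 + (P' * s.1 + W))) ?_ ?_
    · rintro ⟨i, m⟩ hs
      rw [Finset.mem_coe, Finset.mem_sigma] at hs
      obtain ⟨hiF, hmG⟩ := hs
      simp only at hiF hmG
      rw [hF, Finset.mem_filter, Finset.mem_range] at hiF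
      obtain ⟨hi, hk⟩ := hiF
      obtain ⟨h1, h2, h3, -⟩ := hcls i hi
      rw [hG] at hmG
      simp only [Finset.mem_filter, Finset.mem_range] at hmG
      obtain ⟨hmY, c3, hc3, hq⟩ := hmG
      have hk1 : lm i = l := congrArg Prod.fst hk
      have hk2 : d i = dd := congrArg Prod.snd hk
      rw [hk1, hk2] at hq
      have hb : P' * i < W := by
        rw [hw']
        exact Nat.mul_lt_mul_of_pos_left hi hP'0
      rw [Finset.mem_coe, Finset.mem_filter, Finset.mem_Icc]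
      refine ⟨⟨?_, ?_⟩, ?_⟩
      · exact Nat.mul_pos hl0 (by omega)
      · apply Nat.le_floor
        have h4 : l * (W * m + (P' * i + W)) ≤ Q * W * (Y + 1) := by
          calc l * (W * m + (P' * i + W)) ≤ Q * (W * (Y + 1)) := by
                refine Nat.mul_le_mul hlQ' ?_
                have h5 : W * m + W ≤ W * Y := by
                  have : m + 1 ≤ Y := hmY
                  calc W * m + W = W * (m + 1) := by ring
                    _ ≤ W * Y := Nat.mul_le_mul_left W this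
                calc W * m + (P' * i + W) ≤ W * Y + W := by omega
                  _ = W * (Y + 1) := by ring
            _ = Q * W * (Y + 1) := by ring
        calc ((l * (W * m + (P' * i + W)) : ℕ) : ℝ) ≤ ((Q * W * (Y + 1) : ℕ) : ℝ) := by
              exact_mod_cast h4
          _ = (Q : ℝ) * W * (Y + 1) := by push_cast; ring
          _ ≤ x := hYup
      · refine ⟨Q * W * c3 + cb i, by omega, ?_, ?_⟩
        · push_cast
          have h5 : (cb i : ℝ) ≤ ℓ ^ 2 := le_trans (by exact_mod_cast h2) hWℓ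
          have h6 : (Q : ℝ) * W * c3 ≤ Q * ℓ ^ 2 * ℓ ^ B := by gcongr
          have h7 : ℓ ^ 2 ≤ ℓ ^ 2 * ℓ ^ B := by
            have : (1 : ℝ) ≤ ℓ ^ B := one_le_pow₀ hℓ1
            have h8 : (0 : ℝ) ≤ ℓ ^ 2 := by positivity
            nlinarith
          calc (Q : ℝ) * W * c3 + cb i ≤ (Q + 1) * (ℓ ^ 2 * ℓ ^ B) := by linarith
            _ ≤ ℓ * (ℓ ^ 2 * ℓ ^ B) := mul_le_mul_of_nonneg_right hℓQ (by positivity)
            _ = ℓ ^ (B + 3) := by ring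
        · intro j
          obtain ⟨q, hqp, hqe⟩ := hq j
          exact ⟨q, hqp, by rw [hqe]; ring⟩
    · rintro ⟨i, m⟩ hs ⟨i', m'⟩ hs' heq
      rw [Finset.mem_coe, Finset.mem_sigma] at hs hs'
      have hi := (Finset.mem_range.mp (Finset.mem_filter.mp hs.1).1)
      have hi' := (Finset.mem_range.mp (Finset.mem_filter.mp hs'.1).1)
      simp only at hi hi' heq
      have h1 : W * m + (P' * i + W) = W * m' + (P' * i' + W) := Nat.eq_of_mul_eq_mul_left hl0 heq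
      have hb : P' * i < W := by
        rw [hw']
        exact Nat.mul_lt_mul_of_pos_left hi hP'0
      have hb' : P' * i' < W := by
        rw [hw']
        exact Nat.mul_lt_mul_of_pos_left hi' hP'0
      have h2 : W * m + P' * i = W * m' + P' * i' := by omega
      have h3 : m = m' := by
        have h4 : (W * m + P' * i) / W = m := by
          rw [Nat.mul_add_div hW0, Nat.div_eq_of_lt hb, add_zero]
        have h5 : (W * m' + P' * i') / W = m' := by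
          rw [Nat.mul_add_div hW0, Nat.div_eq_of_lt hb', add_zero]
        rw [← h4, ← h5, h2]
      subst h3
      have h6 : P' * i = P' * i' := by omega
      have h7 : i = i' := Nat.eq_of_mul_eq_mul_left hP'0 h6
      subst h7
      rfl
  have hfinal : bb ≤ (#((Icc 1 ⌊x⌋₊).filter (fun m => ∃ c : ℕ, 1 ≤ c ∧
      (c : ℝ) ≤ ℓ ^ (B + 3) ∧ ∀ j, ∃ q : ℕ, q.Prime ∧ q + c = μ j ^ dd * m)) : ℝ) := by
    refine hfib.trans ?_
    have h1 : ∑ i ∈ (range w').filter (fun i => (lm i, d i) = (l, dd)), (#(G i) : ℝ) =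
        ((F.sigma G).card : ℝ) := by rw [hcardsig]
    rw [h1]
    exact_mod_cast hinj
  refine le_trans ?_ hfinal
  -- the size of bb
  have hw'r : (W : ℝ) ≤ P * w' := by
    have h1 : W ≤ P * w' := by
      rw [hw']
      exact Nat.mul_le_mul_right w' hP'P
    exact_mod_cast h1
  have hw'p : (0 : ℝ) < w' := by exact_mod_cast hw'0
  rw [hbb, div_mul_eq_mul_div, div_le_div_iff₀ (by positivity) hkpos]
  have h1 : c₂ * x * (keys.card : ℕ) ≤ c₂ * (4 * ((Q : ℝ) * W) * Y) * (Q * (n + 1)) := by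
    gcongr
  refine h1.trans ?_
  have h2 : c₂ * (4 * ((Q : ℝ) * W) * Y) * (Q * (n + 1)) =
      (c₂ * Y * (4 * (Q : ℝ) ^ 2 * (n + 1))) * W := by ring
  have h3 : (w' : ℝ) * (c₂ * Y) * (4 * (Q : ℝ) ^ 2 * (n + 1) * P) =
      (c₂ * Y * (4 * (Q : ℝ) ^ 2 * (n + 1))) * (P * w') := by ring
  rw [h2, h3]
  exact mul_le_mul_of_nonneg_left hw'r (by positivity)

end Pool.Agent.H2.NC
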