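import Pool.Agent.H2.NC.Fin2

/-!
NC-MAIN (MP_c183ae_nt). The main theorem for a finite set of multipliers.
-/

set_option autoImplicit false

open Finset Filter

namespace Pool.Agent.H2.NC

/-- For every finite set `M` of positive integers there are `N`, `C`, `δ > 0` such that for all large `x`
there is `1 ≤ d ≤ N` such that for at least `δ x` of the integers `m ≤ x` there is `1 ≤ c ≤ (log x)^C` for
which `μ^d m - c` is prime for all `μ ∈ M`. -/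
theorem main_set (M : Finset ℕ) (hM : ∀ μ ∈ M, 0 < μ) : ∃ (N C : ℕ) (δ : ℝ), 0 < δ ∧
    ∀ᶠ x : ℝ in atTop, ∃ d : ℕ, 1 ≤ d ∧ d ≤ N ∧
      δ * x ≤ ({m : ℕ | 1 ≤ m ∧ (m : ℝ) ≤ x ∧ ∃ c : ℕ, 1 ≤ c ∧ (c : ℝ) ≤ (Real.log x) ^ C ∧
        ∀ μ ∈ M, ∃ q : ℕ, q.Prime ∧ q + c = μ ^ d * m}.ncard : ℝ) := by
  classical
  set M' : Finset ℕ := M ∪ {1, 2} with hM'
  have hM'0 : ∀ μ ∈ M', 0 < μ := by
    intro μ hμ
    rw [hM', Finset.mem_union] at hμ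
    rcases hμ with h | h
    · exact hM μ h
    · simp only [Finset.mem_insert, Finset.mem_singleton] at h
      omega
  have hκ : 2 ≤ #M' := by
    have h1 : ({1, 2} : Finset ℕ) ⊆ M' := Finset.subset_union_right
    have h2 := Finset.card_le_card h1
    simpa using h2
  let e := M'.equivFin
  let μ : Fin #M' → ℕ := fun j => ((e.symm j : M') : ℕ)
  have hμ : Function.Injective μ := fun i j h => e.symm.injective (Subtype.ext h)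
  have hμ0 : ∀ j, 0 < μ j := fun j => hM'0 _ (e.symm j).2
  obtain ⟨N, C, δ, hδ, h⟩ := main_nc #M' hκ μ hμ hμ0
  refine ⟨N, C, δ, hδ, ?_⟩
  filter_upwards [h, eventually_ge_atTop (0 : ℝ)] with x hx hx0
  obtain ⟨d, hd1, hdN, hcount⟩ := hx
  refine ⟨d, hd1, hdN, hcount.trans ?_⟩
  rw [← Set.ncard_coe_finset]
  have hfin : {m : ℕ | 1 ≤ m ∧ (m : ℝ) ≤ x ∧ ∃ c : ℕ, 1 ≤ c ∧ (c : ℝ) ≤ (Real.log x) ^ C ∧
        ∀ μ ∈ M, ∃ q : ℕ, q.Prime ∧ q + c = μ ^ d * m}.Finite := by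
    refine (Set.finite_Icc 1 ⌊x⌋₊).subset ?_
    rintro m ⟨h1, h2, -⟩
    exact ⟨h1, Nat.le_floor h2⟩
  have hsub : ((((Icc 1 ⌊x⌋₊).filter (fun m => ∃ c : ℕ, 1 ≤ c ∧
      (c : ℝ) ≤ (Real.log x) ^ C ∧ ∀ j, ∃ q : ℕ, q.Prime ∧ q + c = μ j ^ d * m)) : Finset ℕ) : Set ℕ) ⊆
      {m : ℕ | 1 ≤ m ∧ (m : ℝ) ≤ x ∧ ∃ c : ℕ, 1 ≤ c ∧ (c : ℝ) ≤ (Real.log x) ^ C ∧
        ∀ μ ∈ M, ∃ q : ℕ, q.Prime ∧ q + c = μ ^ d * m} := by
    intro m hm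
    rw [Finset.mem_coe, Finset.mem_filter, Finset.mem_Icc] at hm
    obtain ⟨⟨h1, h2⟩, c, hc1, hc, hj⟩ := hm
    refine ⟨h1, (Nat.le_floor_iff hx0).mp h2, c, hc1, hc, fun ν hν => ?_⟩
    have hν' : ν ∈ M' := Finset.mem_union_left _ hν
    have h3 := hj (e ⟨ν, hν'⟩)
    have h4 : μ (e ⟨ν, hν'⟩) = ν := by
      simp only [μ]
      rw [e.symm_apply_apply]
    rw [h4] at h3
    exact h3
  exact_mod_cast Set.ncard_le_ncard hsub hfin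

end Pool.Agent.H2.NC
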