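import Pool.Agent.H2.NC.Dual
import Pool.Agent.H16.GPS.Rel.Count
import Pool.Agent.H16.GPS.Rel.DenseModel
import Pool.Agent.H16.GPS.Rel.Main

/-!
JOB NC-REL (MP_c183ae_nt). Relative theorem with different functions at different scales.

PROOF (compare `rel_main` in `Pool/Agent/H16/GPS/Rel/Main.lean`). `ε'`, `η₁` from `count_all κ κ hκ (c₁ / 2)` (sparse set `univ`);
`ε = min (ε' / card Θ) (δ / 2)`; `K₀`, `η₂` from `dense_model ε`; `η₃, τ` from `dual1 κ hκ K₀ η₂`; `η = min η₁ η₃`. Apply `dense_model` to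
`Ω = Θ × Γ`, weight `unif`, and the family `Φ` of the function `1` and of all functions `(θ, p) ↦ if θ = θ₀ then ψ p else 0`, `θ₀ : Θ`,
`ψ ∈ TestT κ D lam` (values in `[0,1]`). Hypothesis of `dense_model`: `∑ unif (Θ × Γ) * ((ν - 1) ∏ φ)` is the average over `θ` of
`∑ p, unif Γ p * ((ν (θ, p) - 1) ∏ a, φ a (θ, p))`, and for fixed `θ` either some factor is identically `0` or all `φ a (θ, ·)` are in
`TestT κ D lam` (the function `1` is): `dual1`. The function `1` gives `∑ unif * ft ≥ δ - ε ≥ δ / 2`, so some `th ∈ 𝒯` has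
`c₁ ≤ LamT ft`. Counting for this `th`: parameter space `Γ`, `N j p h = ν (th j, p + LT el th j h)`, `G`, `Gt` the same with `f`, `ft`, all
independent of coordinate `j` (its coefficient in `LT el th j h` is `0`); `Close`: translating `p` by `LT el th j h`,
`EE ((G j - Gt j) ∏_{i≠j} u i) = ∑ p, unif Γ p * ((f (th j, p) - ft (th j, p)) * ψ p)` with
`ψ p = ∑ h, (∏ lam (h i)) ∏_{i≠j} u i (p - LT el th j h) h ∈ TestT κ D lam` (`cf i = el (th i) - el (th j)`), which is `card Θ` times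
the sum in the conclusion of `dense_model` for `(θ, p) ↦ if θ = th j then ψ p else 0`. So `|LamT f - LamT ft| ≤ c₁ / 2`.
-/

set_option autoImplicit false

open Finset

namespace Pool.Agent.H2.NC

open Pool.Agent.H16 Pool.Agent.H16.GPS

private theorem relMain_unif (X : Type) [Fintype X] [Nonempty X] : IsPW (unif X) := by
  unfold IsPW unif
  refine ⟨fun x => by positivity, ?_⟩
  rw [Finset.sum_const, Finset.card_univ, nsmul_eq_mul]
  have h : (Fintype.card X : ℝ) ≠ 0 := by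
    have := Fintype.card_ne_zero (α := X)
    exact_mod_cast this
  field_simp

private theorem relMain_LT {κ : ℕ} {Θ Γ : Type} [AddCommGroup Γ] (el : Θ → ℤ) (th : Fin κ → Θ)
    (j : Fin κ) (h : Fin κ → Γ) (x : Γ) :
    LT el th j (Function.update h j x) = LT el th j h := by
  unfold LT
  refine Finset.sum_congr rfl fun i _ => ?_
  by_cases hi : i = j
  · subst hi
    simp
  · rw [Function.update_of_ne hi]

private theorem relMain_test {Γ : Type} [Fintype Γ] [AddCommGroup Γ] (κ D : ℕ)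
    (lam : Γ → ℝ) (hl : IsPW lam) (φ : Γ → ℝ) (hφ : φ ∈ TestT κ D lam) (x : Γ) :
    |φ x| ≤ 1 := by
  rcases hφ with h | ⟨j, cf, u, _, _, _, hu, h⟩
  · rw [h]
    simp
  · rw [h x]
    have hw : ∀ h : Fin κ → Γ, 0 ≤ ∏ i, lam (h i) := fun h => Finset.prod_nonneg fun i _ => hl.1 _
    have h1 : ∀ g : Fin κ → Γ, 0 ≤ ∏ i ∈ univ.erase j, u i (x - ∑ i, cf i • g i) g :=
      fun g => Finset.prod_nonneg fun i _ => (hu _ _ _).1
    have h2 : ∀ g : Fin κ → Γ, ∏ i ∈ univ.erase j, u i (x - ∑ i, cf i • g i) g ≤ 1 :=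
      fun g => Finset.prod_le_one (fun i _ => (hu _ _ _).1) (fun i _ => (hu _ _ _).2)
    rw [abs_of_nonneg (Finset.sum_nonneg fun g _ => mul_nonneg (hw g) (h1 g))]
    calc ∑ g : Fin κ → Γ, (∏ i, lam (g i)) * ∏ i ∈ univ.erase j, u i (x - ∑ i, cf i • g i) g
        ≤ ∑ g : Fin κ → Γ, (∏ i, lam (g i)) * 1 :=
          Finset.sum_le_sum fun g _ => mul_le_mul_of_nonneg_left (h2 g) (hw g)
      _ = 1 := by
          simp only [mul_one]
          exact sum_pi_weight lam hl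

private theorem relMain_shift {Γ : Type} [Fintype Γ] [AddCommGroup Γ] (g : Γ)
    (F : Γ → ℝ) : ∑ p : Γ, F p = ∑ p : Γ, F (p - g) :=
  (Equiv.sum_comp (Equiv.subRight g) F).symm

private theorem relMain_close {Θ Γ : Type} [Fintype Γ] [AddCommGroup Γ] (κ : ℕ)
    (lam : Γ → ℝ) (el : Θ → ℤ) (th : Fin κ → Θ) (f ft : Θ × Γ → ℝ) (j : Fin κ)
    (u : Fin κ → Γ → (Fin κ → Γ) → ℝ) :
    EE (unif Γ) lam (fun (p : Γ) (h : Fin κ → Γ) =>
      (f (th j, p + LT el th j h) - ft (th j, p + LT el th j h)) *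
        ∏ i ∈ univ.erase j, u i p h) =
    ∑ p, unif Γ p * ((f (th j, p) - ft (th j, p)) * ∑ h : Fin κ → Γ, (∏ i, lam (h i)) *
      ∏ i ∈ univ.erase j, u i (p - LT el th j h) h) := by
  unfold EE unif
  simp only [Finset.mul_sum]
  rw [Finset.sum_comm]
  conv_rhs => rw [Finset.sum_comm]
  refine Finset.sum_congr rfl fun h _ => ?_
  rw [relMain_shift (LT el th j h)]
  refine Finset.sum_congr rfl fun p _ => ?_
  simp only [sub_add_cancel]
  ring

private theorem relMain_sum {Θ Γ : Type} [Fintype Θ] [Fintype Γ] (F : Θ × Γ → ℝ) :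
    ∑ x, unif (Θ × Γ) x * F x = (1 / (Fintype.card Θ : ℝ)) *
      ∑ θ, ∑ p, unif Γ p * F (θ, p) := by
  rw [Fintype.sum_prod_type, Finset.mul_sum]
  refine Finset.sum_congr rfl fun θ _ => ?_
  rw [Finset.mul_sum]
  refine Finset.sum_congr rfl fun p _ => ?_
  unfold unif
  rw [Fintype.card_prod, Nat.cast_mul, one_div, one_div, one_div, mul_inv]
  ring

/-- test functions on `Θ × Γ` -/
private def relMainPhi {Θ Γ : Type} [Fintype Γ] [AddCommGroup Γ] (κ D : ℕ)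
    (lam : Γ → ℝ) : Set (Θ × Γ → ℝ) :=
  {φ | (φ = fun _ => 1) ∨ ∃ (θ₀ : Θ) (ψ : Γ → ℝ), ψ ∈ TestT κ D lam ∧
    (∀ p, φ (θ₀, p) = ψ p) ∧ ∀ θ, θ ≠ θ₀ → ∀ p, φ (θ, p) = 0}

private theorem relMain_dual {Θ Γ : Type} [Fintype Θ] [Nonempty Θ] [Fintype Γ] [AddCommGroup Γ]
    (κ D : ℕ) (lam : Γ → ℝ) (ν : Θ × Γ → ℝ) (η : ℝ) (hη : 0 ≤ η) (K : ℕ)
    (hd : ∀ θ, ∀ φ : Fin K → Γ → ℝ, (∀ a, φ a ∈ TestT κ D lam) →
      |∑ p, unif Γ p * ((ν (θ, p) - 1) * ∏ a, φ a p)| ≤ η)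
    (φ : Fin K → Θ × Γ → ℝ) (hφ : ∀ a, φ a ∈ relMainPhi κ D lam) :
    |∑ x, unif (Θ × Γ) x * ((ν x - 1) * ∏ i, φ i x)| ≤ η := by
  rw [relMain_sum]
  have hc : (0 : ℝ) < Fintype.card Θ := by exact_mod_cast Fintype.card_pos
  have hkey : ∀ θ : Θ, |∑ p, unif Γ p * ((ν (θ, p) - 1) * ∏ i, φ i (θ, p))| ≤ η := by
    intro θ
    by_cases h : ∀ a, (fun p => φ a (θ, p)) ∈ TestT κ D lam
    · exact hd θ (fun a p => φ a (θ, p)) h
    · push Not at h
      obtain ⟨a, ha⟩ := h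
      have h0 : ∀ p, φ a (θ, p) = 0 := by
        rcases hφ a with h1 | ⟨θ₀, ψ, hψ, h2, h3⟩
        · exact absurd (Or.inl (by rw [h1])) ha
        · by_cases hθ : θ = θ₀
          · subst hθ
            have : (fun p => φ a (θ, p)) = ψ := funext h2
            rw [this] at ha
            exact absurd hψ ha
          · exact h3 θ hθ
      have h1 : ∑ p, unif Γ p * ((ν (θ, p) - 1) * ∏ i, φ i (θ, p)) = 0 := by
        refine Finset.sum_eq_zero fun p _ => ?_
        rw [Finset.prod_eq_zero (Finset.mem_univ a) (h0 p)]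
        ring
      rw [h1, abs_zero]
      exact hη
  rw [abs_mul, abs_of_pos (by positivity : 0 < 1 / (Fintype.card Θ : ℝ))]
  calc 1 / (Fintype.card Θ : ℝ) * |∑ θ, ∑ p, unif Γ p * ((ν (θ, p) - 1) * ∏ i, φ i (θ, p))|
      ≤ 1 / (Fintype.card Θ : ℝ) * ∑ _θ : Θ, η :=
        mul_le_mul_of_nonneg_left ((Finset.abs_sum_le_sum_abs _ _).trans
          (Finset.sum_le_sum fun θ _ => hkey θ)) (by positivity)
    _ = η := by
        rw [Finset.sum_const, Finset.card_univ, nsmul_eq_mul]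
        field_simp

theorem rel_nc (κ : ℕ) (hκ : 2 ≤ κ) (δ c₁ : ℝ) (hδ : 0 < δ) (hc : 0 < c₁) (Θ : Type) [Fintype Θ]
    [Nonempty Θ] :
    ∃ η : ℝ, 0 < η ∧ ∃ τ : ℝ, 0 < τ ∧ ∀ (D : ℕ) (el : Θ → ℤ) (𝒯 : Finset (Fin κ → Θ)), 0 < D →
    (∀ th ∈ 𝒯, ∀ i j : Fin κ, i ≠ j →
      el (th i) - el (th j) ≠ 0 ∧ (el (th i) - el (th j)) ∣ (D : ℤ)) →
    ∀ (Γ : Type) [Fintype Γ] [AddCommGroup Γ] (lam lam' : Γ → ℝ), IsPW lam → IsPW lam' →
    ∀ ν f : Θ × Γ → ℝ, (∀ th ∈ 𝒯, LFt κ el lam th ν η) → (∀ θ, LFq κ D lam' (fun p => ν (θ, p)) η) →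
    NearD D lam lam' τ →
    (∀ g : Θ × Γ → ℝ, (∀ p, 0 ≤ g p ∧ g p ≤ 1) → δ / 2 ≤ ∑ p, unif (Θ × Γ) p * g p →
      ∃ th ∈ 𝒯, c₁ ≤ LamT κ el lam th g) →
    (∀ p, 0 ≤ f p ∧ f p ≤ ν p) → δ ≤ ∑ p, unif (Θ × Γ) p * f p →
    ∃ th ∈ 𝒯, c₁ / 2 ≤ LamT κ el lam th f := by
  classical
  have hcT : (0 : ℝ) < Fintype.card Θ := by exact_mod_cast Fintype.card_pos
  obtain ⟨ε', hε', η₁, hη₁, _, hcount⟩ := count_all κ κ hκ (c₁ / 2) (by linarith)
  obtain ⟨K₀, η₂, hη₂, hdm⟩ := dense_model (min (ε' / Fintype.card Θ) (δ / 2))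
    (lt_min (by positivity) (by linarith))
  obtain ⟨η₃, hη₃, τ, hτ, hdual⟩ := dual1 κ hκ K₀ η₂ hη₂
  refine ⟨min η₁ η₃, lt_min hη₁ hη₃, τ, hτ, ?_⟩
  intro D el 𝒯 hD hel Γ _ _ lam lam' hl hl' ν f hLF hLFq hN hg hf hfδ
  have hu := relMain_unif (Θ × Γ)
  have huΓ := relMain_unif Γ
  have hν : ∀ p, 0 ≤ ν p := fun p => (hf p).1.trans (hf p).2
  have hLF2 : ∀ θ, LFq κ D lam' (fun p => ν (θ, p)) η₃ := fun θ S =>
    (hLFq θ S).trans (min_le_right _ _)
  obtain ⟨ft, hft, hclose⟩ := hdm (Θ × Γ) (unif (Θ × Γ)) hu ν f hf (relMainPhi κ D lam)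
    (by
      rintro φ (rfl | ⟨θ₀, ψ, hψ, h1, h2⟩) ⟨θ, p⟩
      · simp
      · by_cases hθ : θ = θ₀
        · subst hθ
          rw [h1]
          exact relMain_test κ D lam hl ψ hψ p
        · rw [h2 θ hθ, abs_zero]
          exact zero_le_one)
    (fun K hK φ hφ => relMain_dual κ D lam ν η₂ hη₂.le K
      (fun θ φ hφ => hdual D hD Γ lam lam' hl hl' (fun p => ν (θ, p)) (fun p => hν _) (hLF2 θ) hN
        K hK φ hφ) φ hφ)
  have h1 : δ / 2 ≤ ∑ p, unif (Θ × Γ) p * ft p := by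
    have h2 := (hclose (fun _ => 1) (Or.inl rfl)).trans (min_le_right _ _)
    have h3 : ∑ x, unif (Θ × Γ) x * ((f x - ft x) * 1) =
        ∑ p, unif (Θ × Γ) p * f p - ∑ p, unif (Θ × Γ) p * ft p := by
      rw [← Finset.sum_sub_distrib]
      refine Finset.sum_congr rfl fun p _ => ?_
      ring
    rw [h3] at h2
    linarith [(abs_le.1 h2).2]
  obtain ⟨th, hth, h4⟩ := hg ft hft h1
  refine ⟨th, hth, ?_⟩
  have hLF1 : LFc (unif Γ) lam (fun (j : Fin κ) (p : Γ) h => ν (th j, p + LT el th j h)) η₁ :=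
    fun S hS => (hLF th hth S hS).trans (min_le_left _ _)
  have h5 := hcount Γ Γ (unif Γ) lam huΓ hl
    (fun j p h => ν (th j, p + LT el th j h)) (fun j p h => f (th j, p + LT el th j h))
    (fun j p h => ft (th j, p + LT el th j h)) (fun j p h => hν _)
    (fun j p h x => by simp only [relMain_LT]) (fun j p h x => by simp only [relMain_LT])
    (fun j p h x => by simp only [relMain_LT]) hLF1 univ (by simp)
    (fun j p h => by
      unfold Nh
      rw [if_pos (Finset.mem_univ j)]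
      exact hf _) (fun j p h => hft _)
    (fun j u hu1 hu2 => by
      rw [relMain_close κ lam el th f ft j u]
      set ψ : Γ → ℝ := fun p => ∑ h : Fin κ → Γ, (∏ i, lam (h i)) *
        ∏ i ∈ univ.erase j, u i (p - LT el th j h) h with hψdef
      have hψ : ψ ∈ TestT κ D lam := by
        refine Or.inr ⟨j, fun i => el (th i) - el (th j), u, sub_self _, fun i hi => hel th hth i j hi,
          hu1, hu2, fun p => rfl⟩
      have h6 := (hclose (fun x => if x.1 = th j then ψ x.2 else 0)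
        (Or.inr ⟨th j, ψ, hψ, fun p => if_pos rfl, fun θ hθ p => if_neg hθ⟩)).trans
          (min_le_left _ _)
      rw [relMain_sum (fun x => (f x - ft x) * (if x.1 = th j then ψ x.2 else 0))] at h6
      have h7 : ∑ θ, ∑ p, unif Γ p * ((f (θ, p) - ft (θ, p)) * (if θ = th j then ψ p else 0)) =
          ∑ p, unif Γ p * ((f (th j, p) - ft (th j, p)) * ψ p) := by
        rw [Finset.sum_eq_single (th j)]
        · simp only [if_true]
        · intro θ _ hθ
          refine Finset.sum_eq_zero fun p _ => ?_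
          rw [if_neg hθ]
          ring
        · intro h
          exact absurd (Finset.mem_univ _) h
      simp only at h6
      rw [h7, abs_mul, abs_of_pos (by positivity : 0 < 1 / (Fintype.card Θ : ℝ)), one_div,
        inv_mul_eq_div, div_le_div_iff_of_pos_right hcT] at h6
      exact h6)
  have h6 : |LamT κ el lam th f - LamT κ el lam th ft| ≤ c₁ / 2 := h5
  linarith [(abs_le.1 h6).1]

end Pool.Agent.H2.NC
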