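import Pool.Agent.H2.NC.Crt
import Pool.Agent.H16.PP.FLK

/-!
JOB NC-SIEVET (MP_c183ae_nt). Sieve count for fixed pairwise coprime moduli `D m`, forms `α m * A + β m`.

Same statement and proof as `Pool/Agent/H16/GPS/Num/SieveT.lean` (copy it), with `crt_count1` in place of `crt_count`,
`α m * A + β m` in place of `sh σ (W * m * A)`, `rt (α m) (β m) p` in place of `m % p`.
-/

set_option autoImplicit false

open Finset

namespace Pool.Agent.H2.NC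

open Pool.Agent.H16 Pool.Agent.H16.GPS

private theorem sieveT_prod_indic (P : Finset ℕ) (q : ℕ → Prop) [DecidablePred q]
    [Decidable (∀ p ∈ P, ¬ q p)] :
    ∏ p ∈ P, (1 - (if q p then (1 : ℝ) else 0)) = if ∀ p ∈ P, ¬ q p then 1 else 0 := by
  by_cases h : ∀ p ∈ P, ¬ q p
  · rw [if_pos h]
    refine Finset.prod_eq_one fun p hp => ?_
    rw [if_neg (h p hp)]
    norm_num
  · rw [if_neg h]
    push Not at h
    obtain ⟨p, hp, hq⟩ := h
    refine Finset.prod_eq_zero hp ?_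
    rw [if_pos hq]
    norm_num

private theorem sieveT_prod_indic' (P : Finset ℕ) (q : ℕ → Prop) [DecidablePred q]
    [Decidable (∀ p ∈ P, q p)] :
    ∏ p ∈ P, (if q p then (1 : ℝ) else 0) = if ∀ p ∈ P, q p then 1 else 0 := by
  by_cases h : ∀ p ∈ P, q p
  · rw [if_pos h]
    exact Finset.prod_eq_one fun p hp => if_pos (h p hp)
  · rw [if_neg h]
    push Not at h
    obtain ⟨p, hp, hq⟩ := h
    exact Finset.prod_eq_zero hp (if_neg hq)

/-- sets of primes are determined by their products -/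
private theorem sieveT_inj (P : Finset ℕ) (hP : ∀ p ∈ P, p.Prime) (A B : Finset ℕ) (hA : A ⊆ P)
    (hB : B ⊆ P) (h : ∏ p ∈ A, p = ∏ p ∈ B, p) : A = B := by
  have key : ∀ A B : Finset ℕ, A ⊆ P → B ⊆ P → ∏ p ∈ A, p = ∏ p ∈ B, p → A ⊆ B := by
    intro A B hA hB h p hp
    have hpp := (hP p (hA hp)).prime
    have h1 : p ∣ ∏ p ∈ B, p := by
      rw [← h]
      exact Finset.dvd_prod_of_mem _ hp
    obtain ⟨q, hq, hpq⟩ := (Prime.dvd_finsetProd_iff hpp _).1 h1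
    rw [(Nat.prime_dvd_prime_iff_eq (hP p (hA hp)) (hP q (hB hq))).1 hpq]
    exact hq
  exact Finset.Subset.antisymm (key A B hA hB h) (key B A hB hA h.symm)

theorem sieve_count1 (t k w z Y : ℕ) (hk : 16 * t ≤ k) (hw : 100 ≤ Real.log w) (hwt : 2 * t ≤ w)
    (hwz : w ≤ z) (P : Finset ℕ) (hP : ∀ p ∈ P, p.Prime ∧ w < p ∧ p ≤ z)
    (α β : ℕ → ℕ) (ℳ : Finset ℕ) (hℳ : #ℳ ≤ t)
    (hm : ∀ m ∈ ℳ, 0 < α m ∧ ∀ p, p.Prime → p ∣ α m → p ≤ w)
    (D : ℕ → ℕ) (hD : ∀ m ∈ ℳ, Squarefree (D m) ∧ ∀ p, p.Prime → p ∣ D m → z < p)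
    (hcop : ∀ m ∈ ℳ, ∀ m' ∈ ℳ, m ≠ m' → Nat.Coprime (D m) (D m')) :
    |(∑ A ∈ Icc 1 Y, (open Classical in
        if ∀ m ∈ ℳ, D m ∣ α m * A + β m ∧ ∀ p ∈ P, ¬ p ∣ α m * A + β m then (1 : ℝ) else 0)) -
      Y / (∏ m ∈ ℳ, (D m : ℝ)) *
        ∏ p ∈ P, (1 - (#(ℳ.image (fun m => rt (α m) (β m) p)) : ℝ) / p)| ≤
      (1 / 2) ^ k * (Y / (∏ m ∈ ℳ, (D m : ℝ)) *
        ∏ p ∈ P, (1 - (#(ℳ.image (fun m => rt (α m) (β m) p)) : ℝ) / p)) +
      3 * Real.log z * (z : ℝ) ^ (2 * (4 * k + 5)) := by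
  classical
  have hw0 : 0 < w := by
    rcases Nat.eq_zero_or_pos w with h | h
    · rw [h] at hw
      norm_num at hw
    · exact h
  have hz1 : 1 ≤ z := by omega
  set X : ℝ := Y / ∏ m ∈ ℳ, (D m : ℝ) with hX
  set ρ : ℕ → ℕ := fun p => #(ℳ.image (fun m => rt (α m) (β m) p)) with hρ
  have hρt : ∀ p, ρ p ≤ t := fun p => Finset.card_image_le.trans hℳ
  set a : ℕ → ℝ := fun A => if ∀ m ∈ ℳ, D m ∣ α m * A + β m then 1 else 0 with ha
  set c : ℕ → ℕ → ℝ := fun A p => if ∃ m ∈ ℳ, p ∣ α m * A + β m then 1 else 0 with hc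
  set g : ℕ → ℝ := fun p => (ρ p : ℝ) / p with hg
  have hX0 : 0 ≤ X := div_nonneg (Nat.cast_nonneg _) (Finset.prod_nonneg fun _ _ => Nat.cast_nonneg _)
  have hfl := Pool.Agent.H16.PP.fundLemmaK t k hk (Icc 1 Y) a c X w z hw hwt hwz P
    (fun p hp => (hP p hp).1) (fun p hp => (hP p hp).2.1) (fun p hp => (hP p hp).2.2) g
    (fun p _ => div_nonneg (Nat.cast_nonneg _) (Nat.cast_nonneg _))
    (fun p _ => div_le_div_of_nonneg_right (by exact_mod_cast hρt p) (Nat.cast_nonneg _))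
    (fun A _ => by simp only [ha]; split_ifs <;> norm_num)
    (fun A _ p _ => by simp only [hc]; split_ifs <;> norm_num)
    (fun A _ p _ => by simp only [hc]; split_ifs <;> norm_num) hX0
  -- the sum
  have hsum : (∑ A ∈ Icc 1 Y, (open Classical in
      if ∀ m ∈ ℳ, D m ∣ α m * A + β m ∧ ∀ p ∈ P, ¬ p ∣ α m * A + β m then (1 : ℝ) else 0)) =
      ∑ A ∈ Icc 1 Y, a A * ∏ p ∈ P, (1 - c A p) := by
    refine Finset.sum_congr rfl fun A _ => ?_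
    simp only [ha, hc]
    rw [sieveT_prod_indic P (fun p => ∃ m ∈ ℳ, p ∣ α m * A + β m)]
    by_cases h1 : ∀ m ∈ ℳ, D m ∣ α m * A + β m
    · by_cases h2 : ∀ p ∈ P, ¬ ∃ m ∈ ℳ, p ∣ α m * A + β m
      · rw [if_pos h1, if_pos h2, if_pos]
        · norm_num
        · exact fun m hm => ⟨h1 m hm, fun p hp hd => h2 p hp ⟨m, hm, hd⟩⟩
      · rw [if_pos h1, if_neg h2, if_neg]
        · norm_num
        · intro h
          exact h2 fun p hp ⟨m, hm, hd⟩ => (h m hm).2 p hp hd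
    · rw [if_neg h1, if_neg]
      · norm_num
      · exact fun h => h1 fun m hm => (h m hm).1
  rw [hsum]
  -- the remainders
  set 𝒜 := P.powerset.filter (fun D => (∏ p ∈ D, p) ≤ z ^ (4 * k + 5)) with h𝒜
  have hRD : ∀ Q ∈ 𝒜, |Pool.Agent.H16.RD (Icc 1 Y) a c X g Q| ≤ (z : ℝ) ^ (4 * k + 5) := by
    intro Q hQ
    rw [h𝒜, Finset.mem_filter, Finset.mem_powerset] at hQ
    have hQP : ∀ p ∈ Q, p.Prime ∧ w < p ∧ p ≤ z := fun p hp => hP p (hQ.1 hp)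
    have h1 := crt_count1 w z Y hwz Q hQP α β ℳ hm D hD hcop
    have h2 : Pool.Agent.H16.RD (Icc 1 Y) a c X g Q = (∑ A ∈ Icc 1 Y, (open Classical in
        if (∀ m ∈ ℳ, D m ∣ α m * A + β m) ∧ (∀ p ∈ Q, ∃ m ∈ ℳ, p ∣ α m * A + β m)
          then (1 : ℝ) else 0)) -
        Y / (∏ m ∈ ℳ, (D m : ℝ)) * ∏ p ∈ Q, ((#(ℳ.image (fun m => rt (α m) (β m) p)) : ℝ) / p) := by
      unfold Pool.Agent.H16.RD Pool.Agent.H16.AD
      congr 1
      refine Finset.sum_congr rfl fun A _ => ?_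
      simp only [ha, hc]
      rw [sieveT_prod_indic' Q (fun p => ∃ m ∈ ℳ, p ∣ α m * A + β m)]
      by_cases h3 : ∀ m ∈ ℳ, D m ∣ α m * A + β m
      · by_cases h4 : ∀ p ∈ Q, ∃ m ∈ ℳ, p ∣ α m * A + β m
        · rw [if_pos h3, if_pos h4, if_pos ⟨h3, h4⟩]
          norm_num
        · rw [if_pos h3, if_neg h4, if_neg fun h => h4 h.2]
          norm_num
      · rw [if_neg h3, zero_mul, if_neg fun h => h3 h.1]
    rw [h2]
    refine h1.trans ?_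
    have h3 : ∏ p ∈ Q, (#(ℳ.image (fun m => rt (α m) (β m) p)) : ℝ) ≤ ∏ p ∈ Q, (p : ℝ) := by
      refine Finset.prod_le_prod (fun _ _ => Nat.cast_nonneg _) fun p hp => ?_
      have h4 := hρt p
      have h5 := (hQP p hp).2.1
      have h6 : ρ p ≤ p := by omega
      exact_mod_cast h6
    refine h3.trans ?_
    have h7 := hQ.2
    calc ∏ p ∈ Q, (p : ℝ) = ((∏ p ∈ Q, p : ℕ) : ℝ) := by push_cast; rfl
      _ ≤ ((z ^ (4 * k + 5) : ℕ) : ℝ) := by exact_mod_cast h7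
      _ = (z : ℝ) ^ (4 * k + 5) := by push_cast; rfl
  have hcard : #𝒜 ≤ z ^ (4 * k + 5) := by
    have h1 : #𝒜 ≤ #(Icc 1 (z ^ (4 * k + 5))) := by
      refine Finset.card_le_card_of_injOn (fun Q => ∏ p ∈ Q, p) ?_ ?_
      · intro Q hQ
        rw [Finset.mem_coe, h𝒜, Finset.mem_filter, Finset.mem_powerset] at hQ
        rw [Finset.mem_coe, Finset.mem_Icc]
        exact ⟨Finset.prod_pos fun p hp => (hP p (hQ.1 hp)).1.pos, hQ.2⟩
      · intro Q hQ Q' hQ' h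
        rw [Finset.mem_coe, h𝒜, Finset.mem_filter, Finset.mem_powerset] at hQ hQ'
        exact sieveT_inj P (fun p hp => (hP p hp).1) Q Q' hQ.1 hQ'.1 h
    rwa [Nat.card_Icc, Nat.add_sub_cancel] at h1
  have hz0 : (1 : ℝ) ≤ z := by exact_mod_cast hz1
  have hE : ∑ Q ∈ 𝒜, |Pool.Agent.H16.RD (Icc 1 Y) a c X g Q| ≤ (z : ℝ) ^ (2 * (4 * k + 5)) := by
    calc ∑ Q ∈ 𝒜, |Pool.Agent.H16.RD (Icc 1 Y) a c X g Q| ≤ ∑ _Q ∈ 𝒜, (z : ℝ) ^ (4 * k + 5) :=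
          Finset.sum_le_sum hRD
      _ = (#𝒜 : ℝ) * (z : ℝ) ^ (4 * k + 5) := by rw [Finset.sum_const, nsmul_eq_mul]
      _ ≤ (z : ℝ) ^ (4 * k + 5) * (z : ℝ) ^ (4 * k + 5) := by
          refine mul_le_mul_of_nonneg_right ?_ (by positivity)
          have : (#𝒜 : ℝ) ≤ ((z ^ (4 * k + 5) : ℕ) : ℝ) := by exact_mod_cast hcard
          refine this.trans (le_of_eq ?_)
          push_cast
          rfl
      _ = (z : ℝ) ^ (2 * (4 * k + 5)) := by rw [← pow_add]; congr 1; ring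
  have hE0 : 0 ≤ ∑ Q ∈ 𝒜, |Pool.Agent.H16.RD (Icc 1 Y) a c X g Q| :=
    Finset.sum_nonneg fun _ _ => abs_nonneg _
  have hlog : 100 ≤ Real.log z :=
    hw.trans (Real.log_le_log (by exact_mod_cast hw0) (by exact_mod_cast hwz))
  have hZ0 : (0 : ℝ) ≤ (z : ℝ) ^ (2 * (4 * k + 5)) := by positivity
  obtain ⟨hu, hl⟩ := hfl
  have hM : ∏ p ∈ P, (1 - (#(ℳ.image (fun m => rt (α m) (β m) p)) : ℝ) / p) = ∏ p ∈ P, (1 - g p) := rfl
  rw [hM]
  set M : ℝ := X * ∏ p ∈ P, (1 - g p) with hMdef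
  set E : ℝ := ∑ Q ∈ 𝒜, |Pool.Agent.H16.RD (Icc 1 Y) a c X g Q| with hEdef
  set S : ℝ := ∑ A ∈ Icc 1 Y, a A * ∏ p ∈ P, (1 - c A p) with hS
  set L : ℝ := Real.log z with hL
  set Z : ℝ := (z : ℝ) ^ (2 * (4 * k + 5)) with hZdef
  have hLE : L * E ≤ L * Z := mul_le_mul_of_nonneg_left hE (by linarith)
  have hLZ : Z ≤ L * Z := by nlinarith
  have hLZ0 : 0 ≤ L * Z := by linarith
  rw [abs_le]
  constructor
  · have h1 : (1 - (1 / 2) ^ k) * M - 2 * L * E = M - (1 / 2) ^ k * M - 2 * (L * E) := by ring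
    rw [h1] at hl
    have h2 : 3 * L * Z = 3 * (L * Z) := by ring
    rw [h2]
    linarith
  · have h1 : (1 + (1 / 2) ^ k) * M = M + (1 / 2) ^ k * M := by ring
    rw [h1] at hu
    have h2 : 3 * L * Z = 3 * (L * Z) := by ring
    rw [h2]
    linarith

end Pool.Agent.H2.NC
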